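import Pool.Agent.Fah.Defs

/-!
# Chief factors: the decomposition under an abelian normal subgroup, orbits on the power set
-/

set_option autoImplicit false

namespace Pool.Agent.Fah

open Pool.Agent.Bdt (der cj mem_cj cj_one cj_mul)

section

variable {H E : Type*} [Group H] [Finite H] [AddCommGroup E] [Finite E] [DistribMulAction H E]

-- BEGIN cop
/-- PROOF. If `p` divides `|A|` then `P = {a ∈ A | a ^ p = 1}` is a nontrivial `p`-subgroup, normal in `H`; a `p`-group acting on the `p`-group `E` has a fixed point `≠ 0` (`IsPGroup.card_modEq_card_fixedPoints`), `fx E P` is `H`-invariant, so it is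
`⊤` by irreducibility, so `P` acts trivially, contradiction to `Fth`. -/
theorem cop {p : ℕ} (hp : p.Prime) (hpE : ∀ v : E, p • v = 0) (hE : Nontrivial E) (hirr : Irr H E) (hf : Fth H E)
    (A : Subgroup H) (hA : A.Normal) (hab : ∀ a ∈ A, ∀ b ∈ A, a * b = b * a) : ¬ p ∣ Nat.card A := by
  intro hdvd
  have : Fact p.Prime := ⟨hp⟩
  let P : Subgroup H :=
    { carrier := {a | a ∈ A ∧ a ^ p = 1}
      mul_mem' := fun {a b} ha hb => ⟨A.mul_mem ha.1 hb.1, by
        rw [(show Commute a b from hab a ha.1 b hb.1).mul_pow, ha.2, hb.2, one_mul]⟩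
      one_mem' := ⟨A.one_mem, one_pow p⟩
      inv_mem' := fun {a} ha => ⟨A.inv_mem ha.1, by rw [inv_pow, ha.2, inv_one]⟩ }
  have hPmem : ∀ a : H, a ∈ P ↔ a ∈ A ∧ a ^ p = 1 := fun a => Iff.rfl
  have hPp : IsPGroup p P := by
    intro a
    refine ⟨1, ?_⟩
    apply Subtype.ext
    rw [pow_one]
    exact ((hPmem _).1 a.2).2
  obtain ⟨v0, hv0⟩ := exists_ne (0 : E)
  have hcard : p ∣ Nat.card E := by
    have h1 : addOrderOf v0 = p := addOrderOf_eq_prime (hpE v0) hv0
    rw [← h1]
    exact addOrderOf_dvd_natCard v0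
  have h0 : (0 : E) ∈ MulAction.fixedPoints P E := fun k => smul_zero k
  obtain ⟨b, hb, hb0⟩ := hPp.exists_fixed_point_of_prime_dvd_card_of_fixed_point E hcard h0
  have hbfx : b ∈ fx E P := fun k hk => hb ⟨k, hk⟩
  have hinv : ∀ (h : H), ∀ u ∈ fx E P, h • u ∈ fx E P := by
    intro h u hu k hk
    obtain ⟨hkA, hkp⟩ := (hPmem k).1 hk
    have h1 : h⁻¹ * k * h ∈ P := by
      refine (hPmem _).2 ⟨?_, ?_⟩
      · have h2 := hA.conj_mem k hkA h⁻¹
        rwa [inv_inv] at h2
      · have h3 := conj_pow (a := h⁻¹) (b := k) (i := p)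
        rw [inv_inv] at h3
        rw [h3, hkp, mul_one, inv_mul_cancel]
    have h4 := hu _ h1
    have h5 : k • h • u = h • ((h⁻¹ * k * h) • u) := by
      rw [← mul_smul, ← mul_smul]
      congr 1
      group
    rw [h5, h4]
  rcases hirr (fx E P) hinv with h1 | h1
  · rw [AddSubgroup.eq_bot_iff_forall] at h1
    exact hb0 (h1 b hbfx).symm
  · obtain ⟨a, ha⟩ := exists_prime_orderOf_dvd_card' (G := A) p hdvd
    have haP : (a : H) ∈ P := by
      refine (hPmem _).2 ⟨a.2, ?_⟩
      have h2 : a ^ p = 1 := by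
        rw [← ha]
        exact pow_orderOf_eq_one a
      have h3 := congrArg (fun x : A => (x : H)) h2
      exact h3
    have h4 : (a : H) = 1 := by
      refine hf _ fun v => ?_
      have h5 : v ∈ fx E P := by
        rw [h1]
        exact AddSubgroup.mem_top v
      exact h5 _ haP
    have h6 : a = 1 := Subtype.ext h4
    rw [h6, orderOf_one] at ha
    exact hp.one_lt.ne ha
-- END cop

-- BEGIN trs
/-- PROOF. Each summand is `v`. -/
theorem tr_self (K : Subgroup H) {v : E} (hv : v ∈ fx E K) : tr K v = Nat.card K • v := by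
  classical
  have : Fintype K := Fintype.ofFinite K
  have h1 : ∀ k : K, (k : H) • v = v := fun k => hv k k.2
  unfold tr
  rw [finsum_eq_sum_of_fintype, Finset.sum_congr rfl fun (k : K) _ => h1 k, Finset.sum_const,
    Finset.card_univ, Nat.card_eq_fintype_card]
-- END trs

-- BEGIN trl
private theorem trl_smul (K : Subgroup H) (h : H) (v : E) : h • tr K v = ∑ᶠ k : K, (h * (k : H)) • v := by
  rw [tr]
  have h1 := (DistribSMul.toAddMonoidHom E h).map_finsum (f := fun k : K => (k : H) • v) (Set.toFinite _)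
  rw [DistribSMul.toAddMonoidHom_apply] at h1
  rw [h1]
  refine finsum_congr fun k => ?_
  rw [DistribSMul.toAddMonoidHom_apply, mul_smul]

/-- PROOF. `tr K` is additive, commutes with each `h` up to conjugation, and its values are fixed by `K`. -/
theorem tr_lemmas (K : Subgroup H) : (∀ v w : E, tr K (v + w) = tr K v + tr K w) ∧ (∀ v : E, tr K v ∈ fx E K) ∧
    (∀ (h : H) (v : E), tr (cj h K) (h • v) = h • tr K v) := by
  refine ⟨fun v w => ?_, fun v k hk => ?_, fun h v => ?_⟩
  · rw [tr, tr, tr, ← finsum_add_distrib (Set.toFinite _) (Set.toFinite _)]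
    exact finsum_congr fun k => smul_add _ _ _
  · rw [trl_smul, tr]
    exact finsum_comp_equiv (f := fun j : K => (j : H) • v) (Equiv.mulLeft (⟨k, hk⟩ : K))
  · rw [trl_smul, tr]
    let e : K ≃ cj h K :=
      { toFun := fun k => ⟨h * k * h⁻¹, Pool.Agent.Bdt.cj_mem k.2⟩
        invFun := fun k => ⟨h⁻¹ * k * h, mem_cj.1 k.2⟩
        left_inv := fun k => Subtype.ext (by
          show h⁻¹ * (h * (k : H) * h⁻¹) * h = k
          group)
        right_inv := fun k => Subtype.ext (by
          show h * (h⁻¹ * (k : H) * h) * h⁻¹ = k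
          group) }
    rw [← finsum_comp_equiv e]
    refine finsum_congr fun k => ?_
    show (h * (k : H) * h⁻¹) • h • v = (h * (k : H)) • v
    rw [← mul_smul, inv_mul_cancel_right]
-- END trl

-- BEGIN tro
/-- PROOF. `tr K v` is fixed by `K` and (since `A` is abelian and `v` is fixed by `K'`) by `K'`, so by `K ⊔ K'`, which is larger than `K` (otherwise `K' ≤ K`, and `K' < K ≤ A` contradicts the maximality of `K'`), so it is `0`. -/
theorem tr_other (A : Subgroup H) (hab : ∀ a ∈ A, ∀ b ∈ A, a * b = b * a) {K K' : Subgroup H} (hK : K ∈ Kk E A)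
    (hK' : K' ∈ Kk E A) (hne : K ≠ K') {v : E} (hv : v ∈ fx E K') : tr K v = 0 := by
  obtain ⟨hKA, hK0, hKm⟩ := hK
  obtain ⟨hKA', hK0', hKm'⟩ := hK'
  obtain ⟨_, htr, hcj⟩ := tr_lemmas (E := E) K
  have h1 : K ≤ MulAction.stabilizer H (tr K v) := fun k hk => htr v k hk
  have h2 : K' ≤ MulAction.stabilizer H (tr K v) := by
    intro k hk
    have h3 : cj k K = K := by
      ext x
      rw [mem_cj]
      constructor
      · intro hx
        have h4 := hab k (hKA' hk) _ (hKA hx)
        have h5 : x = k⁻¹ * x * k := by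
          have h6 : k * (k⁻¹ * x * k) = x * k := by group
          rw [h6] at h4
          exact mul_right_cancel h4
        rw [h5]
        exact hx
      · intro hx
        have h4 := hab k (hKA' hk) x (hKA hx)
        have h5 : k⁻¹ * x * k = x := by
          rw [mul_assoc, ← h4, inv_mul_cancel_left]
        rw [h5]
        exact hx
    have h7 := hcj k v
    rw [h3, hv k hk] at h7
    exact h7.symm
  have h8 : K < K ⊔ K' := by
    refine lt_of_le_of_ne le_sup_left fun h => ?_
    have h9 : K' ≤ K := by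
      rw [h]
      exact le_sup_right
    exact hK0 (hKm' K (lt_of_le_of_ne h9 hne.symm) hKA)
  have h10 := hKm (K ⊔ K') h8 (sup_le hKA hKA')
  have h11 : tr K v ∈ fx E (K ⊔ K') := fun k hk => sup_le h1 h2 hk
  rw [h10] at h11
  exact (AddSubgroup.mem_bot).1 h11
-- END tro

-- BEGIN cjk
omit [Finite H] [Finite E] in
private theorem cjk_fx (K : Subgroup H) (h : H) {v : E} (hv : v ∈ fx E K) : h • v ∈ fx E (cj h K) := by
  intro k hk
  rw [mem_cj] at hk
  have h1 := hv _ hk
  have h2 : k • h • v = h • ((h⁻¹ * k * h) • v) := by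
    rw [← mul_smul, ← mul_smul]
    congr 1
    group
  rw [h2, h1]

/-- PROOF. `h • fx E K = fx E (cj h K)`, `cj h A = A`. -/
theorem cj_Kk (A : Subgroup H) (hA : A.Normal) (h : H) {K : Subgroup H} (hK : K ∈ Kk E A) : cj h K ∈ Kk E A := by
  obtain ⟨hKA, hK0, hKm⟩ := hK
  refine ⟨?_, ?_, ?_⟩
  · intro x hx
    rw [mem_cj] at hx
    have h1 := hA.conj_mem _ (hKA hx) h
    have h2 : h * (h⁻¹ * x * h) * h⁻¹ = x := by group
    rwa [h2] at h1
  · intro h0
    apply hK0
    rw [AddSubgroup.eq_bot_iff_forall] at h0 ⊢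
    intro v hv
    exact (smul_eq_zero_iff_eq h).1 (h0 _ (cjk_fx K h hv))
  · intro K' hlt hle
    have h1 : K < cj h⁻¹ K' := by
      refine lt_of_le_of_ne ?_ ?_
      · intro x hx
        rw [mem_cj]
        refine hlt.le ?_
        rw [mem_cj]
        have h2 : h⁻¹ * (h⁻¹⁻¹ * x * h⁻¹) * h = x := by group
        rw [h2]
        exact hx
      · intro heq
        have h3 : cj h K = K' := by
          rw [heq, ← cj_mul, mul_inv_cancel, cj_one]
        exact hlt.ne h3
    have h4 : cj h⁻¹ K' ≤ A := by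
      intro x hx
      rw [mem_cj] at hx
      have h5 := hA.conj_mem _ (hle hx) h⁻¹
      have h6 : h⁻¹ * (h⁻¹⁻¹ * x * h⁻¹) * h⁻¹⁻¹ = x := by group
      rwa [h6] at h5
    have h7 := hKm _ h1 h4
    rw [AddSubgroup.eq_bot_iff_forall] at h7 ⊢
    intro v hv
    exact (smul_eq_zero_iff_eq h⁻¹).1 (h7 _ (cjk_fx K' h⁻¹ hv))
-- END cjk

-- BEGIN top
omit [Finite H] [Finite E] in
private theorem top_inv (A : Subgroup H) (hc : ∀ (h : H) (K : Subgroup H), K ∈ Kk E A → cj h K ∈ Kk E A) (h : H) :
    ∀ u : E, u ∈ (⨆ K ∈ Kk E A, fx E K : AddSubgroup E) → h • u ∈ (⨆ K ∈ Kk E A, fx E K : AddSubgroup E) := by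
  have h1 : (⨆ K ∈ Kk E A, fx E K : AddSubgroup E) ≤
      (⨆ K ∈ Kk E A, fx E K : AddSubgroup E).comap (DistribSMul.toAddMonoidHom E h) := by
    refine iSup₂_le fun K hK u hu => ?_
    show h • u ∈ (⨆ K ∈ Kk E A, fx E K : AddSubgroup E)
    have h2 : h • u ∈ fx E (cj h K) := by
      intro k hk
      rw [mem_cj] at hk
      have h3 := hu _ hk
      have h4 : k • h • u = h • ((h⁻¹ * k * h) • u) := by
        rw [← mul_smul, ← mul_smul]
        congr 1
        group
      rw [h4, h3]
    exact (le_iSup₂ (f := fun (K : Subgroup H) (_ : K ∈ Kk E A) => fx E K) (cj h K) (hc h K hK)) h2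
  exact fun u hu => h1 hu

/-- PROOF. `Kk E A` is nonempty (a subgroup of `A` maximal with `fx E K ≠ ⊥`; `fx E ⊥ = ⊤ ≠ ⊥`), the supremum is `H`-invariant by `cj_Kk`, not `⊥`, so it is `⊤`. -/
theorem fx_top (hE : Nontrivial E) (hirr : Irr H E) (A : Subgroup H) (hA : A.Normal) :
    (⨆ K ∈ Kk E A, fx E K) = ⊤ := by
  rcases hirr (⨆ K ∈ Kk E A, fx E K)
    (fun h => top_inv A (fun h K hK => cj_Kk A hA h hK) h) with h0 | h0
  · exfalso
    have hbot : (⊥ : Subgroup H) ∈ {K : Subgroup H | K ≤ A ∧ fx E K ≠ ⊥} := by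
      refine ⟨bot_le, ?_⟩
      intro hb
      obtain ⟨v, hv⟩ := exists_ne (0 : E)
      rw [AddSubgroup.eq_bot_iff_forall] at hb
      refine hv (hb v ?_)
      intro k hk
      rw [(Subgroup.mem_bot).1 hk, one_smul]
    obtain ⟨K, hK, hmax⟩ := (wellFounded_gt (α := Subgroup H)).has_min _ ⟨⊥, hbot⟩
    have hKk : K ∈ Kk E A := by
      refine ⟨hK.1, hK.2, fun K' hlt hle => ?_⟩
      by_contra hne
      exact hmax K' ⟨hle, hne⟩ hlt
    have h1 : fx E K ≤ ⊥ := by
      rw [← h0]
      exact le_iSup₂ (f := fun (K : Subgroup H) (_ : K ∈ Kk E A) => fx E K) K hKk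
    exact hK.2 (le_bot_iff.1 h1)
  · exact h0
-- END top

-- BEGIN inf
/-- PROOF. The intersection acts trivially on every `fx E K`, so on `⨆ = ⊤`. -/
theorem inf_bot (hE : Nontrivial E) (hirr : Irr H E) (hf : Fth H E) (A : Subgroup H) (hA : A.Normal) (h : H)
    (hh : ∀ K ∈ Kk E A, h ∈ K) : h = 1 := by
  apply hf h
  intro v
  have hv : v ∈ (⨆ K ∈ Kk E A, fx E K) := by
    rw [fx_top hE hirr A hA]
    exact AddSubgroup.mem_top v
  have hle : (⨆ K ∈ Kk E A, fx E K) ≤ fx E (Subgroup.closure {h}) := by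
    refine iSup₂_le fun K hK => ?_
    intro w hw k hk
    have hk' : k ∈ K := by
      have h1 : Subgroup.closure {h} ≤ K := by
        rw [Subgroup.closure_le]
        intro x hx
        rw [Set.mem_singleton_iff.1 hx]
        exact hh K hK
      exact h1 hk
    exact hw k hk'
  exact hle hv h (Subgroup.subset_closure (Set.mem_singleton h))
-- END inf

-- BEGIN sur
/-- PROOF. Given `S`, choose `v_K ∈ fx E K`, `v_K ≠ 0`, for `K ∈ S`, and let `v = ∑ v_K`: `tr K v = |K| v_K ≠ 0` for `K ∈ S` (`|K|` divides `|A|`, prime to `p`, `p • v_K = 0`), and `tr K v = 0` for `K ∉ S` (`tr_other`, `tr_self`, `tr_lemmas`). -/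
theorem supp_surj {p : ℕ} (hp : p.Prime) (hpE : ∀ v : E, p • v = 0) (A : Subgroup H) (hA : A.Normal)
    (hab : ∀ a ∈ A, ∀ b ∈ A, a * b = b * a) (hcop : ¬ p ∣ Nat.card A) : Function.Surjective (supp (E := E) A) := by
  classical
  intro S
  haveI : Fintype (Kk E A) := Fintype.ofFinite _
  have hch : ∀ K : Kk E A, ∃ w : E, w ∈ fx E (K : Subgroup H) ∧ w ≠ 0 := by
    intro K
    rcases (fx E (K : Subgroup H)).bot_or_exists_ne_zero with h | ⟨w, hw, h0⟩
    · exact absurd h K.2.2.1
    · exact ⟨w, hw, h0⟩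
  choose w hw hw0 using hch
  have hadd : ∀ (K : Subgroup H) (T : Finset (Kk E A)),
      tr K (∑ L ∈ T, w L) = ∑ L ∈ T, tr K (w L) := by
    intro K T
    exact map_sum (AddMonoidHom.mk' (tr K) (tr_lemmas K).1) w T
  refine ⟨∑ L ∈ Finset.univ.filter (· ∈ S), w L, ?_⟩
  ext K
  show tr (K : Subgroup H) _ ≠ 0 ↔ K ∈ S
  rw [hadd]
  have hz : ∀ L : Kk E A, L ≠ K → tr (K : Subgroup H) (w L) = 0 := by
    intro L hL
    exact tr_other A hab K.2 L.2 (fun h => hL (Subtype.ext h.symm)) (hw L)
  have hk : tr (K : Subgroup H) (w K) ≠ 0 := by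
    rw [tr_self _ (hw K)]
    intro h0
    have h1 : addOrderOf (w K) ∣ Nat.card (K : Subgroup H) := addOrderOf_dvd_iff_nsmul_eq_zero.mpr h0
    have h2 : addOrderOf (w K) ∣ p := addOrderOf_dvd_iff_nsmul_eq_zero.mpr (hpE _)
    rcases (Nat.dvd_prime hp).mp h2 with h3 | h3
    · exact hw0 K (AddMonoid.addOrderOf_eq_one_iff.mp h3)
    · rw [h3] at h1
      exact hcop (h1.trans (Subgroup.card_dvd_of_le K.2.1))
  constructor
  · intro h
    by_contra hK
    apply h
    refine Finset.sum_eq_zero fun L hL => hz L ?_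
    rintro rfl
    exact hK (Finset.mem_filter.mp hL).2
  · intro hK
    rw [Finset.sum_eq_single K]
    · exact hk
    · intro L _ hL
      exact hz L hL
    · intro h
      exact absurd (Finset.mem_filter.mpr ⟨Finset.mem_univ K, hK⟩) h
-- END sur

/-- `H` permutes `Kk E A`. -/
noncomputable def sg (E : Type*) [AddCommGroup E] [Finite E] [DistribMulAction H E] (A : Subgroup H) (hA : A.Normal) :
    H →* Equiv.Perm (Kk E A) where
  toFun h :=
    { toFun := fun K => ⟨cj h K, cj_Kk A hA h K.2⟩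
      invFun := fun K => ⟨cj h⁻¹ K, cj_Kk A hA h⁻¹ K.2⟩
      left_inv := fun K => Subtype.ext (by
        show cj h⁻¹ (cj h (K : Subgroup H)) = K
        rw [← cj_mul, inv_mul_cancel, cj_one])
      right_inv := fun K => Subtype.ext (by
        show cj h (cj h⁻¹ (K : Subgroup H)) = K
        rw [← cj_mul, mul_inv_cancel, cj_one]) }
  map_one' := Equiv.ext fun K => Subtype.ext (cj_one _)
  map_mul' := fun a b => Equiv.ext fun K => Subtype.ext (cj_mul a b _)

-- BEGIN eqv
/-- PROOF. `tr_lemmas`: `tr (cj h K) (h • v) = h • tr K v`. -/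
theorem supp_eqv (A : Subgroup H) (hA : A.Normal) (h : H) (v : E) :
    supp A (h • v) = (sg E A hA h) '' supp A v := by
  ext K
  constructor
  · intro hK
    refine ⟨(sg E A hA h).symm K, ?_, Equiv.apply_symm_apply _ _⟩
    intro h0
    apply hK
    have h1 : (K : Subgroup H) = cj h ((sg E A hA h).symm K : Kk E A) :=
      congrArg Subtype.val (Equiv.apply_symm_apply (sg E A hA h) K).symm
    rw [h1, (tr_lemmas _).2.2 h v, h0, smul_zero]
  · rintro ⟨K', hK', rfl⟩ h0
    apply hK'
    have h1 : h • tr (K' : Subgroup H) v = 0 := by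
      rw [← (tr_lemmas (K' : Subgroup H)).2.2 h v]
      exact h0
    exact (smul_eq_zero_iff_eq h).1 h1
-- END eqv

end

-- BEGIN pwo
private theorem pwo_fix {Δ : Type*} [Finite Δ] (τ : Equiv.Perm Δ) {n Y : ℕ} (hn : 0 < n) (hnY : n ≤ Y)
    (hτ : τ ^ n = 1) : 2 ^ (Nat.card Δ / Y) ≤ Nat.card {S : Set Δ // τ '' S = S} := by
  classical
  let O := MulAction.orbitRel.Quotient (Subgroup.zpowers τ) Δ
  let π : Δ → O := fun d => Quotient.mk'' d
  have hπτ : ∀ d, π (τ d) = π d := by
    intro d
    apply Quotient.sound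
    show τ d ∈ MulAction.orbit (Subgroup.zpowers τ) d
    exact ⟨⟨τ, Subgroup.mem_zpowers τ⟩, rfl⟩
  have hπs : Function.Surjective π := fun q => by
    obtain ⟨d, hd⟩ := Quotient.exists_rep q
    exact ⟨d, hd⟩
  have hcardO : Nat.card Δ ≤ Nat.card O * Y := by
    have hs : Function.Surjective (fun x : O × Fin Y => (τ ^ (x.2 : ℕ)) (Quotient.out x.1)) := by
      intro d
      have h1 : π (Quotient.out (π d)) = π d := Quotient.out_eq' (π d)
      have h2 : d ∈ MulAction.orbit (Subgroup.zpowers τ) (Quotient.out (π d)) := by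
        have h3 : Quotient.out (π d) ∈ MulAction.orbit (Subgroup.zpowers τ) d := Quotient.exact' h1
        exact MulAction.mem_orbit_symm.mp h3
      obtain ⟨⟨t, ht⟩, htd⟩ := h2
      obtain ⟨k, rfl⟩ := Subgroup.mem_zpowers_iff.mp ht
      have hnz : (0 : ℤ) < n := by exact_mod_cast hn
      have hk0 : 0 ≤ k % n := Int.emod_nonneg _ hnz.ne'
      have hkn : k % n < n := Int.emod_lt_of_pos _ hnz
      obtain ⟨j, hj⟩ := Int.eq_ofNat_of_zero_le hk0
      have hjn : j < n := by rw [hj] at hkn; exact_mod_cast hkn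
      refine ⟨(π d, ⟨j, lt_of_lt_of_le hjn hnY⟩), ?_⟩
      have hpow : τ ^ k = τ ^ j := by
        have e : k = n * (k / n) + j := by
          have := Int.mul_ediv_add_emod k n
          rw [hj] at this; exact this.symm
        rw [e, zpow_add, zpow_mul]
        simp [hτ]
      have htd' : (τ ^ k) (Quotient.out (π d)) = d := htd
      show (τ ^ j) (Quotient.out (π d)) = d
      rw [← hpow]; exact htd'
    have := Nat.card_le_card_of_surjective _ hs
    simpa [Nat.card_prod] using this
  have hY : 0 < Y := lt_of_lt_of_le hn hnY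
  have hdiv : Nat.card Δ / Y ≤ Nat.card O := Nat.div_le_of_le_mul (by rw [mul_comm]; exact hcardO)
  have hinj : Function.Injective (fun T : Set O => (⟨π ⁻¹' T, by
      ext d
      constructor
      · rintro ⟨e, he, rfl⟩
        show π (τ e) ∈ T
        rw [hπτ]; exact he
      · intro hd
        refine ⟨τ.symm d, ?_, by simp⟩
        show π (τ.symm d) ∈ T
        rw [← hπτ (τ.symm d), Equiv.apply_symm_apply]; exact hd⟩ : {S : Set Δ // τ '' S = S})) := by
    intro T T' h
    exact hπs.preimage_injective (congrArg Subtype.val h)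
  calc 2 ^ (Nat.card Δ / Y) ≤ 2 ^ Nat.card O := Nat.pow_le_pow_right (by norm_num) hdiv
    _ = Nat.card (Set O) := by
        haveI := Fintype.ofFinite O
        rw [Nat.card_eq_fintype_card, Nat.card_eq_fintype_card, Fintype.card_set]
    _ ≤ _ := Nat.card_le_card_of_injective _ hinj

/-- PROOF. The orbits of `H` on `E` map onto the orbits of `H` on `Set Δ` (action through `σ`), so their number `n` satisfies `|H| n ≥ ∑_h |{S : Set Δ | σ h '' S = S}|` (Burnside, `MulAction.sum_card_fixedBy_eq_card_orbits_mul_card_group`), and for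
`orderOf h ≤ Y` the permutation `σ h` has order `≤ Y`, so it has at least `|Δ| / Y` cycles (fixed points included), and at least `2 ^ (|Δ| / Y)` invariant sets (unions of cycles). -/
theorem pow_orb {H Δ E : Type*} [Group H] [Finite H] [Finite Δ] [Finite E] [MulAction H E] (σ : H →* Equiv.Perm Δ)
    {Y : ℕ} (hY : 0 < Y) (hhalf : Nat.card H ≤ 2 * Nat.card {h : H // orderOf h ≤ Y}) (φ : E → Set Δ)
    (hφ : Function.Surjective φ) (heq : ∀ (h : H) (e : E), φ (h • e) = σ h '' φ e) :
    2 ^ (Nat.card Δ / Y) ≤ 2 * Nat.card (MulAction.orbitRel.Quotient H E) := by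
  classical
  letI act : MulAction H (Set Δ) :=
    { smul := fun h S => σ h '' S
      one_smul := fun S => by
        show σ 1 '' S = S
        rw [map_one]; simp
      mul_smul := fun a b S => by
        show σ (a * b) '' S = σ a '' (σ b '' S)
        rw [map_mul, Set.image_image]; rfl }
  have hsm : ∀ (h : H) (S : Set Δ), h • S = σ h '' S := fun _ _ => rfl
  haveI := Fintype.ofFinite H
  haveI := Fintype.ofFinite Δ
  haveI := Fintype.ofFinite (Quotient (MulAction.orbitRel H (Set Δ)))
  haveI : ∀ h : H, Fintype (MulAction.fixedBy (Set Δ) h) := fun h => Fintype.ofFinite _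
  have hB := MulAction.sum_card_fixedBy_eq_card_orbits_mul_card_group H (Set Δ)
  have hquot : Nat.card (MulAction.orbitRel.Quotient H (Set Δ)) ≤ Nat.card (MulAction.orbitRel.Quotient H E) := by
    let F : MulAction.orbitRel.Quotient H E → MulAction.orbitRel.Quotient H (Set Δ) :=
      Quotient.map' φ (by
        intro a b hab
        obtain ⟨h, hh⟩ := hab
        refine ⟨h, ?_⟩
        show h • φ b = φ a
        rw [hsm, ← heq]
        exact congrArg φ hh)
    have hF : Function.Surjective F := by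
      intro q
      obtain ⟨S, rfl⟩ := Quotient.exists_rep q
      obtain ⟨e, rfl⟩ := hφ S
      exact ⟨Quotient.mk'' e, rfl⟩
    haveI : Finite (MulAction.orbitRel.Quotient H E) := Quotient.finite _
    exact Nat.card_le_card_of_surjective F hF
  have hfix : ∀ h : H, orderOf h ≤ Y → 2 ^ (Nat.card Δ / Y) ≤ Fintype.card (MulAction.fixedBy (Set Δ) h) := by
    intro h hh
    have h1 := pwo_fix (σ h) (n := orderOf h) (orderOf_pos h) hh (by rw [← map_pow, pow_orderOf_eq_one, map_one])
    rw [← Nat.card_eq_fintype_card]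
    exact h1
  have hsum : Nat.card {h : H // orderOf h ≤ Y} * 2 ^ (Nat.card Δ / Y) ≤
      ∑ h : H, Fintype.card (MulAction.fixedBy (Set Δ) h) := by
    calc Nat.card {h : H // orderOf h ≤ Y} * 2 ^ (Nat.card Δ / Y)
        = ∑ _h ∈ (Finset.univ.filter fun h : H => orderOf h ≤ Y), 2 ^ (Nat.card Δ / Y) := by
          rw [Finset.sum_const, smul_eq_mul, Nat.card_eq_fintype_card, Fintype.card_subtype]
      _ ≤ ∑ h ∈ (Finset.univ.filter fun h : H => orderOf h ≤ Y), Fintype.card (MulAction.fixedBy (Set Δ) h) :=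
          Finset.sum_le_sum fun h hh => hfix h (Finset.mem_filter.mp hh).2
      _ ≤ _ := Finset.sum_le_sum_of_subset (Finset.filter_subset _ _)
  rw [hB] at hsum
  have hH : 0 < Nat.card H := Nat.card_pos
  have e1 : Fintype.card (Quotient (MulAction.orbitRel H (Set Δ))) = Nat.card (MulAction.orbitRel.Quotient H (Set Δ)) :=
    (Nat.card_eq_fintype_card).symm
  rw [e1, ← Nat.card_eq_fintype_card (α := H)] at hsum
  have h3 : Nat.card H * 2 ^ (Nat.card Δ / Y) ≤ Nat.card H * (2 * Nat.card (MulAction.orbitRel.Quotient H (Set Δ))) := by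
    calc Nat.card H * 2 ^ (Nat.card Δ / Y)
        ≤ (2 * Nat.card {h : H // orderOf h ≤ Y}) * 2 ^ (Nat.card Δ / Y) := Nat.mul_le_mul_right _ hhalf
      _ = 2 * (Nat.card {h : H // orderOf h ≤ Y} * 2 ^ (Nat.card Δ / Y)) := by ring
      _ ≤ 2 * (Nat.card (MulAction.orbitRel.Quotient H (Set Δ)) * Nat.card H) := Nat.mul_le_mul_left _ hsum
      _ = Nat.card H * (2 * Nat.card (MulAction.orbitRel.Quotient H (Set Δ))) := by ring
  exact le_trans (Nat.le_of_mul_le_mul_left h3 hH) (Nat.mul_le_mul_left _ hquot)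
-- END pwo

section

variable {H E : Type*} [Group H] [Finite H] [AddCommGroup E] [Finite E] [DistribMulAction H E]

-- BEGIN sem
omit [Finite H] [Finite E] in
theorem sem_mem {A : Subgroup H} (hab : ∀ a ∈ A, ∀ b ∈ A, a * b = b * a) {K : Subgroup H} (hK : K ∈ Kk E A)
    {a : H} (ha : a ∈ A) {v : E} (hv : v ∈ fx E K) : a • v ∈ fx E K := by
  intro k hk
  rw [← mul_smul, hab k (hK.1 hk) a ha, mul_smul, hv k hk]

/-- PROOF. `A` acts on `fx E K` (it is abelian, `K ≤ A`); the group `A / K` acts semiregularly on the nonzero vectors: if `a ∈ A`, `a ∉ K`, fixes `v ∈ fx E K` then `v ∈ fx E (K ⊔ zpowers a) = ⊥`. So all orbits of `A` on `fx E K \ {0}` have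
length `|A : K|`. -/
theorem semireg (A : Subgroup H) (hab : ∀ a ∈ A, ∀ b ∈ A, a * b = b * a) {K : Subgroup H} (hK : K ∈ Kk E A) :
    K.relIndex A ∣ Nat.card (fx E K) - 1 := by
  classical
  let _ : MulAction A {w : fx E K // w ≠ 0} :=
    { smul := fun a w => ⟨⟨(a : H) • (w.1 : E), sem_mem hab hK a.2 w.1.2⟩, by
        intro h
        apply w.2
        have h1 : (a : H) • (w.1 : E) = 0 := congrArg Subtype.val h
        apply Subtype.ext
        show (w.1 : E) = 0
        have h2 : (a : H)⁻¹ • ((a : H) • (w.1 : E)) = 0 := by rw [h1, smul_zero]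
        rwa [inv_smul_smul] at h2⟩
      one_smul := by
        intro w
        apply Subtype.ext
        apply Subtype.ext
        show ((1 : A) : H) • (w.1 : E) = w.1
        rw [Subgroup.coe_one, one_smul]
      mul_smul := by
        intro a b w
        apply Subtype.ext
        apply Subtype.ext
        show ((a * b : A) : H) • (w.1 : E) = (a : H) • ((b : H) • (w.1 : E))
        rw [Subgroup.coe_mul, mul_smul] }
  have hstab : ∀ w : {w : fx E K // w ≠ 0}, MulAction.stabilizer A w = K.subgroupOf A := by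
    intro w
    ext a
    rw [MulAction.mem_stabilizer_iff, Subgroup.mem_subgroupOf]
    constructor
    · intro h
      have h1 : (a : H) • (w.1 : E) = w.1 := congrArg (fun z : {w : fx E K // w ≠ 0} => (z.1 : E)) h
      by_contra hc
      have hlt : K < K ⊔ Subgroup.zpowers (a : H) := by
        refine lt_of_le_of_ne le_sup_left fun heq => hc ?_
        rw [heq]
        exact (le_sup_right : Subgroup.zpowers (a : H) ≤ K ⊔ Subgroup.zpowers (a : H)) (Subgroup.mem_zpowers _)
      have hle : K ⊔ Subgroup.zpowers (a : H) ≤ A := sup_le hK.1 (by rw [Subgroup.zpowers_le]; exact a.2)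
      have hbot := hK.2.2 _ hlt hle
      have hmem : (w.1 : E) ∈ fx E (K ⊔ Subgroup.zpowers (a : H)) := by
        have h3 : K ⊔ Subgroup.zpowers (a : H) ≤ MulAction.stabilizer H (w.1 : E) := by
          refine sup_le (fun k hk => ?_) ?_
          · rw [MulAction.mem_stabilizer_iff]
            exact w.1.2 k hk
          · rw [Subgroup.zpowers_le, MulAction.mem_stabilizer_iff]
            exact h1
        intro k hk
        exact h3 hk
      rw [hbot, AddSubgroup.mem_bot] at hmem
      exact w.2 (Subtype.ext hmem)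
    · intro h
      apply Subtype.ext
      apply Subtype.ext
      exact w.1.2 (a : H) h
  have hcard : Nat.card (fx E K) = Nat.card {w : fx E K // w ≠ 0} + 1 := by
    rw [← Finite.card_option]
    exact (Nat.card_congr (Equiv.optionSubtypeNe (0 : fx E K))).symm
  let _ : Fintype (Quotient (MulAction.orbitRel A {w : fx E K // w ≠ 0})) := Fintype.ofFinite _
  rw [hcard, Nat.add_sub_cancel, Nat.card_congr (MulAction.selfEquivSigmaOrbitsQuotientStabilizer A {w : fx E K // w ≠ 0}),
    Nat.card_sigma]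
  refine Finset.dvd_sum fun i _ => ?_
  rw [hstab]
  exact dvd_rfl
-- END sem

-- BEGIN snm
private theorem snm_part {y p f a q : ℕ} (hp : p.Prime) (hpy : p ≤ y) (hf : 0 < f) (ha : a ∣ p ^ f - 1)
    (hq : q.Prime) (hqa : q ∣ a) (hqy : q ≤ y) : q ^ padicValNat q a ≤ y ^ (2 * y) * f := by
  haveI : Fact q.Prime := ⟨hq⟩
  have hy1 : 1 ≤ y := le_trans hp.one_lt.le hpy
  have hpf : 1 < p ^ f := Nat.one_lt_pow hf.ne' hp.one_lt
  have hpf0 : p ^ f - 1 ≠ 0 := by omega
  have hqp : ¬ q ∣ p := by
    intro h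
    have h1 : q ∣ p ^ f := dvd_pow h hf.ne'
    have h2 : q ∣ p ^ f - 1 := dvd_trans hqa ha
    have h3 : q ∣ 1 := by
      have := Nat.dvd_sub h1 h2
      rwa [Nat.sub_sub_self hpf.le] at this
    exact hq.one_lt.ne' (Nat.dvd_one.mp h3)
  have hva : padicValNat q a ≤ padicValNat q (p ^ f - 1) :=
    (padicValNat_dvd_iff_le hpf0).mp (dvd_trans pow_padicValNat_dvd ha)
  have hfq : q ^ padicValNat q f ≤ f := Nat.le_of_dvd hf pow_padicValNat_dvd
  rcases hq.eq_two_or_odd' with h2 | hodd
  · subst h2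
    have h1 := padicValNat.pow_two_sub_pow (x := p) (y := 1) (n := 2 * f) hp.one_lt
      (by
        rcases hp.eq_two_or_odd' with h | h
        · exact absurd (by rw [h]) hqp
        · exact (Nat.Odd.sub_odd h odd_one).two_dvd) hqp (by omega) (even_two_mul f)
    have h3 : padicValNat 2 (2 * f) = 1 + padicValNat 2 f := by
      rw [padicValNat.mul two_ne_zero hf.ne', padicValNat_self]
    rw [one_pow, h3] at h1
    have h4 : p ^ f - 1 ∣ p ^ (2 * f) - 1 := by
      have := Nat.sub_dvd_pow_sub_pow (p ^ f) 1 2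
      rw [one_pow, ← pow_mul, mul_comm f 2] at this
      exact this
    have h5 : p ^ (2 * f) - 1 ≠ 0 := by
      have : 1 < p ^ (2 * f) := Nat.one_lt_pow (by omega) hp.one_lt
      omega
    have h6 : padicValNat 2 (p ^ f - 1) ≤ padicValNat 2 (p ^ (2 * f) - 1) :=
      (padicValNat_dvd_iff_le h5).mp (dvd_trans pow_padicValNat_dvd h4)
    have h7 : padicValNat 2 a ≤ padicValNat 2 (p + 1) + padicValNat 2 (p - 1) + padicValNat 2 f := by omega
    calc 2 ^ padicValNat 2 a ≤ 2 ^ (padicValNat 2 (p + 1) + padicValNat 2 (p - 1) + padicValNat 2 f) :=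
          Nat.pow_le_pow_right (by norm_num) h7
      _ = 2 ^ padicValNat 2 (p + 1) * 2 ^ padicValNat 2 (p - 1) * 2 ^ padicValNat 2 f := by
          rw [pow_add, pow_add]
      _ ≤ (p + 1) * (p - 1) * f := by
          have hp1 := hp.one_lt
          exact Nat.mul_le_mul (Nat.mul_le_mul (Nat.le_of_dvd (by omega) pow_padicValNat_dvd)
            (Nat.le_of_dvd (by omega) pow_padicValNat_dvd)) hfq
      _ ≤ y ^ (2 * y) * f := by
          apply Nat.mul_le_mul_right
          calc (p + 1) * (p - 1) ≤ p ^ 2 := by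
                have hp1 := hp.one_lt
                obtain ⟨k, rfl⟩ : ∃ k, p = k + 1 := ⟨p - 1, by omega⟩
                simp only [Nat.add_sub_cancel]
                nlinarith
            _ ≤ y ^ 2 := Nat.pow_le_pow_left hpy 2
            _ ≤ y ^ (2 * y) := Nat.pow_le_pow_right hy1 (by omega)
  · have hq2 : 2 < q := by
      rcases hq.two_le.lt_or_eq with h | h
      · exact h
      · subst h; exact absurd hodd (by decide)
    set P : ℕ := p ^ (2 * (q - 1)) with hP
    have hP1 : 1 < P := Nat.one_lt_pow (by omega) hp.one_lt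
    have hqP : q ∣ P - 1 := by
      have h1 : p ^ (q - 1) ≡ 1 [MOD q] := by
        have hz : ((p : ZMod q)) ≠ 0 := by
          rw [Ne, ZMod.natCast_eq_zero_iff]; exact hqp
        have := ZMod.pow_card_sub_one_eq_one hz
        rw [← ZMod.natCast_eq_natCast_iff]
        push_cast
        exact this
      have h2 : P ≡ 1 [MOD q] := by
        have := h1.pow 2
        rw [one_pow, ← pow_mul, mul_comm (q - 1) 2] at this
        exact this
      exact (Nat.modEq_iff_dvd' hP1.le).mp h2.symm
    have hqP' : ¬ q ∣ P := fun h => hqp (hq.dvd_of_dvd_pow h)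
    have h1 := padicValNat.pow_sub_pow (p := q) (x := P) (y := 1) (n := f) hodd hP1 hqP hqP' hf.ne'
    rw [one_pow] at h1
    have h4 : p ^ f - 1 ∣ P ^ f - 1 := by
      have := Nat.sub_dvd_pow_sub_pow (p ^ f) 1 (2 * (q - 1))
      rw [one_pow, ← pow_mul, mul_comm f (2 * (q - 1)), pow_mul] at this
      exact this
    have h5 : P ^ f - 1 ≠ 0 := by
      have : 1 < P ^ f := Nat.one_lt_pow hf.ne' hP1
      omega
    have h6 : padicValNat q (p ^ f - 1) ≤ padicValNat q (P ^ f - 1) :=
      (padicValNat_dvd_iff_le h5).mp (dvd_trans pow_padicValNat_dvd h4)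
    have h7 : padicValNat q a ≤ padicValNat q (P - 1) + padicValNat q f := by omega
    calc q ^ padicValNat q a ≤ q ^ (padicValNat q (P - 1) + padicValNat q f) :=
          Nat.pow_le_pow_right hq.pos h7
      _ = q ^ padicValNat q (P - 1) * q ^ padicValNat q f := pow_add _ _ _
      _ ≤ (P - 1) * f := Nat.mul_le_mul (Nat.le_of_dvd (by omega) pow_padicValNat_dvd) hfq
      _ ≤ y ^ (2 * y) * f := by
          apply Nat.mul_le_mul_right
          calc P - 1 ≤ P := Nat.sub_le _ _
            _ ≤ y ^ (2 * (q - 1)) := Nat.pow_le_pow_left hpy _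
            _ ≤ y ^ (2 * y) := Nat.pow_le_pow_right hy1 (by omega)

/-- PROOF. For each prime `q ≤ y`, `q ≠ p`: the `q`-part of `a` divides the `q`-part of `p ^ f - 1`, which divides the one of `(p ^ (2 * (q - 1))) ^ f - 1`, which is (lifting the exponent, `Nat.padicValNat...pow_sub_pow`, for `q = 2` note that
`4 ∣ p ^ 2 - 1`) the `q`-part of `(p ^ (2 * (q - 1)) - 1) * f`, so it is `≤ y ^ (2 * y) * f`. `q = p` does not divide `a`. At most `y` primes `q`. -/
theorem smooth_div {y p f a : ℕ} (hp : p.Prime) (hpy : p ≤ y) (hf : 0 < f) (ha : a ∣ p ^ f - 1)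
    (hy : ∀ q : ℕ, q.Prime → q ∣ a → q ≤ y) : a ≤ (y ^ (2 * y) * f) ^ y := by
  have hy1 : 1 ≤ y := le_trans hp.one_lt.le hpy
  have hpf : 1 < p ^ f := Nat.one_lt_pow hf.ne' hp.one_lt
  have ha0 : a ≠ 0 := by
    rintro rfl
    have := Nat.eq_zero_of_zero_dvd ha
    omega
  have hbase : 1 ≤ y ^ (2 * y) * f := Nat.mul_pos (Nat.pow_pos hy1) hf
  have hprod : a = ∏ q ∈ a.primeFactors, q ^ padicValNat q a := by
    conv_lhs => rw [← Nat.prod_factorization_pow_eq_self ha0]
    rw [Nat.prod_factorization_eq_prod_primeFactors]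
    refine Finset.prod_congr rfl fun q hq => ?_
    rw [Nat.factorization_def a (Nat.prime_of_mem_primeFactors hq)]
  have hcard : a.primeFactors.card ≤ y := by
    have hsub : a.primeFactors ⊆ Finset.Icc 1 y := by
      intro q hq
      have hqp := Nat.prime_of_mem_primeFactors hq
      exact Finset.mem_Icc.mpr ⟨hqp.one_lt.le, hy q hqp (Nat.dvd_of_mem_primeFactors hq)⟩
    calc a.primeFactors.card ≤ (Finset.Icc 1 y).card := Finset.card_le_card hsub
      _ = y := by simp
  calc a = ∏ q ∈ a.primeFactors, q ^ padicValNat q a := hprod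
    _ ≤ (y ^ (2 * y) * f) ^ a.primeFactors.card := Finset.prod_le_pow_card _ _ _ (fun q hq => by
        have hqp := Nat.prime_of_mem_primeFactors hq
        have hqd := Nat.dvd_of_mem_primeFactors hq
        exact snm_part hp hpy hf ha hqp hqd (hy q hqp hqd))
    _ ≤ (y ^ (2 * y) * f) ^ y := Nat.pow_le_pow_right hbase hcard
-- END snm

-- BEGIN crA
/-- PROOF. `semireg` and `smooth_div` (`|fx E K| = p ^ f` with `1 ≤ f ≤ log_2 |E|`; `K.relIndex A` divides `|H|`), and `relIndex_iInf_le` (`inf_bot`: the intersection of the `K ∈ Kk E A` is trivial). -/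
theorem card_A {p y : ℕ} (hp : p.Prime) (hpE : ∀ v : E, p • v = 0) (hE : Nontrivial E) (hirr : Irr H E)
    (hf : Fth H E) (A : Subgroup H) (hA : A.Normal) (hab : ∀ a ∈ A, ∀ b ∈ A, a * b = b * a) (hpy : p ≤ y)
    (hy : ∀ q : ℕ, q.Prime → q ∣ Nat.card H → q ≤ y) :
    Nat.card A ≤ ((y ^ (2 * y) * Nat.log 2 (Nat.card E)) ^ y) ^ Nat.card (Kk E A) := by
  classical
  have hfin : Finite (Kk E A) := inferInstance
  let _ : Fintype (Kk E A) := Fintype.ofFinite _
  have hone : ∀ K : Kk E A, (K : Subgroup H).relIndex A ≤ (y ^ (2 * y) * Nat.log 2 (Nat.card E)) ^ y := by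
    intro K
    obtain ⟨K, hK⟩ := K
    have hpg : IsPGroup p (Multiplicative (fx E K)) := by
      intro g
      refine ⟨1, ?_⟩
      rw [pow_one]
      apply Multiplicative.toAdd.injective
      apply Subtype.ext
      exact hpE _
    have := Fact.mk hp
    obtain ⟨f, hcf⟩ := hpg.exists_card_eq
    have hcf' : Nat.card (fx E K) = p ^ f := hcf
    have hle : Nat.card (fx E K) ≤ Nat.card E := Nat.card_le_card_of_injective (fun w : fx E K => (w : E)) Subtype.coe_injective
    have hf0 : 0 < f := by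
      rcases Nat.eq_zero_or_pos f with h0 | h0
      · exfalso
        rw [h0, pow_zero] at hcf'
        apply hK.2.1
        exact (AddSubgroup.card_eq_one).1 hcf'
      · exact h0
    have hflog : f ≤ Nat.log 2 (Nat.card E) := by
      apply Nat.le_log_of_pow_le (by norm_num)
      calc 2 ^ f ≤ p ^ f := Nat.pow_le_pow_left hp.two_le f
        _ ≤ Nat.card E := hcf' ▸ hle
    have hdiv : K.relIndex A ∣ p ^ f - 1 := hcf' ▸ semireg A hab hK
    have hsm := smooth_div hp hpy hf0 hdiv (fun q hq hqa => hy q hq (hqa.trans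
      ((Subgroup.relIndex_dvd_card K A).trans (Subgroup.card_subgroup_dvd_card A))))
    refine hsm.trans ?_
    exact Nat.pow_le_pow_left (Nat.mul_le_mul_left _ hflog) y
  have hinf : (⨅ K : Kk E A, (K : Subgroup H)) = ⊥ := by
    rw [eq_bot_iff]
    intro h hh
    rw [Subgroup.mem_iInf] at hh
    rw [Subgroup.mem_bot]
    exact inf_bot hE hirr hf A hA h fun K hK => hh ⟨K, hK⟩
  have h1 := Subgroup.relIndex_iInf_le (L := A) (fun K : Kk E A => (K : Subgroup H))
  rw [hinf, Subgroup.relIndex_bot_left] at h1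
  refine h1.trans ?_
  rw [Nat.card_eq_fintype_card (α := Kk E A)]
  exact Finset.prod_le_pow_card _ _ _ fun K _ => hone K
-- END crA

end

end Pool.Agent.Fah
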