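import Pool.Agent.Fah.A1

/-!
# Chief factors: a normal subgroup of class 2 that contains its centralizer
-/

set_option autoImplicit false

namespace Pool.Agent.Fah

open Pool.Agent.Bdt (der cj mem_cj cj_one cj_mul)

/-- `A` is maximal among the abelian normal subgroups of `H` inside `S`. -/
structure MaxA {H : Type*} [Group H] (S A : Subgroup H) : Prop where
  nor : A.Normal
  le : A ≤ S
  ab : ∀ a ∈ A, ∀ b ∈ A, a * b = b * a
  max : ∀ B : Subgroup H, B.Normal → A ≤ B → B ≤ S → (∀ a ∈ B, ∀ b ∈ B, a * b = b * a) → B = A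

/-- `D` is a normal subgroup of `H` of class at most `2` with centre `A`, and `A` is the centralizer of `D` in `S`. -/
structure ClD {H : Type*} [Group H] (S A D : Subgroup H) : Prop where
  nor : D.Normal
  le : A ≤ D
  leS : D ≤ S
  cen : ∀ a ∈ A, ∀ d ∈ D, a * d = d * a
  com : ∀ d ∈ D, ∀ e ∈ D, d * e * d⁻¹ * e⁻¹ ∈ A
  zen : ∀ d ∈ D, (∀ e ∈ D, d * e = e * d) → d ∈ A
  cent : ∀ s ∈ S, (∀ e ∈ D, s * e = e * s) → s ∈ A

-- BEGIN exA
/-- PROOF. `H` is finite; `⊥` is an abelian normal subgroup. -/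
theorem exists_maxA {H : Type*} [Group H] [Finite H] (S : Subgroup H) : ∃ A : Subgroup H, MaxA S A := by
  classical
  have hfin : Finite (Subgroup H) := inferInstance
  let T : Set (Subgroup H) := {B | B.Normal ∧ B ≤ S ∧ ∀ a ∈ B, ∀ b ∈ B, a * b = b * a}
  have hT : T.Nonempty := by
    refine ⟨⊥, Subgroup.normal_bot, bot_le, ?_⟩
    intro a ha b hb
    rw [Subgroup.mem_bot] at ha hb
    rw [ha, hb]
  obtain ⟨A, hA, hmax⟩ := Set.Finite.exists_maximal (Set.toFinite T) hT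
  refine ⟨A, hA.1, hA.2.1, hA.2.2, ?_⟩
  intro B hB hAB hBS hBab
  exact le_antisymm (hmax ⟨hB, hBS, hBab⟩ hAB) hAB
-- END exA

-- BEGIN exD
private theorem exD_der_map {H : Type*} [Group H] (S C : Subgroup H) (hCS : C ≤ S) (n : ℕ) :
    der C n ≤ (derivedSeries S n).map S.subtype := by
  induction n with
  | zero =>
    rw [der, derivedSeries_zero, ← MonoidHom.range_eq_map, Subgroup.range_subtype]
    exact hCS
  | succ n ih =>
    rw [der, derivedSeries_succ, Subgroup.map_commutator]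
    exact Subgroup.commutator_mono ih ih

private theorem exD_sup {H : Type*} [Group H] (A D W : Subgroup H) [D.Normal]
    (hD : ∀ d ∈ D, ∀ e ∈ D, d * e * d⁻¹ * e⁻¹ ∈ A) (hW : ∀ d ∈ W, ∀ e ∈ W, d * e * d⁻¹ * e⁻¹ ∈ A)
    (hDW : ∀ d ∈ D, ∀ w ∈ W, w * d = d * w) : ∀ x ∈ D ⊔ W, ∀ y ∈ D ⊔ W, x * y * x⁻¹ * y⁻¹ ∈ A := by
  intro x hx y hy
  rw [← SetLike.mem_coe, Subgroup.normal_mul, Set.mem_mul] at hx hy
  obtain ⟨d, hd, w, hw, rfl⟩ := hx
  obtain ⟨d', hd', w', hw', rfl⟩ := hy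
  have h1 : d * w * (d' * w') * (d * w)⁻¹ * (d' * w')⁻¹ = (d * d' * d⁻¹ * d'⁻¹) * (w * w' * w⁻¹ * w'⁻¹) := by
    have e1 : w * d' = d' * w := hDW d' hd' w hw
    have e2 : w⁻¹ * d⁻¹ = d⁻¹ * w⁻¹ := hDW _ (D.inv_mem hd) _ (W.inv_mem hw)
    have e3 : w' * d⁻¹ = d⁻¹ * w' := hDW _ (D.inv_mem hd) _ hw'
    have e4 : w * d⁻¹ = d⁻¹ * w := hDW _ (D.inv_mem hd) _ hw
    have hc : w * w' * w⁻¹ * w'⁻¹ ∈ W := W.mul_mem (W.mul_mem (W.mul_mem hw hw') (W.inv_mem hw)) (W.inv_mem hw')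
    have e5 : (w * w' * w⁻¹ * w'⁻¹) * d'⁻¹ = d'⁻¹ * (w * w' * w⁻¹ * w'⁻¹) := hDW _ (D.inv_mem hd') _ hc
    calc d * w * (d' * w') * (d * w)⁻¹ * (d' * w')⁻¹ = d * (w * d') * w' * (w⁻¹ * d⁻¹) * w'⁻¹ * d'⁻¹ := by group
      _ = d * (d' * w) * w' * (d⁻¹ * w⁻¹) * w'⁻¹ * d'⁻¹ := by rw [e1, e2]
      _ = d * d' * w * (w' * d⁻¹) * w⁻¹ * w'⁻¹ * d'⁻¹ := by group
      _ = d * d' * w * (d⁻¹ * w') * w⁻¹ * w'⁻¹ * d'⁻¹ := by rw [e3]
      _ = d * d' * (w * d⁻¹) * w' * w⁻¹ * w'⁻¹ * d'⁻¹ := by group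
      _ = d * d' * (d⁻¹ * w) * w' * w⁻¹ * w'⁻¹ * d'⁻¹ := by rw [e4]
      _ = d * d' * d⁻¹ * ((w * w' * w⁻¹ * w'⁻¹) * d'⁻¹) := by group
      _ = d * d' * d⁻¹ * (d'⁻¹ * (w * w' * w⁻¹ * w'⁻¹)) := by rw [e5]
      _ = _ := by group
  rw [h1]
  exact A.mul_mem (hD d hd d' hd') (hW w hw w' hw')

/-- PROOF. Let `D` be maximal among the normal subgroups of `H` with `A ≤ D ≤ S`, `D` centralizing `A`, `⁅D, D⁆ ≤ A` (`A` itself is one). `zen`: the centre of `D` is an abelian normal subgroup of `H`, contains `A`, is inside `S`, so it is `A`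
(`MaxA.max`). `cent`: let `K` be the centralizer of `D` in `S` (normal in `H`, `A ≤ K`, `A` is central in `K`). If `K` is not inside `A` let `j` be maximal with `der K j` not inside `A` (`K` is solvable, `der K n = ⊥` for some `n`), `X = der K j ⊔ A`:
normal in `H`, `X ≤ K`, and `⁅X, X⁆ ≤ A` (since `der K (j + 1) ≤ A` and `A` is central in `K`). `D ⊔ X` is normal, inside `S`, centralizes `A`, and `⁅D ⊔ X, D ⊔ X⁆ ≤ A` since `X` centralizes `D`. So `X ≤ D`; the elements of `X` are in `D` and centralize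
`D`, so `X ≤ A` by `zen`, contradiction. -/
theorem exists_clD {H : Type*} [Group H] [Finite H] (S : Subgroup H) (hS : S.Normal) (hsol : Group.IsSolvable S)
    {A : Subgroup H} (hA : MaxA S A) : ∃ D : Subgroup H, ClD S A D := by
  have := hS
  have := hA.nor
  have hAS := hA.le
  have hab := hA.ab
  have hmax : ∀ B : Subgroup H, B.Normal → B ≤ S → (∀ a ∈ B, ∀ b ∈ B, a * b = b * a) → A ≤ B → B = A :=
    fun B h1 h2 h3 h4 => hA.max B h1 h4 h2 h3
  obtain ⟨D, ⟨hDn, hAD, hDS, hDA, hDD⟩, hDm⟩ := Set.exists_max_image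
    {D : Subgroup H | D.Normal ∧ A ≤ D ∧ D ≤ S ∧ (∀ d ∈ D, ∀ a ∈ A, d * a = a * d) ∧
      (∀ d ∈ D, ∀ e ∈ D, d * e * d⁻¹ * e⁻¹ ∈ A)} (fun D => Nat.card D) (Set.toFinite _)
    ⟨A, inferInstance, le_rfl, hAS, hab, fun d hd e he => A.mul_mem (A.mul_mem (A.mul_mem hd he) (A.inv_mem hd)) (A.inv_mem he)⟩
  have := hDn
  have hZ : D ⊓ Subgroup.centralizer (D : Set H) = A := by
    apply hmax
    · infer_instance
    · exact inf_le_left.trans hDS
    · intro a ha b hb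
      exact (Subgroup.mem_centralizer_iff.mp ha.2 b hb.1).symm
    · intro a ha
      refine Subgroup.mem_inf.mpr ⟨hAD ha, Subgroup.mem_centralizer_iff.mpr ?_⟩
      intro d hd
      exact hDA d hd a ha
  refine ⟨D, hDn, hAD, hDS, fun a ha d hd => (hDA d hd a ha).symm, hDD, ?_, ?_⟩
  · intro d hd hdd
    rw [← hZ]
    refine Subgroup.mem_inf.mpr ⟨hd, Subgroup.mem_centralizer_iff.mpr ?_⟩
    intro e he
    exact (hdd e he).symm
  intro s hs hsD
  by_contra hsA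
  set C : Subgroup H := S ⊓ Subgroup.centralizer (D : Set H) with hC
  have hCn : C.Normal := by rw [hC]; infer_instance
  have hsC : s ∈ C := by
    refine Subgroup.mem_inf.mpr ⟨hs, Subgroup.mem_centralizer_iff.mpr ?_⟩
    intro d hd
    exact (hsD d hd).symm
  have hex : ∃ n, der C n ≤ A := by
    obtain ⟨n, hn⟩ := hsol.solvable
    refine ⟨n, ?_⟩
    have h1 := exD_der_map S C inf_le_left n
    rw [hn, Subgroup.map_bot] at h1
    exact h1.trans bot_le
  classical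
  have hn0 : Nat.find hex ≠ 0 := by
    intro h0
    have := Nat.find_spec hex
    rw [h0] at this
    exact hsA (this hsC)
  obtain ⟨j, hj⟩ := Nat.exists_eq_succ_of_ne_zero hn0
  have hj1 : ¬ der C j ≤ A := Nat.find_min hex (by omega)
  have hj2 : der C (j + 1) ≤ A := by
    have := Nat.find_spec hex
    rw [hj] at this
    exact this
  have hWn : (der C j).Normal := der_normal hCn j
  have hWC : der C j ≤ C := der_le j
  have hDW : ∀ d ∈ D, ∀ w ∈ der C j, w * d = d * w := by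
    intro d hd w hw
    exact (Subgroup.mem_centralizer_iff.mp (hWC hw).2 d hd).symm
  have hle : D ⊔ der C j = D := by
    have h1 := hDm (D ⊔ der C j) ⟨inferInstance, hAD.trans le_sup_left, sup_le hDS (hWC.trans inf_le_left), ?_, ?_⟩
    · symm
      apply Subgroup.eq_of_le_of_card_ge le_sup_left
      exact h1
    · intro x hx a ha
      rw [← SetLike.mem_coe, Subgroup.normal_mul, Set.mem_mul] at hx
      obtain ⟨d, hd, w, hw, rfl⟩ := hx
      rw [mul_assoc, hDW a (hAD ha) w hw, ← mul_assoc, hDA d hd a ha, mul_assoc]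
    · apply exD_sup A D _ hDD _ hDW
      intro d hd e he
      apply hj2
      exact Subgroup.commutator_mem_commutator hd he
  apply hj1
  rw [← hZ]
  exact le_inf (hle ▸ le_sup_right) (hWC.trans inf_le_right)
-- END exD

-- BEGIN aut
private theorem aut_gen (D : Type*) [Group D] [Finite D] :
    ∃ S : Finset D, Subgroup.closure (S : Set D) = ⊤ ∧ 2 ^ S.card ≤ Nat.card D := by
  classical
  by_contra hcon
  push Not at hcon
  have key : ∀ n : ℕ, ∃ S : Finset D, S.card = n ∧ 2 ^ S.card ≤ Nat.card (Subgroup.closure (S : Set D)) := by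
    intro n
    induction n with
    | zero => exact ⟨∅, rfl, by simp⟩
    | succ n ih =>
      obtain ⟨S, hS, hc⟩ := ih
      by_cases htop : Subgroup.closure (S : Set D) = ⊤
      · have h1 := hcon S htop
        rw [htop] at hc
        have h2 : Nat.card (⊤ : Subgroup D) = Nat.card D := Subgroup.card_top
        omega
      · obtain ⟨x, hx⟩ : ∃ x : D, x ∉ Subgroup.closure (S : Set D) := by
          by_contra hall
          push Not at hall
          exact htop (eq_top_iff.2 fun y _ => hall y)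
        have hxS : x ∉ S := fun h => hx (Subgroup.subset_closure h)
        refine ⟨insert x S, by rw [Finset.card_insert_of_notMem hxS, hS], ?_⟩
        have hle : Subgroup.closure (S : Set D) ≤ Subgroup.closure ((insert x S : Finset D) : Set D) :=
          Subgroup.closure_mono (by intro y hy; exact Finset.mem_coe.2 (Finset.mem_insert_of_mem hy))
        have hxm : x ∈ Subgroup.closure ((insert x S : Finset D) : Set D) :=
          Subgroup.subset_closure (Finset.mem_coe.2 (Finset.mem_insert_self x S))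
        have hdvd := Subgroup.card_dvd_of_le hle
        obtain ⟨m, hm⟩ := hdvd
        have hpos : 0 < Nat.card (Subgroup.closure ((insert x S : Finset D) : Set D)) := Nat.card_pos
        have hm2 : 2 ≤ m := by
          rcases Nat.lt_or_ge m 2 with h | h
          · exfalso
            interval_cases m
            · omega
            · rw [mul_one] at hm
              have heq : Subgroup.closure (S : Set D) = Subgroup.closure ((insert x S : Finset D) : Set D) :=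
                Subgroup.eq_of_le_of_card_ge hle hm.le
              exact hx (heq ▸ hxm)
          · exact h
        rw [Finset.card_insert_of_notMem hxS, pow_succ, hm]
        exact Nat.mul_le_mul hc hm2
  obtain ⟨S, hS, hc⟩ := key (Nat.card D)
  have h1 : Nat.card (Subgroup.closure (S : Set D)) ≤ Nat.card D :=
    Nat.le_of_dvd Nat.card_pos (Subgroup.card_subgroup_dvd_card _)
  rw [hS] at hc
  have h2 := Nat.lt_two_pow_self (n := Nat.card D)
  omega

/-- PROOF. `D` has a generating set of at most `log_2 |D|` elements (a chain of subgroups, each step at least doubles the order), and an automorphism is determined by the images of the generators. -/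
theorem card_mulAut (D : Type*) [Group D] [Finite D] : Nat.card (MulAut D) ≤ Nat.card D ^ Nat.log 2 (Nat.card D) := by
  classical
  obtain ⟨S, hS, hc⟩ := aut_gen D
  have hinj : Function.Injective (fun (φ : MulAut D) (s : S) => φ (s : D)) := by
    intro φ ψ h
    have h1 : Set.EqOn (φ.toMonoidHom) (ψ.toMonoidHom) (S : Set D) := by
      intro s hs
      exact congrFun h ⟨s, hs⟩
    have h2 : (φ.toMonoidHom) = (ψ.toMonoidHom) := MonoidHom.eq_of_eqOn_dense hS h1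
    ext x
    exact DFunLike.congr_fun h2 x
  have h1 : Nat.card (MulAut D) ≤ Nat.card (S → D) := Nat.card_le_card_of_injective _ hinj
  have h2 : Nat.card (S → D) = Nat.card D ^ S.card := by
    rw [Nat.card_fun]
    simp
  rw [h2] at h1
  refine h1.trans (Nat.pow_le_pow_right Nat.card_pos ?_)
  exact (Nat.le_log_iff_pow_le (by norm_num) Nat.card_pos.ne').2 hc
-- END aut

-- BEGIN crS
/-- PROOF. `S` acts on `D` by conjugation (`MulAut ↥D`), the kernel is inside `A ≤ D` (`ClD.cent`); `card_mulAut`. -/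
theorem card_S {H : Type*} [Group H] [Finite H] {S A D : Subgroup H} (h : ClD S A D) :
    Nat.card S ≤ Nat.card D ^ (1 + Nat.log 2 (Nat.card D)) := by
  have hn : D.Normal := h.nor
  have hf : ∃ f : S →* MulAut D, ∀ (s : S) (x : D), ((f s x : D) : H) = (s : H) * x * (s : H)⁻¹ :=
    ⟨MulAut.conjNormal.comp S.subtype, fun s x => rfl⟩
  obtain ⟨f, hf⟩ := hf
  have h1 := Subgroup.card_mul_index f.ker
  rw [Subgroup.index_ker] at h1
  have h2 : Nat.card f.ker ≤ Nat.card D := by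
    have hm : ∀ k : f.ker, ((k : S) : H) ∈ D := by
      intro k
      refine h.le (h.cent _ (k : S).2 fun e he => ?_)
      have h3 : f (k : S) = 1 := k.2
      have h4 := hf (k : S) ⟨e, he⟩
      rw [h3] at h4
      have h5 : e = ((k : S) : H) * e * ((k : S) : H)⁻¹ := h4
      exact (eq_mul_inv_iff_mul_eq.1 h5).symm
    refine Nat.card_le_card_of_injective (fun k : f.ker => (⟨((k : S) : H), hm k⟩ : D)) ?_
    intro k k' hk
    have h3 : ((k : S) : H) = ((k' : S) : H) := congrArg (fun z : D => (z : H)) hk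
    exact Subtype.ext (Subtype.ext h3)
  have h3 : Nat.card f.range ≤ Nat.card D ^ Nat.log 2 (Nat.card D) :=
    (Nat.card_le_card_of_injective _ f.range.subtype_injective).trans (card_mulAut D)
  rw [← h1, pow_add, pow_one]
  exact Nat.mul_le_mul h2 h3
-- END crS

-- BEGIN exZ
/-- PROOF. In a group with central commutators `⁅d, e f⁆ = ⁅d, e⁆ ⁅d, f⁆` and `⁅d e, f⁆ = ⁅d, f⁆ ⁅e, f⁆`. -/
theorem exists_Z {H : Type*} [Group H] {S A D : Subgroup H} (h : ClD S A D) (K : Subgroup H) :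
    ∃ Z : Subgroup H, ∀ d, d ∈ Z ↔ d ∈ D ∧ ∀ e ∈ D, d * e * d⁻¹ * e⁻¹ ∈ K := by
  refine ⟨{ carrier := {d | d ∈ D ∧ ∀ e ∈ D, d * e * d⁻¹ * e⁻¹ ∈ K}
            mul_mem' := ?_
            one_mem' := ?_
            inv_mem' := ?_ }, fun d => Iff.rfl⟩
  · rintro d d' ⟨hd, hd1⟩ ⟨hd', hd1'⟩
    refine ⟨D.mul_mem hd hd', fun e he => ?_⟩
    have h1 : d * d' * e * (d * d')⁻¹ * e⁻¹ = d * (d' * e * d'⁻¹ * e⁻¹) * (e * d⁻¹ * e⁻¹) := by group
    have h2 := h.cen _ (h.com d' hd' e he) d hd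
    rw [h1, ← h2]
    have h3 : d' * e * d'⁻¹ * e⁻¹ * d * (e * d⁻¹ * e⁻¹) = (d' * e * d'⁻¹ * e⁻¹) * (d * e * d⁻¹ * e⁻¹) := by
      group
    rw [h3]
    exact K.mul_mem (hd1' e he) (hd1 e he)
  · refine ⟨D.one_mem, fun e _ => ?_⟩
    have h1 : (1 : H) * e * (1 : H)⁻¹ * e⁻¹ = 1 := by group
    rw [h1]
    exact K.one_mem
  · rintro d ⟨hd, hd1⟩
    refine ⟨D.inv_mem hd, fun e he => ?_⟩
    have h2 := h.cen _ (h.com d hd e he) d hd
    have h1 : d⁻¹ * e * d⁻¹⁻¹ * e⁻¹ = d⁻¹ * (d * e * d⁻¹ * e⁻¹)⁻¹ * d := by group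
    have h3 : d⁻¹ * (d * e * d⁻¹ * e⁻¹)⁻¹ * d = (d * e * d⁻¹ * e⁻¹)⁻¹ := by
      have h4 : (d * e * d⁻¹ * e⁻¹)⁻¹ * d = d * (d * e * d⁻¹ * e⁻¹)⁻¹ := by
        rw [inv_mul_eq_iff_eq_mul, ← mul_assoc, h2, mul_assoc, mul_inv_cancel, mul_one]
      rw [mul_assoc, h4, ← mul_assoc, inv_mul_cancel, one_mul]
    rw [h1, h3]
    exact K.inv_mem (hd1 e he)
-- END exZ

section

variable {H E : Type*} [Group H] [Finite H] [AddCommGroup E] [Finite E] [DistribMulAction H E]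

-- BEGIN lin
private theorem lin_core {R D : Type*} [Ring R] [Group D] (ρ : D →* R) (A K Z : Subgroup D)
    (hcen : ∀ a ∈ A, ∀ d : D, a * d = d * a) (hcom : ∀ d e : D, d * e * d⁻¹ * e⁻¹ ∈ A)
    (hinv : ∀ a ∈ A, a ∉ K → ∀ c : R, c * (ρ a - 1) = 0 → c = 0)
    (hZ : ∀ d : D, (∀ e : D, d * e * d⁻¹ * e⁻¹ ∈ K) → d ∈ Z) :
    ∀ (n : ℕ) (T : Finset D), T.card = n → (∀ t ∈ T, ∀ t' ∈ T, t ≠ t' → t * t'⁻¹ ∉ Z) →
      ∀ c : D → R, (∀ t ∈ T, ∀ d, c t * ρ d = ρ d * c t) → ∑ t ∈ T, c t * ρ t = 0 → ∀ t ∈ T, c t = 0 := by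
  classical
  have hui : ∀ (x : R) (d : D), x * ρ d = 0 → x = 0 := by
    intro x d h
    have : x * ρ d * ρ d⁻¹ = 0 := by rw [h, zero_mul]
    rwa [mul_assoc, ← map_mul, mul_inv_cancel, map_one, mul_one] at this
  intro n
  induction n with
  | zero =>
    intro T hT _ c _ _ t ht
    rw [Finset.card_eq_zero] at hT
    rw [hT] at ht
    simp at ht
  | succ n ih =>
    intro T hT hTZ c hc hsum
    have key : ∀ t₁ ∈ T, ∀ t ∈ T, t ≠ t₁ → c t = 0 := by
      intro t₁ ht₁ t ht hne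
      have hd : ∃ d : D, (d * t * d⁻¹ * t⁻¹) * (d * t₁ * d⁻¹ * t₁⁻¹)⁻¹ ∉ K := by
        by_contra hcon
        push Not at hcon
        apply hTZ t ht t₁ ht₁ hne
        apply hZ
        intro e
        have hb := hcen _ (A.inv_mem (hcom e t₁))
        have h1 : e * (t * t₁⁻¹) * e⁻¹ * (t * t₁⁻¹)⁻¹ =
            (e * t * e⁻¹ * t⁻¹) * (t * (t₁⁻¹ * (e * t₁ * e⁻¹ * t₁⁻¹)⁻¹ * t₁) * t⁻¹) := by group
        have h2 : t₁⁻¹ * (e * t₁ * e⁻¹ * t₁⁻¹)⁻¹ * t₁ = (e * t₁ * e⁻¹ * t₁⁻¹)⁻¹ := by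
          rw [← hb t₁⁻¹, inv_mul_cancel_right]
        have h3 : t * (e * t₁ * e⁻¹ * t₁⁻¹)⁻¹ * t⁻¹ = (e * t₁ * e⁻¹ * t₁⁻¹)⁻¹ := by
          rw [← hb t, mul_inv_cancel_right]
        rw [h2, h3] at h1
        have h4 : (t * t₁⁻¹) * e * (t * t₁⁻¹)⁻¹ * e⁻¹ = (e * (t * t₁⁻¹) * e⁻¹ * (t * t₁⁻¹)⁻¹)⁻¹ := by group
        rw [h4, h1]
        exact K.inv_mem (hcon e)
      obtain ⟨d, hd⟩ := hd
      have h1 : ∑ s ∈ T, c s * ρ (d * s * d⁻¹ * s⁻¹) * ρ s = 0 := by
        have h0 : ρ d * (∑ s ∈ T, c s * ρ s) * ρ d⁻¹ = 0 := by rw [hsum, mul_zero, zero_mul]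
        rw [Finset.mul_sum, Finset.sum_mul] at h0
        rw [← h0]
        apply Finset.sum_congr rfl
        intro s hs
        have e1 : d * s * d⁻¹ * s⁻¹ * s = d * s * d⁻¹ := by group
        rw [mul_assoc (c s), ← map_mul, e1, map_mul, map_mul, ← mul_assoc, ← mul_assoc, hc s hs d, mul_assoc (ρ d)]
      have h2 : ∑ s ∈ T, c s * ρ (d * t₁ * d⁻¹ * t₁⁻¹) * ρ s = 0 := by
        have h0 : ρ (d * t₁ * d⁻¹ * t₁⁻¹) * (∑ s ∈ T, c s * ρ s) = 0 := by rw [hsum, mul_zero]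
        rw [Finset.mul_sum] at h0
        rw [← h0]
        apply Finset.sum_congr rfl
        intro s hs
        rw [hc s hs, mul_assoc]
      have h3 : ∑ s ∈ T, c s * (ρ (d * s * d⁻¹ * s⁻¹) - ρ (d * t₁ * d⁻¹ * t₁⁻¹)) * ρ s = 0 := by
        have e1 : ∀ s ∈ T, c s * (ρ (d * s * d⁻¹ * s⁻¹) - ρ (d * t₁ * d⁻¹ * t₁⁻¹)) * ρ s =
            c s * ρ (d * s * d⁻¹ * s⁻¹) * ρ s - c s * ρ (d * t₁ * d⁻¹ * t₁⁻¹) * ρ s := by
          intro s _
          rw [mul_sub, sub_mul]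
        rw [Finset.sum_congr rfl e1, Finset.sum_sub_distrib, h1, h2, sub_zero]
      have h4 : ∑ s ∈ T.erase t₁, c s * (ρ (d * s * d⁻¹ * s⁻¹) - ρ (d * t₁ * d⁻¹ * t₁⁻¹)) * ρ s = 0 := by
        rw [Finset.sum_erase, h3]
        rw [sub_self, mul_zero, zero_mul]
      have h5 := ih (T.erase t₁) (by rw [Finset.card_erase_of_mem ht₁, hT]; rfl)
        (fun u hu u' hu' huu => hTZ u (Finset.mem_of_mem_erase hu) u' (Finset.mem_of_mem_erase hu') huu)
        (fun s => c s * (ρ (d * s * d⁻¹ * s⁻¹) - ρ (d * t₁ * d⁻¹ * t₁⁻¹)))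
        (by
          intro s hs e
          have e1 : (ρ (d * s * d⁻¹ * s⁻¹) - ρ (d * t₁ * d⁻¹ * t₁⁻¹)) * ρ e =
              ρ e * (ρ (d * s * d⁻¹ * s⁻¹) - ρ (d * t₁ * d⁻¹ * t₁⁻¹)) := by
            rw [sub_mul, mul_sub, ← map_mul, ← map_mul, ← map_mul, ← map_mul, hcen _ (hcom d s) e,
              hcen _ (hcom d t₁) e]
          show c s * _ * ρ e = ρ e * (c s * _)
          rw [mul_assoc, e1, ← mul_assoc, hc s (Finset.mem_of_mem_erase hs) e, mul_assoc])
        h4 t (Finset.mem_erase.2 ⟨hne, ht⟩)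
      have h6 : c t * (ρ ((d * t * d⁻¹ * t⁻¹) * (d * t₁ * d⁻¹ * t₁⁻¹)⁻¹) - 1) * ρ (d * t₁ * d⁻¹ * t₁⁻¹) = 0 := by
        have e1 : (ρ ((d * t * d⁻¹ * t⁻¹) * (d * t₁ * d⁻¹ * t₁⁻¹)⁻¹) - 1) * ρ (d * t₁ * d⁻¹ * t₁⁻¹) =
            ρ (d * t * d⁻¹ * t⁻¹) - ρ (d * t₁ * d⁻¹ * t₁⁻¹) := by
          rw [sub_mul, one_mul, ← map_mul, inv_mul_cancel_right]
        rw [mul_assoc, e1]
        exact h5
      exact hinv _ (A.mul_mem (hcom d t) (A.inv_mem (hcom d t₁))) hd _ (hui _ _ h6)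
    intro t ht
    have h1 : ∑ s ∈ T, c s * ρ s = c t * ρ t := by
      apply Finset.sum_eq_single t
      · intro s hs hst
        rw [key t ht s hs hst, zero_mul]
      · intro h
        exact absurd ht h
    rw [h1] at hsum
    exact hui _ _ hsum

private theorem lin_vs {p : ℕ} (hp : p.Prime) {D V : Type*} [Group D] [Finite D] [AddCommGroup V] [Module (ZMod p) V] [Finite V]
    [Nontrivial V] (ρ : D →* Module.End (ZMod p) V) (A K Z : Subgroup D)
    (hcen : ∀ a ∈ A, ∀ d : D, a * d = d * a) (hcom : ∀ d e : D, d * e * d⁻¹ * e⁻¹ ∈ A)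
    (hA : ∀ a ∈ A, a ∉ K → ∀ u : V, ρ a u = u → u = 0)
    (hZ : ∀ d : D, (∀ e : D, d * e * d⁻¹ * e⁻¹ ∈ K) → d ∈ Z) :
    Z.index ≤ Module.finrank (ZMod p) V ^ 2 := by
  classical
  have hfact : Fact p.Prime := ⟨hp⟩
  have hmf : Module.Finite (ZMod p) V := Module.Finite.of_finite
  have core := lin_core ρ A K Z hcen hcom
    (by
      intro a ha haK c hc
      have hinj : Function.Injective (ρ a - 1 : Module.End (ZMod p) V) := by
        rw [← LinearMap.ker_eq_bot, LinearMap.ker_eq_bot']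
        intro u hu
        have h1 : ρ a u = u := by
          rw [LinearMap.sub_apply, Module.End.one_apply, sub_eq_zero] at hu
          exact hu
        exact hA a ha haK u h1
      have hsur : Function.Surjective (ρ a - 1 : Module.End (ZMod p) V) := Finite.surjective_of_injective hinj
      apply LinearMap.ext
      intro u
      obtain ⟨v, rfl⟩ := hsur u
      have := LinearMap.congr_fun hc v
      exact this)
    hZ
  -- representatives
  have hQ : Finite (D ⧸ Z) := inferInstance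
  let _ : Fintype (D ⧸ Z) := Fintype.ofFinite _
  let τ : D ⧸ Z → D := fun q => (Quotient.out q)⁻¹
  have hτ : ∀ q q' : D ⧸ Z, q ≠ q' → τ q * (τ q')⁻¹ ∉ Z := by
    intro q q' hne hmem
    apply hne
    have h1 : (Quotient.out q)⁻¹ * Quotient.out q' ∈ Z := by
      have : τ q * (τ q')⁻¹ = (Quotient.out q)⁻¹ * Quotient.out q' := by
        show (Quotient.out q)⁻¹ * ((Quotient.out q')⁻¹)⁻¹ = _
        rw [inv_inv]
      rwa [this] at hmem
    have h2 := QuotientGroup.eq.2 h1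
    rwa [QuotientGroup.out_eq', QuotientGroup.out_eq'] at h2
  have hτi : Function.Injective τ := by
    intro q q' h
    by_contra hne
    apply hτ q q' hne
    rw [h, mul_inv_cancel]
    exact Subgroup.one_mem _
  have hli : LinearIndependent (ZMod p) (fun q : D ⧸ Z => ρ (τ q)) := by
    rw [Fintype.linearIndependent_iff]
    intro g hg
    have h1 : ∀ t ∈ (Finset.univ : Finset (D ⧸ Z)).image τ,
        (algebraMap (ZMod p) (Module.End (ZMod p) V) (Function.extend τ g 0 t)) = 0 := by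
      apply core _ _ rfl
      · intro t ht t' ht' hne
        rw [Finset.mem_image] at ht ht'
        obtain ⟨q, _, rfl⟩ := ht
        obtain ⟨q', _, rfl⟩ := ht'
        exact hτ q q' (fun h => hne (by rw [h]))
      · intro t _ d
        exact Algebra.commutes _ _
      · rw [Finset.sum_image (fun a _ b _ h => hτi h), ← hg]
        apply Finset.sum_congr rfl
        intro q _
        rw [hτi.extend_apply, ← Algebra.smul_def]
    intro q
    have h2 := h1 (τ q) (Finset.mem_image_of_mem _ (Finset.mem_univ _))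
    rw [hτi.extend_apply] at h2
    exact (map_eq_zero_iff _ (FaithfulSMul.algebraMap_injective (ZMod p) (Module.End (ZMod p) V))).1 h2
  have h1 := hli.fintype_card_le_finrank
  have h2 : Z.index = Fintype.card (D ⧸ Z) := by
    rw [Subgroup.index, Nat.card_eq_fintype_card]
  have h3 : Module.finrank (ZMod p) (Module.End (ZMod p) V) = Module.finrank (ZMod p) V * Module.finrank (ZMod p) V :=
    Module.finrank_linearMap _ _ _ _
  rw [h2, sq, ← h3]
  exact h1

private theorem lin_dma {p : ℕ} (hp : p.Prime) {D V : Type*} [Group D] [Finite D] [AddCommGroup V] [Finite V]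
    [Nontrivial V] [DistribMulAction D V] (hpV : ∀ v : V, p • v = 0) (A K Z : Subgroup D)
    (hcen : ∀ a ∈ A, ∀ d : D, a * d = d * a) (hcom : ∀ d e : D, d * e * d⁻¹ * e⁻¹ ∈ A)
    (hA : ∀ a ∈ A, a ∉ K → ∀ u : V, a • u = u → u = 0)
    (hZ : ∀ d : D, (∀ e : D, d * e * d⁻¹ * e⁻¹ ∈ K) → d ∈ Z) :
    Z.index ≤ Nat.log 2 (Nat.card V) ^ 2 := by
  have hfact : Fact p.Prime := ⟨hp⟩
  let _ : Module (ZMod p) V := AddCommGroup.zmodModule (n := p) hpV
  have hmf : Module.Finite (ZMod p) V := Module.Finite.of_finite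
  let ρ : D →* Module.End (ZMod p) V :=
    { toFun := fun d => AddMonoidHom.toZModLinearMap p (DistribSMul.toAddMonoidHom V d)
      map_one' := by
        apply LinearMap.ext
        intro u
        show (1 : D) • u = u
        exact one_smul D u
      map_mul' := fun d e => by
        apply LinearMap.ext
        intro u
        show (d * e) • u = d • e • u
        exact mul_smul d e u }
  have h1 := lin_vs hp ρ A K Z hcen hcom (fun a ha haK u hu => hA a ha haK u hu) hZ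
  have h4 : Module.finrank (ZMod p) V ≤ Nat.log 2 (Nat.card V) := by
    apply Nat.le_log_of_pow_le (by norm_num)
    have h5 : Nat.card V = Nat.card (ZMod p) ^ Module.finrank (ZMod p) V := Module.natCard_eq_pow_finrank
    rw [Nat.card_zmod] at h5
    calc 2 ^ Module.finrank (ZMod p) V ≤ p ^ Module.finrank (ZMod p) V := Nat.pow_le_pow_left hp.two_le _
      _ = Nat.card V := h5.symm
  exact h1.trans (Nat.pow_le_pow_left h4 2)

/-- PROOF. `U` is a vector space over `ZMod p`, `f = dim U ≤ log_2 |E|`; the elements of `D` act on `U`. CLAIM: let `T` be a finite set of elements of `D` in different cosets of `Z`, `c : T → End(U)` with values commuting with all elements of `D`, and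
`∑_{t ∈ T} c_t t = 0` on `U`; then all `c_t = 0`. Induction on `|T|`. Fix `t₁ ∈ T` and `t ∈ T`, `t ≠ t₁`. There is `d ∈ D` with `z = ⁅d, t⁆ ⁅d, t₁⁆⁻¹ ∉ K` (otherwise `⁅d, t t₁⁻¹⁆ ∈ K` for all `d ∈ D`: commutators are bilinear, and `t t₁⁻¹ ∈ Z`).
Conjugating the relation by `d` gives `∑ c_s ⁅d, s⁆ s = 0` (`d s d⁻¹ = ⁅d, s⁆ s`, `⁅d, s⁆ ∈ A` commutes with `D`); subtract `⁅d, t₁⁆` times the relation: `∑_{s ≠ t₁} c_s (⁅d, s⁆ - ⁅d, t₁⁆) s = 0`; by induction `c_t (⁅d, t⁆ - ⁅d, t₁⁆) = 0`, i.e.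
`c_t (z - 1) ⁅d, t₁⁆ = 0`, and `z - 1` is injective on the finite `U` (`hA`), so bijective: `c_t = 0`. Then `c_{t₁} t₁ = 0`, `c_{t₁} = 0`. So the cosets of `Z` in `D` are represented by linearly independent elements of `End(U)`, of dimension `f ^ 2`. -/
theorem lin {p : ℕ} (hp : p.Prime) (hpE : ∀ v : E, p • v = 0) (D A K Z : Subgroup H) (U : AddSubgroup E) (hUb : U ≠ ⊥)
    (hU : ∀ d ∈ D, ∀ u ∈ U, d • u ∈ U) (hKA : K ≤ A) (hAD : A ≤ D) (hcen : ∀ a ∈ A, ∀ d ∈ D, a * d = d * a)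
    (hcom : ∀ d ∈ D, ∀ e ∈ D, d * e * d⁻¹ * e⁻¹ ∈ A) (hK : ∀ k ∈ K, ∀ u ∈ U, k • u = u)
    (hA : ∀ a ∈ A, a ∉ K → ∀ u ∈ U, a • u = u → u = 0) (hZ : ∀ d, d ∈ Z ↔ d ∈ D ∧ ∀ e ∈ D, d * e * d⁻¹ * e⁻¹ ∈ K) :
    Z.relIndex D ≤ Nat.log 2 (Nat.card E) ^ 2 := by
  have hnt : Nontrivial U := (AddSubgroup.nontrivial_iff_ne_bot U).2 hUb
  let _ : DistribMulAction D U :=
    { smul := fun d u => ⟨(d : H) • (u : E), hU d d.2 u u.2⟩
      one_smul := fun u => Subtype.ext (one_smul H (u : E))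
      mul_smul := fun d e u => Subtype.ext (mul_smul (d : H) (e : H) (u : E))
      smul_zero := fun d => Subtype.ext (smul_zero (d : H))
      smul_add := fun d u v => Subtype.ext (smul_add (d : H) (u : E) (v : E)) }
  have h1 := lin_dma hp (D := D) (V := U) (fun u => Subtype.ext (by
      rw [AddSubgroup.coe_nsmul]
      exact hpE _)) (A.subgroupOf D) (K.subgroupOf D) (Z.subgroupOf D)
    (by
      intro a ha d
      exact Subtype.ext (hcen a (Subgroup.mem_subgroupOf.1 ha) d d.2))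
    (by
      intro d e
      exact Subgroup.mem_subgroupOf.2 (hcom d d.2 e e.2))
    (by
      intro a ha haK u hu
      exact Subtype.ext (hA a (Subgroup.mem_subgroupOf.1 ha) (fun h => haK (Subgroup.mem_subgroupOf.2 h)) u u.2
        (Subtype.ext_iff.1 hu)))
    (by
      intro d hd
      rw [Subgroup.mem_subgroupOf, hZ]
      exact ⟨d.2, fun e he => Subgroup.mem_subgroupOf.1 (hd ⟨e, he⟩)⟩)
  rw [Subgroup.relIndex]
  refine h1.trans (Nat.pow_le_pow_left (Nat.log_mono_right ?_) 2)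
  exact Nat.card_le_card_of_injective _ Subtype.val_injective
-- END lin

-- BEGIN crD
/-- PROOF. For `K ∈ Kk E A` let `Z_K` be as in `exists_Z`; `lin` with `U = fx E K` (`D` centralizes `A ≥ K`, so it preserves `fx E K`; `hA` of `lin`: `K` is maximal). The intersection of the `Z_K` is inside `A`: `⁅d, e⁆` is in all `K`, so it is `1` (`inf_bot`),
so `d ∈ A` (`ClD.zen`). `Subgroup.relIndex_iInf_le`. Then `|D| = |D : A| |A|` and `card_A`. -/
theorem card_D {p y : ℕ} (hp : p.Prime) (hpE : ∀ v : E, p • v = 0) (hE : Nontrivial E) (hirr : Irr H E)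
    (hf : Fth H E) {S A D : Subgroup H} (hA : MaxA S A) (hD : ClD S A D) (hpy : p ≤ y)
    (hy : ∀ q : ℕ, q.Prime → q ∣ Nat.card H → q ≤ y) :
    Nat.card D ≤ ((y ^ (2 * y) * Nat.log 2 (Nat.card E)) ^ y * Nat.log 2 (Nat.card E) ^ 2) ^ Nat.card (Kk E A) := by
  classical
  choose Z hZ using fun K : Subgroup H => exists_Z hD K
  have : Finite (Kk E A) := Subtype.finite
  let _ : Fintype (Kk E A) := Fintype.ofFinite _
  have h1 : ∀ K : Kk E A, (Z (K : Subgroup H)).relIndex D ≤ Nat.log 2 (Nat.card E) ^ 2 := by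
    intro K
    obtain ⟨hKA, hKb, hKm⟩ := K.2
    refine lin hp hpE D A (K : Subgroup H) (Z K) (fx E (K : Subgroup H)) hKb ?_ hKA hD.le hD.cen hD.com
      (fun k hk u hu => hu k hk) ?_ (hZ K)
    · intro d hd u hu k hk
      rw [← mul_smul, hD.cen k (hKA hk) d hd, mul_smul, hu k hk]
    · intro a ha haK u hu hau
      have hlt : (K : Subgroup H) < (K : Subgroup H) ⊔ Subgroup.zpowers a := by
        refine lt_of_le_of_ne le_sup_left fun hEq => haK ?_
        rw [hEq]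
        exact Subgroup.mem_sup_right (Subgroup.mem_zpowers a)
      have hle : (K : Subgroup H) ⊔ Subgroup.zpowers a ≤ A :=
        sup_le hKA (Subgroup.zpowers_le.2 ha)
      have hb := hKm _ hlt hle
      have hst : (K : Subgroup H) ⊔ Subgroup.zpowers a ≤ MulAction.stabilizer H u := by
        refine sup_le (fun k hk => ?_) (Subgroup.zpowers_le.2 ?_)
        · exact MulAction.mem_stabilizer_iff.2 (hu k hk)
        · exact MulAction.mem_stabilizer_iff.2 hau
      have hmem : u ∈ fx E ((K : Subgroup H) ⊔ Subgroup.zpowers a) := fun k hk =>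
        MulAction.mem_stabilizer_iff.1 (hst hk)
      rw [hb] at hmem
      exact (AddSubgroup.mem_bot).1 hmem
  have h2 : (⨅ K : Kk E A, Z (K : Subgroup H)) ≤ A := by
    intro d hd
    rw [Subgroup.mem_iInf] at hd
    by_cases hne : Nonempty (Kk E A)
    · obtain ⟨K0⟩ := hne
      have hdD : d ∈ D := ((hZ K0 d).1 (hd K0)).1
      refine hD.zen d hdD fun e he => ?_
      have h3 : d * e * d⁻¹ * e⁻¹ = 1 :=
        inf_bot hE hirr hf A hA.nor _ fun K hK => ((hZ K d).1 (hd ⟨K, hK⟩)).2 e he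
      have h4 : d * e = e * d := by
        have h5 : d * e * d⁻¹ * e⁻¹ = d * e * (e * d)⁻¹ := by group
        rw [h5] at h3
        exact mul_inv_eq_one.1 h3
      exact h4
    · have h3 : d = 1 := inf_bot hE hirr hf A hA.nor _ fun K hK => absurd ⟨⟨K, hK⟩⟩ hne
      rw [h3]
      exact A.one_mem
  have h3 : A.relIndex D ≤ (Nat.log 2 (Nat.card E) ^ 2) ^ Nat.card (Kk E A) := by
    have h4 : A.relIndex D ∣ (⨅ K : Kk E A, Z (K : Subgroup H)).relIndex D :=
      Subgroup.relIndex_dvd_of_le_left D h2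
    have h5 : (⨅ K : Kk E A, Z (K : Subgroup H)).relIndex D ≠ 0 := by
      have : ((⨅ K : Kk E A, Z (K : Subgroup H)).subgroupOf D).index ≠ 0 := Subgroup.index_ne_zero_of_finite
      exact this
    refine (Nat.le_of_dvd (Nat.pos_of_ne_zero h5) h4).trans ?_
    refine (Subgroup.relIndex_iInf_le _).trans ?_
    refine (Finset.prod_le_prod' fun K _ => h1 K).trans ?_
    rw [Finset.prod_const, Finset.card_univ, Nat.card_eq_fintype_card (α := Kk E A)]
  have h4 : Nat.card A * A.relIndex D = Nat.card D := by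
    have h5 := Subgroup.relIndex_mul_relIndex (⊥ : Subgroup H) A D bot_le hD.le
    rwa [Subgroup.relIndex_bot_left, Subgroup.relIndex_bot_left] at h5
  rw [← h4, mul_pow]
  exact Nat.mul_le_mul (card_A hp hpE hE hirr hf A hA.nor hA.ab hpy hy) h3
-- END crD

-- BEGIN orl
/-- PROOF. Each orbit has at most `|H|` elements. -/
theorem card_orbits : Nat.card E ≤ Nat.card H * Nat.card (MulAction.orbitRel.Quotient H E) := by
  classical
  have hfin : Finite (MulAction.orbitRel.Quotient H E) := Quotient.finite _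
  have h1 : Function.Surjective (fun x : H × MulAction.orbitRel.Quotient H E => x.1 • (x.2.out : E)) := by
    intro v
    have h2 : (Quotient.mk (MulAction.orbitRel H E) v).out ∈ MulAction.orbit H v := by
      have h3 := Quotient.mk_out (s := MulAction.orbitRel H E) v
      exact h3
    obtain ⟨g, hg⟩ := h2
    refine ⟨(g⁻¹, Quotient.mk (MulAction.orbitRel H E) v), ?_⟩
    have hg' : g • v = (Quotient.mk (MulAction.orbitRel H E) v).out := hg
    show g⁻¹ • (Quotient.mk (MulAction.orbitRel H E) v).out = v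
    rw [← hg', inv_smul_smul]
  rw [← Nat.card_prod]
  exact Nat.card_le_card_of_surjective _ h1
-- END orl

end

-- BEGIN rnk
theorem rnk_two_pow {d : ℕ} (hd : 0 < d) : 2 ^ ArithmeticFunction.cardFactors d ≤ d := by
  rw [ArithmeticFunction.cardFactors_apply]
  calc 2 ^ d.primeFactorsList.length ≤ d.primeFactorsList.prod :=
        List.pow_card_le_prod _ _ fun p hp => (Nat.prime_of_mem_primeFactorsList hp).two_le
    _ = d := Nat.prod_primeFactorsList hd.ne'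

/-- The completely multiplicative function `n ↦ r ^ Ω n`. -/
noncomputable def rnk_f (r : ℝ) : ℕ →* ℝ where
  toFun n := if n = 0 then 0 else r ^ ArithmeticFunction.cardFactors n
  map_one' := by simp
  map_mul' := by
    intro m n
    by_cases hm : m = 0
    · simp [hm]
    by_cases hn : n = 0
    · simp [hn]
    have h1 : m * n ≠ 0 := mul_ne_zero hm hn
    rw [if_neg h1, if_neg hm, if_neg hn, ArithmeticFunction.cardFactors_mul hm hn, pow_add]

/-- PROOF (Rankin). With `w ≤ 2 ^ t`, `t = log_2 w + 1`: `min w d / d ≤ min 1 (w / d) ≤ (w / d) ^ s` for `0 < s ≤ 1`; `s = 1 / t`: `w ^ s ≤ 2`, and `∑_{d smooth} d ^ (- s) ≤ ∏_{p ≤ B} (1 - p ^ (- s))⁻¹ ≤ ((1 - 2 ^ (- s))⁻¹) ^ B ≤ (2 t) ^ B`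
(`1 - 2 ^ (- s) ≥ s / 2`). Or elementary: `d = ∏ p ^ e_p`, `2 ^ (∑ e_p) ≤ d`, at most `(k + 1) ^ B` smooth `d` with `∑ e_p = k`, so the sum is at most `∑_{k} (k + 1) ^ B min 1 (2 ^ (t - k))`. -/
theorem rankin (B : ℕ) : ∃ c : ℕ, ∀ w : ℕ, 0 < w → ∀ s : Finset ℕ,
    (∀ d ∈ s, 0 < d ∧ ∀ p : ℕ, p.Prime → p ∣ d → p ≤ B) →
    ∑ d ∈ s, ((min w d : ℕ) : ℚ) / d ≤ c * (Nat.log 2 w + 1 : ℕ) ^ c := by
  refine ⟨2 ^ (B + 2), fun w hw s hs => ?_⟩
  obtain ⟨t, ht⟩ : ∃ t, t = Nat.log 2 w + 1 := ⟨_, rfl⟩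
  rw [← ht]
  have ht1 : 1 ≤ t := by omega
  have hwt : w < 2 ^ t := by
    rw [ht]
    exact Nat.lt_pow_succ_log_self (by norm_num) w
  have htR : (1 : ℝ) ≤ (t : ℝ) := by exact_mod_cast ht1
  have ht0 : (0 : ℝ) < (t : ℝ) := by linarith
  obtain ⟨r, hr⟩ : ∃ r : ℝ, r = 1 - 1 / (2 * t) := ⟨_, rfl⟩
  have h2t : (0 : ℝ) < 1 / (2 * t) := by positivity
  have h2t' : 1 / (2 * (t : ℝ)) ≤ 1 / 2 := by
    apply one_div_le_one_div_of_le (by norm_num)
    linarith
  have hr0 : 1 / 2 ≤ r := by rw [hr]; linarith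
  have hr1 : r < 1 := by rw [hr]; linarith
  have hrp : 0 ≤ r := by linarith
  have hrt : 1 / 2 ≤ r ^ t := by
    have h := one_add_mul_le_pow (a := -(1 / (2 * (t : ℝ)))) (by linarith) t
    have h3 : (1 : ℝ) + (t : ℝ) * (-(1 / (2 * (t : ℝ)))) = 1 / 2 := by
      field_simp
      ring
    have h4 : (1 + -(1 / (2 * (t : ℝ)))) = r := by rw [hr]; ring
    rw [h3, h4] at h
    exact h
  have hfp : ∀ {p : ℕ}, p.Prime → ‖rnk_f r p‖ < 1 := by
    intro p hp
    have h1 : rnk_f r p = r := by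
      show (if p = 0 then (0 : ℝ) else r ^ ArithmeticFunction.cardFactors p) = r
      rw [if_neg hp.ne_zero, ArithmeticFunction.cardFactors_apply_prime hp, pow_one]
    rw [h1, Real.norm_eq_abs, abs_of_nonneg hrp]
    exact hr1
  obtain ⟨-, h2⟩ := EulerProduct.summable_and_hasSum_smoothNumbers_prod_primesBelow_geometric (f := rnk_f r) hfp (B + 1)
  have h3 : ∏ p ∈ (B + 1).primesBelow, (1 - rnk_f r p)⁻¹ ≤ (2 * (t : ℝ)) ^ (B + 1) := by
    have h5 : ∏ p ∈ (B + 1).primesBelow, (1 - rnk_f r p)⁻¹ = (2 * (t : ℝ)) ^ (B + 1).primesBelow.card := by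
      rw [← Finset.prod_const]
      refine Finset.prod_congr rfl fun p hp => ?_
      have hp' := Nat.prime_of_mem_primesBelow hp
      have h1 : rnk_f r p = r := by
        show (if p = 0 then (0 : ℝ) else r ^ ArithmeticFunction.cardFactors p) = r
        rw [if_neg hp'.ne_zero, ArithmeticFunction.cardFactors_apply_prime hp', pow_one]
      rw [h1, hr]
      have : (1 : ℝ) - (1 - 1 / (2 * t)) = 1 / (2 * t) := by ring
      rw [this, one_div, inv_inv]
    rw [h5]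
    refine pow_le_pow_right₀ (by linarith) ?_
    calc (B + 1).primesBelow.card ≤ (Finset.range (B + 1)).card := Finset.card_le_card (Finset.filter_subset _ _)
      _ = B + 1 := Finset.card_range _
  have hmem : ∀ d ∈ s, d ∈ (B + 1).smoothNumbers := by
    intro d hd
    rw [Nat.mem_smoothNumbers']
    intro p hp hpd
    have := (hs d hd).2 p hp hpd
    omega
  have hnn : ∀ n : ℕ, 0 ≤ rnk_f r n := by
    intro n
    show 0 ≤ (if n = 0 then (0 : ℝ) else r ^ ArithmeticFunction.cardFactors n)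
    split_ifs
    · exact le_rfl
    · positivity
  have h4 : ∑ d ∈ s, rnk_f r d ≤ (2 * (t : ℝ)) ^ (B + 1) := by
    classical
    refine le_trans ?_ h3
    have h6 := sum_le_hasSum (s.subtype (· ∈ (B + 1).smoothNumbers)) (fun i _ => hnn i) h2
    rw [Finset.sum_subtype_of_mem (fun n => rnk_f r n) hmem] at h6
    exact h6
  have h5 : ∀ d ∈ s, ((min w d : ℕ) : ℝ) / d ≤ 2 * rnk_f r d := by
    intro d hd
    have hd0 := (hs d hd).1
    have hdR : (0 : ℝ) < d := by exact_mod_cast hd0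
    have hfd : rnk_f r d = r ^ ArithmeticFunction.cardFactors d := if_neg hd0.ne'
    rw [hfd]
    have h2k := rnk_two_pow hd0
    obtain ⟨k, hk⟩ : ∃ k, k = ArithmeticFunction.cardFactors d := ⟨_, rfl⟩
    rw [← hk] at h2k ⊢
    rcases le_total k t with h | h
    · have h7 : r ^ t ≤ r ^ k := pow_le_pow_of_le_one hrp hr1.le h
      have h8 : ((min w d : ℕ) : ℝ) / d ≤ 1 := by
        rw [div_le_one hdR]
        exact_mod_cast min_le_right w d
      linarith
    · obtain ⟨j, rfl⟩ := Nat.exists_eq_add_of_le h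
      have h9 : (1 / 2 : ℝ) ^ j ≤ r ^ j := pow_le_pow_left₀ (by norm_num) hr0 j
      have h10 : ((min w d : ℕ) : ℝ) / d ≤ (1 / 2 : ℝ) ^ j := by
        rw [div_le_iff₀ hdR]
        have h11 : ((min w d : ℕ) : ℝ) ≤ 2 ^ t := by
          have : min w d ≤ 2 ^ t := (min_le_left w d).trans hwt.le
          exact_mod_cast this
        have h12 : (2 : ℝ) ^ (t + j) ≤ d := by exact_mod_cast h2k
        have h13 : (1 / 2 : ℝ) ^ j * 2 ^ (t + j) = 2 ^ t := by
          rw [pow_add, one_div, inv_pow]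
          field_simp
        calc ((min w d : ℕ) : ℝ) ≤ 2 ^ t := h11
          _ = (1 / 2 : ℝ) ^ j * 2 ^ (t + j) := h13.symm
          _ ≤ (1 / 2 : ℝ) ^ j * d := by gcongr
      have h14 : (1 / 2) * (1 / 2 : ℝ) ^ j ≤ r ^ (t + j) := by
        rw [pow_add]
        exact mul_le_mul hrt h9 (by positivity) (by positivity)
      linarith
  have h6 : ∑ d ∈ s, ((min w d : ℕ) : ℝ) / d ≤ (2 ^ (B + 2) : ℕ) * (t : ℝ) ^ (2 ^ (B + 2)) := by
    calc ∑ d ∈ s, ((min w d : ℕ) : ℝ) / d ≤ ∑ d ∈ s, 2 * rnk_f r d := Finset.sum_le_sum h5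
      _ = 2 * ∑ d ∈ s, rnk_f r d := by rw [Finset.mul_sum]
      _ ≤ 2 * (2 * (t : ℝ)) ^ (B + 1) := by linarith
      _ = 2 ^ (B + 2) * (t : ℝ) ^ (B + 1) := by rw [mul_pow]; ring
      _ ≤ 2 ^ (B + 2) * (t : ℝ) ^ (2 ^ (B + 2)) := by
        have h7 : B + 1 ≤ 2 ^ (B + 2) := by
          have := Nat.lt_two_pow_self (n := B + 2)
          omega
        have h8 : (t : ℝ) ^ (B + 1) ≤ (t : ℝ) ^ (2 ^ (B + 2)) := pow_le_pow_right₀ htR h7
        gcongr
      _ = _ := by push_cast; rfl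
  have h7 : ((∑ d ∈ s, ((min w d : ℕ) : ℚ) / d : ℚ) : ℝ) ≤ (((2 ^ (B + 2) : ℕ) * (t : ℚ) ^ (2 ^ (B + 2)) : ℚ) : ℝ) := by
    push_cast
    push_cast at h6
    exact h6
  exact_mod_cast h7
-- END rnk

-- BEGIN grw
theorem grw_poly (K : ℕ) : ∃ Q : ℕ, ∀ q : ℕ, Q ≤ q → K * (q + 2) ^ 4 + 1 < 2 ^ q := by
  have h : Filter.Tendsto (fun n : ℕ => (n : ℝ) ^ 5 / (2 : ℝ) ^ n) Filter.atTop (nhds 0) :=
    tendsto_pow_const_div_const_pow_of_one_lt 5 (by norm_num)
  have h1 := (h.eventually (gt_mem_nhds (show (0 : ℝ) < 1 by norm_num))).exists_forall_of_atTop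
  obtain ⟨N, hN⟩ := h1
  refine ⟨N + 81 * K + 82, fun q hq => ?_⟩
  have h2 := hN q (by omega)
  have h3 : (q : ℝ) ^ 5 < 2 ^ q := by
    have : (0 : ℝ) < (2 : ℝ) ^ q := by positivity
    rw [div_lt_one this] at h2
    exact h2
  have h4 : q ^ 5 < 2 ^ q := by exact_mod_cast h3
  have h5 : (q + 2) ^ 4 ≤ 81 * q ^ 4 := by
    have : q + 2 ≤ 3 * q := by omega
    calc (q + 2) ^ 4 ≤ (3 * q) ^ 4 := Nat.pow_le_pow_left this 4
      _ = 81 * q ^ 4 := by ring
  have h6 : K * (q + 2) ^ 4 + 1 ≤ (81 * K + 1) * q ^ 4 := by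
    have h7 : 1 ≤ q ^ 4 := Nat.one_le_pow _ _ (by omega)
    calc K * (q + 2) ^ 4 + 1 ≤ K * (81 * q ^ 4) + q ^ 4 := Nat.add_le_add (Nat.mul_le_mul_left _ h5) h7
      _ = (81 * K + 1) * q ^ 4 := by ring
  calc K * (q + 2) ^ 4 + 1 ≤ (81 * K + 1) * q ^ 4 := h6
    _ ≤ q * q ^ 4 := Nat.mul_le_mul_right _ (by omega)
    _ = q ^ 5 := by ring
    _ < 2 ^ q := h4

/-- PROOF. `x = log_2 w`. From the first hypothesis `m ≤ Y (1 + log_2 (2 n)) ...= O(log x)`, so `log_2 (Dd) = m * O(log x) = O((log x) ^ 2)`, and the last hypothesis gives `x ≤ log_2 C₀ + (2 + log_2 Dd) ^ 2 + log_2 n + ... = O((log x) ^ 4)`, so `x` is bounded. -/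
theorem grow (y Y C₀ c : ℕ) : ∃ W : ℕ, ∀ w m n d : ℕ, n ≤ c * (Nat.log 2 w + 1) ^ c → 2 ^ (m / Y) ≤ 2 * n → 0 < Y →
    d ≤ ((y ^ (2 * y) * Nat.log 2 w) ^ y * Nat.log 2 w ^ 2) ^ m → w ≤ C₀ * d ^ (1 + Nat.log 2 d) * n → w ≤ W := by
  obtain ⟨K1, hK1⟩ : ∃ K1, K1 = ((y ^ (2 * y) + 1) * y + 2) * (Y * (c + 2)) := ⟨_, rfl⟩
  obtain ⟨Q, hQ⟩ := grw_poly (C₀ + K1 * (1 + K1) + c)
  refine ⟨2 ^ 2 ^ Q, fun w m n d h1 h2 hY h3 h4 => ?_⟩
  obtain ⟨x, hx⟩ : ∃ x, x = Nat.log 2 w := ⟨_, rfl⟩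
  rw [← hx] at h1 h3
  obtain ⟨q, hq⟩ : ∃ q, q = Nat.log 2 (x + 1) := ⟨_, rfl⟩
  have hx1 : x + 1 < 2 ^ (q + 1) := by
    rw [hq]
    exact Nat.lt_pow_succ_log_self (by norm_num) _
  have hx2 : 2 ^ q ≤ x + 1 := by
    rw [hq]
    exact Nat.pow_log_le_self 2 (by omega)
  -- the bound for n
  have hn : n ≤ 2 ^ (c * (q + 2)) := by
    calc n ≤ c * (x + 1) ^ c := h1
      _ ≤ 2 ^ c * (2 ^ (q + 1)) ^ c := Nat.mul_le_mul (Nat.lt_two_pow_self).le (Nat.pow_le_pow_left hx1.le c)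
      _ = 2 ^ (c * (q + 2)) := by
        rw [← pow_mul, ← pow_add]
        congr 1
        ring
  have hm : m ≤ (Y * (c + 2)) * (q + 2) := by
    have h5 : 2 ^ (m / Y) ≤ 2 ^ (c * (q + 2) + 1) := by
      calc 2 ^ (m / Y) ≤ 2 * n := h2
        _ ≤ 2 * 2 ^ (c * (q + 2)) := Nat.mul_le_mul_left _ hn
        _ = 2 ^ (c * (q + 2) + 1) := by rw [pow_succ]; ring
    have h6 : m / Y ≤ c * (q + 2) + 1 := (Nat.pow_le_pow_iff_right (by norm_num)).1 h5
    have h7 : m < Y * (m / Y + 1) := Nat.lt_mul_div_succ m hY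
    calc m ≤ Y * (m / Y + 1) := h7.le
      _ ≤ Y * (c * (q + 2) + 1 + 1) := Nat.mul_le_mul_left _ (by omega)
      _ ≤ Y * ((c + 2) * (q + 2)) := Nat.mul_le_mul_left _ (by nlinarith)
      _ = (Y * (c + 2)) * (q + 2) := by ring
  have hd : d ≤ 2 ^ (K1 * (q + 2) ^ 2) := by
    have h5 : (y ^ (2 * y) * x) ^ y * x ^ 2 ≤ 2 ^ (((y ^ (2 * y) + 1) * y + 2) * (q + 2)) := by
      have h6 : y ^ (2 * y) * x ≤ 2 ^ (y ^ (2 * y) + (q + 1)) := by
        rw [pow_add]
        exact Nat.mul_le_mul (Nat.lt_two_pow_self).le (by omega)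
      have h7 : x ≤ 2 ^ (q + 1) := by omega
      calc (y ^ (2 * y) * x) ^ y * x ^ 2 ≤ (2 ^ (y ^ (2 * y) + (q + 1))) ^ y * (2 ^ (q + 1)) ^ 2 :=
            Nat.mul_le_mul (Nat.pow_le_pow_left h6 y) (Nat.pow_le_pow_left h7 2)
        _ = 2 ^ ((y ^ (2 * y) + (q + 1)) * y + (q + 1) * 2) := by
          rw [← pow_mul, ← pow_mul, ← pow_add]
        _ ≤ 2 ^ (((y ^ (2 * y) + 1) * y + 2) * (q + 2)) := by
          refine Nat.pow_le_pow_right (by norm_num) ?_
          have h8 : y ^ (2 * y) + (q + 1) ≤ (y ^ (2 * y) + 1) * (q + 2) := by nlinarith [Nat.zero_le (y ^ (2 * y) * q), Nat.zero_le (y ^ (2 * y))]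
          calc (y ^ (2 * y) + (q + 1)) * y + (q + 1) * 2 ≤ ((y ^ (2 * y) + 1) * (q + 2)) * y + (q + 2) * 2 :=
                Nat.add_le_add (Nat.mul_le_mul_right _ h8) (by omega)
            _ = ((y ^ (2 * y) + 1) * y + 2) * (q + 2) := by ring
    calc d ≤ ((y ^ (2 * y) * x) ^ y * x ^ 2) ^ m := h3
      _ ≤ (2 ^ (((y ^ (2 * y) + 1) * y + 2) * (q + 2))) ^ m := Nat.pow_le_pow_left h5 m
      _ = 2 ^ (((y ^ (2 * y) + 1) * y + 2) * (q + 2) * m) := by rw [← pow_mul]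
      _ ≤ 2 ^ (K1 * (q + 2) ^ 2) := by
        refine Nat.pow_le_pow_right (by norm_num) ?_
        calc ((y ^ (2 * y) + 1) * y + 2) * (q + 2) * m ≤ ((y ^ (2 * y) + 1) * y + 2) * (q + 2) * ((Y * (c + 2)) * (q + 2)) :=
              Nat.mul_le_mul_left _ hm
          _ = K1 * (q + 2) ^ 2 := by rw [hK1]; ring
  have hld : Nat.log 2 d ≤ K1 * (q + 2) ^ 2 := by
    calc Nat.log 2 d ≤ Nat.log 2 (2 ^ (K1 * (q + 2) ^ 2)) := Nat.log_mono_right hd
      _ = K1 * (q + 2) ^ 2 := Nat.log_pow (by norm_num) _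
  have hw : w ≤ 2 ^ ((C₀ + K1 * (1 + K1) + c) * (q + 2) ^ 4) := by
    have h5 : d ^ (1 + Nat.log 2 d) ≤ 2 ^ (K1 * (q + 2) ^ 2 * (1 + K1 * (q + 2) ^ 2)) := by
      calc d ^ (1 + Nat.log 2 d) ≤ (2 ^ (K1 * (q + 2) ^ 2)) ^ (1 + Nat.log 2 d) := Nat.pow_le_pow_left hd _
        _ ≤ (2 ^ (K1 * (q + 2) ^ 2)) ^ (1 + K1 * (q + 2) ^ 2) :=
          Nat.pow_le_pow_right (by positivity) (by omega)
        _ = _ := by rw [← pow_mul]
    calc w ≤ C₀ * d ^ (1 + Nat.log 2 d) * n := h4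
      _ ≤ 2 ^ C₀ * 2 ^ (K1 * (q + 2) ^ 2 * (1 + K1 * (q + 2) ^ 2)) * 2 ^ (c * (q + 2)) :=
        Nat.mul_le_mul (Nat.mul_le_mul (Nat.lt_two_pow_self).le h5) hn
      _ = 2 ^ (C₀ + K1 * (q + 2) ^ 2 * (1 + K1 * (q + 2) ^ 2) + c * (q + 2)) := by rw [← pow_add, ← pow_add]
      _ ≤ 2 ^ ((C₀ + K1 * (1 + K1) + c) * (q + 2) ^ 4) := by
        refine Nat.pow_le_pow_right (by norm_num) ?_
        obtain ⟨s, hs⟩ : ∃ s, s = q + 2 := ⟨_, rfl⟩
        rw [← hs]
        have hs1 : 1 ≤ s := by omega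
        have e1 : 1 ≤ s ^ 4 := Nat.one_le_pow _ _ hs1
        have e2 : s ^ 2 ≤ s ^ 4 := Nat.pow_le_pow_right hs1 (by norm_num)
        have e3 : s ≤ s ^ 4 := by
          calc s = s ^ 1 := (pow_one s).symm
            _ ≤ s ^ 4 := Nat.pow_le_pow_right hs1 (by norm_num)
        calc C₀ + K1 * s ^ 2 * (1 + K1 * s ^ 2) + c * s = C₀ + (K1 * s ^ 2 + K1 * K1 * s ^ 4) + c * s := by ring
          _ ≤ C₀ * s ^ 4 + (K1 * s ^ 4 + K1 * K1 * s ^ 4) + c * s ^ 4 := by
            refine Nat.add_le_add (Nat.add_le_add ?_ (Nat.add_le_add (Nat.mul_le_mul_left _ e2) le_rfl)) (Nat.mul_le_mul_left _ e3)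
            calc C₀ = C₀ * 1 := (mul_one _).symm
              _ ≤ C₀ * s ^ 4 := Nat.mul_le_mul_left _ e1
          _ = (C₀ + K1 * (1 + K1) + c) * s ^ 4 := by ring
  have hxb : x ≤ (C₀ + K1 * (1 + K1) + c) * (q + 2) ^ 4 := by
    rw [hx]
    calc Nat.log 2 w ≤ Nat.log 2 (2 ^ ((C₀ + K1 * (1 + K1) + c) * (q + 2) ^ 4)) := Nat.log_mono_right hw
      _ = _ := Nat.log_pow (by norm_num) _
  have hqQ : q < Q := by
    by_contra hcon
    have h5 := hQ q (by omega)
    omega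
  have hxQ : x + 1 ≤ 2 ^ Q := by
    calc x + 1 ≤ 2 ^ (q + 1) := hx1.le
      _ ≤ 2 ^ Q := Nat.pow_le_pow_right (by norm_num) (by omega)
  calc w ≤ 2 ^ (x + 1) := by
        rw [hx]
        exact (Nat.lt_pow_succ_log_self (by norm_num) w).le
    _ ≤ 2 ^ 2 ^ Q := Nat.pow_le_pow_right (by norm_num) hxQ
-- END grw

end Pool.Agent.Fah
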