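import Pool.Agent.Fah.Defs

/-!
# The nilpotent part
-/

set_option autoImplicit false

namespace Pool.Agent.Fah

open Pool.Agent.Bdt (der cj mem_cj cj_one cj_mul)

-- BEGIN cqr
private theorem cqr_fib {α β : Type*} [Finite α] [Finite β] (f : α → β) (c : ℕ)
    (h : ∀ b, Nat.card {a // f a = b} ≤ c) : Nat.card α ≤ Nat.card β * c := by
  classical
  have := Fintype.ofFinite β
  rw [Nat.card_congr (Equiv.sigmaFiberEquiv f).symm, Nat.card_sigma]
  refine (Finset.sum_le_card_nsmul _ _ c (fun b _ => h b)).trans ?_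
  rw [Finset.card_univ, smul_eq_mul, Nat.card_eq_fintype_card]

/-- PROOF. `{k : F | ⁅x, k⁆ ∈ N}` maps onto the centralizer of `x` in `F / N`; it acts on the coset `x N` by conjugation; compare `Pool/Agent/Bdt` row `cq`: the number of the `m ∈ M`, modulo `N`, that commute with `x` modulo `N` is at most
`|C_F(x)|`. (E.g. from `|C_(F/N)(xN)| ≤ |C_F(x)|`: `F`-classes: `|x^F| ≤ |N| |(xN)^(F/N)|`.) -/
theorem cent_sec {F : Type*} [Group F] [Finite F] (x : F) (M N T : Subgroup F) [N.Normal] (hNM : N ≤ M) (hNT : N ≤ T)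
    (hT : ∀ t, t ∈ T ↔ t ∈ M ∧ x * t * x⁻¹ * t⁻¹ ∈ N) : N.relIndex T ≤ Nat.card (Subgroup.centralizer {x}) := by
  let f : T → N := fun t => ⟨x * t.1 * x⁻¹ * t.1⁻¹, ((hT t.1).1 t.2).2⟩
  have h1 : Nat.card T ≤ Nat.card N * Nat.card (Subgroup.centralizer {x}) := by
    refine cqr_fib f _ fun b => ?_
    by_cases hb : Nonempty {a // f a = b}
    · obtain ⟨s, hs⟩ := hb
      have key : ∀ t, f t = b → s.1⁻¹ * t.1 ∈ Subgroup.centralizer {x} := by
        intro t ht
        have h2 : x * t.1 * x⁻¹ * t.1⁻¹ = x * s.1 * x⁻¹ * s.1⁻¹ := congrArg Subtype.val (ht.trans hs.symm)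
        rw [Subgroup.mem_centralizer_singleton_iff]
        have h3 : t.1 * x⁻¹ * t.1⁻¹ = s.1 * x⁻¹ * s.1⁻¹ := by
          have h4 : x * (t.1 * x⁻¹ * t.1⁻¹) = x * (s.1 * x⁻¹ * s.1⁻¹) := by
            simpa only [mul_assoc] using h2
          exact mul_left_cancel h4
        have h5 : t.1 * x * t.1⁻¹ = s.1 * x * s.1⁻¹ := by
          have h6 := congrArg (fun y => y⁻¹) h3
          simpa only [mul_inv_rev, inv_inv, mul_assoc] using h6
        calc s.1⁻¹ * t.1 * x = s.1⁻¹ * (t.1 * x * t.1⁻¹) * t.1 := by group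
          _ = s.1⁻¹ * (s.1 * x * s.1⁻¹) * t.1 := by rw [h5]
          _ = x * (s.1⁻¹ * t.1) := by group
      refine Nat.card_le_card_of_injective (fun t : {a // f a = b} =>
        (⟨s.1⁻¹ * t.1.1, key t.1 t.2⟩ : Subgroup.centralizer {x})) ?_
      rintro ⟨⟨t, ht⟩, ht'⟩ ⟨⟨u, hu⟩, hu'⟩ h
      have h2 : s.1⁻¹ * t = s.1⁻¹ * u := congrArg Subtype.val h
      have h3 : t = u := mul_left_cancel h2
      subst h3
      rfl
    · rw [not_nonempty_iff] at hb
      rw [Nat.card_of_isEmpty]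
      exact Nat.zero_le _
  have h2 : Nat.card N * N.relIndex T = Nat.card T := by
    rw [Subgroup.relIndex, ← Subgroup.card_mul_index (N.subgroupOf T),
      Nat.card_congr (Subgroup.subgroupOfEquivOfLe hNT).toEquiv]
  rw [← h2] at h1
  exact Nat.le_of_mul_le_mul_left h1 Nat.card_pos
-- END cqr

-- BEGIN jor
private theorem jor_ker {E : Type*} [AddCommGroup E] [Finite E] (u : AddMonoid.End E) (j : ℕ) :
    Nat.card {v : E // (u ^ j) v = 0} ≤ Nat.card {v : E // u v = 0} ^ j := by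
  induction j with
  | zero =>
    rw [pow_zero, pow_zero]
    have : Subsingleton {v : E // (1 : AddMonoid.End E) v = 0} :=
      ⟨fun a b => Subtype.ext (a.2.trans b.2.symm)⟩
    exact Finite.card_le_one_iff_subsingleton.2 this
  | succ j ih =>
    -- a section of `u`
    have hs : ∀ w : E, ∃ s : E, (∃ v, u v = w) → u s = w := by
      intro w
      by_cases h : ∃ v, u v = w
      · obtain ⟨v, hv⟩ := h
        exact ⟨v, fun _ => hv⟩
      · exact ⟨0, fun h' => absurd h' h⟩
    choose s hs using hs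
    have hmem : ∀ v : E, (u ^ (j + 1)) v = 0 → (u ^ j) (u v) = 0 := by
      intro v hv
      rw [pow_succ] at hv
      exact hv
    have hker : ∀ v : E, u (v - s (u v)) = 0 := by
      intro v
      rw [map_sub, hs (u v) ⟨v, rfl⟩, sub_self]
    let F : {v : E // (u ^ (j + 1)) v = 0} → {v : E // (u ^ j) v = 0} × {v : E // u v = 0} :=
      fun v => (⟨u v.1, hmem v.1 v.2⟩, ⟨v.1 - s (u v.1), hker v.1⟩)
    have hF : Function.Injective F := by
      intro a b hab
      have h1 : u a.1 = u b.1 := congrArg (fun q => (q.1 : E)) hab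
      have h2 : a.1 - s (u a.1) = b.1 - s (u b.1) := congrArg (fun q => (q.2 : E)) hab
      rw [h1] at h2
      exact Subtype.ext (sub_left_injective h2)
    calc Nat.card {v : E // (u ^ (j + 1)) v = 0}
        ≤ Nat.card ({v : E // (u ^ j) v = 0} × {v : E // u v = 0}) :=
          Nat.card_le_card_of_injective F hF
      _ = Nat.card {v : E // (u ^ j) v = 0} * Nat.card {v : E // u v = 0} := Nat.card_prod _ _
      _ ≤ Nat.card {v : E // u v = 0} ^ j * Nat.card {v : E // u v = 0} :=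
          Nat.mul_le_mul_right _ ih
      _ = Nat.card {v : E // u v = 0} ^ (j + 1) := (pow_succ _ _).symm

private theorem jor_nil {E : Type*} [AddCommGroup E] [Nontrivial E] {p : ℕ} (hp : p.Prime)
    (hpE : ∀ v : E, p • v = 0) (x : AddMonoid.End E) {n N : ℕ} (hn : 0 < n) (hxn : x ^ n = 1)
    (hnil : (x - 1) ^ N = 0) : (x - 1) ^ n = 0 := by
  have : Fact p.Prime := ⟨hp⟩
  have : Nontrivial (AddMonoid.End E) := by
    obtain ⟨v, hv⟩ := exists_ne (0 : E)
    refine ⟨⟨0, 1, fun h => hv ?_⟩⟩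
    have := congrArg (fun f : AddMonoid.End E => f v) h
    exact this.symm
  have : CharP (AddMonoid.End E) p := by
    rw [CharP.charP_iff_prime_eq_zero hp]
    ext v
    rw [← nsmul_one]
    exact hpE v
  -- `x ^ (p ^ N) = 1`
  have h1 : x ^ (p ^ N) = 1 := by
    have h2 := sub_pow_char_pow_of_commute (p := p) (n := N) (Commute.one_right x)
    have h3 : (x - 1) ^ (p ^ N) = 0 := by
      obtain ⟨d, hd⟩ := Nat.exists_eq_add_of_le (Nat.lt_pow_self hp.one_lt : N < p ^ N).le
      rw [hd, pow_add, hnil, zero_mul]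
    rw [h3, one_pow] at h2
    exact (sub_eq_zero.1 h2.symm)
  obtain ⟨b, -, hb⟩ := (Nat.dvd_prime_pow hp).1 (orderOf_dvd_of_pow_eq_one h1)
  have hbn : p ^ b ≤ n := by
    rw [← hb]
    exact Nat.le_of_dvd hn (orderOf_dvd_of_pow_eq_one hxn)
  have h4 : (x - 1) ^ (p ^ b) = 0 := by
    rw [sub_pow_char_pow_of_commute (p := p) (n := b) (Commute.one_right x), one_pow, ← hb,
      pow_orderOf_eq_one, sub_self]
  obtain ⟨d, hd⟩ := Nat.exists_eq_add_of_le hbn
  rw [hd, pow_add, h4, zero_mul]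

/-- PROOF (linear algebra over `ZMod p`). `E` is a vector space over `ZMod p` (`AddCommGroup.zmodModule`), `x` an automorphism with `x ^ n = 1`, `u = x - 1` nilpotent. The minimal polynomial of `x` divides `(X - 1) ^ N` for some `N` and `X ^ n - 1`, so it is
`(X - 1) ^ k` with `k ≤ n`, so `u ^ k = 0` with `k ≤ n`; and `|ker (u ^ (j + 1))| ≤ |ker u| |ker (u ^ j)|`. -/
theorem jordan {E : Type*} [AddCommGroup E] [Finite E] {p : ℕ} (hp : p.Prime) (hpE : ∀ v : E, p • v = 0)
    (x : E →+ E) {n N : ℕ} (hn : 0 < n) (hxn : ∀ v, (⇑x)^[n] v = v) (hnil : ∀ v, (⇑(x - AddMonoidHom.id E))^[N] v = 0) :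
    Nat.card E ≤ Nat.card {v : E // x v = v} ^ n := by
  rcases subsingleton_or_nontrivial E with hE | hE
  · have h1 : Nat.card E ≤ 1 := Finite.card_le_one_iff_subsingleton.2 hE
    have : Nonempty {v : E // x v = v} := ⟨⟨0, map_zero x⟩⟩
    exact h1.trans (Nat.one_le_pow _ _ Nat.card_pos)
  let y : AddMonoid.End E := x
  have h1 : y ^ n = 1 := by
    ext v
    exact hxn v
  have h2 : (y - 1) ^ N = 0 := by
    ext v
    exact hnil v
  have h3 := jor_nil hp hpE y hn h1 h2
  have h4 := jor_ker (y - 1) n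
  rw [h3] at h4
  have h5 : Nat.card E ≤ Nat.card {v : E // (0 : AddMonoid.End E) v = 0} :=
    Nat.card_le_card_of_injective (fun v => ⟨v, rfl⟩) fun a b hab => congrArg Subtype.val hab
  have h6 : Nat.card {v : E // (y - 1) v = 0} = Nat.card {v : E // x v = v} := by
    refine Nat.card_congr (Equiv.subtypeEquivRight fun v => ?_)
    show x v - v = 0 ↔ x v = v
    exact sub_eq_zero
  rw [h6] at h4
  exact h5.trans h4
-- END jor

-- BEGIN sel
/-- The subgroup of the elements of `M` that commute with `x` modulo `N`. -/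
def sel_T {F : Type*} [Group F] (x : F) (M N : Subgroup F) [N.Normal] : Subgroup F :=
  M ⊓ (Subgroup.centralizer {(QuotientGroup.mk' N x)}).comap (QuotientGroup.mk' N)

theorem sel_mem_T {F : Type*} [Group F] (x : F) (M N : Subgroup F) [N.Normal] (t : F) :
    t ∈ sel_T x M N ↔ t ∈ M ∧ x * t * x⁻¹ * t⁻¹ ∈ N := by
  rw [sel_T, Subgroup.mem_inf, Subgroup.mem_comap, Subgroup.mem_centralizer_singleton_iff]
  refine and_congr_right fun _ => ?_
  rw [← QuotientGroup.eq_one_iff (N := N) (x * t * x⁻¹ * t⁻¹)]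
  show (QuotientGroup.mk' N t) * (QuotientGroup.mk' N x) = (QuotientGroup.mk' N x) * (QuotientGroup.mk' N t) ↔
    QuotientGroup.mk' N (x * t * x⁻¹ * t⁻¹) = 1
  rw [map_mul, map_mul, map_mul, map_inv, map_inv]
  constructor
  · intro h
    rw [← h]
    group
  · intro h
    have h2 := mul_inv_eq_one.1 h
    have h3 := mul_inv_eq_iff_eq_mul.1 h2
    exact h3.symm

open scoped commutatorElement in
theorem sel_step {F : Type*} [Group F] {k : ℕ} {m x : F} (hm : m ∈ (⊤ : Subgroup F).lowerCentralSeries k) :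
    x * m * x⁻¹ * m⁻¹ ∈ (⊤ : Subgroup F).lowerCentralSeries (k + 1) := by
  rw [Subgroup.lowerCentralSeries_succ]
  have h2 : x * m * x⁻¹ * m⁻¹ = ⁅m, x⁆⁻¹ := by
    rw [commutatorElement_inv, commutatorElement_def]
  rw [h2]
  exact Subgroup.inv_mem _ (Subgroup.commutator_mem_commutator hm (Subgroup.mem_top x))

/-- PROOF. Apply `jordan` to `E = M / N` (a finite elementary abelian group: `Additive (M ⧸ N.subgroupOf M)`), `x` = conjugation with `x`, `n = orderOf x ≤ |C_F(x)| ≤ Y`; `u = x - 1` is `m ↦ ⁅x, m⁆`, nilpotent since `F` is nilpotent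
(lower central series); the fixed points are `T / N` with `T` as in `cent_sec` (a subgroup since `M / N` is abelian). -/
theorem sec_el {F : Type*} [Group F] [Finite F] (hF : Group.IsNilpotent F) {p : ℕ} (hp : p.Prime) (x : F) {Y : ℕ}
    (hY : Nat.card (Subgroup.centralizer {x}) ≤ Y) (M N : Subgroup F) (hM : M.Normal) (hN : N.Normal) (hNM : N ≤ M)
    (hab : ∀ a ∈ M, ∀ b ∈ M, a * b * a⁻¹ * b⁻¹ ∈ N) (hex : ∀ a ∈ M, a ^ p ∈ N) : N.relIndex M ≤ Y ^ Y := by
  have := hN
  have : (N.subgroupOf M).Normal := hN.subgroupOf M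
  -- the quotient is commutative
  have hcomm : ∀ a b : M ⧸ N.subgroupOf M, a * b = b * a := by
    intro a b
    induction a using QuotientGroup.induction_on with
    | H a =>
      induction b using QuotientGroup.induction_on with
      | H b =>
        rw [← QuotientGroup.mk_mul, ← QuotientGroup.mk_mul, QuotientGroup.eq, Subgroup.mem_subgroupOf]
        have h1 : (((a * b)⁻¹ * (b * a) : M) : F) = (b : F)⁻¹ * (a : F)⁻¹ * ((b : F)⁻¹)⁻¹ * ((a : F)⁻¹)⁻¹ := by
          simp only [Subgroup.coe_mul, Subgroup.coe_inv, mul_inv_rev, inv_inv, mul_assoc]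
        rw [h1]
        exact hab _ (M.inv_mem b.2) _ (M.inv_mem a.2)
  let _ : CommGroup (M ⧸ N.subgroupOf M) := { (inferInstance : Group (M ⧸ N.subgroupOf M)) with mul_comm := hcomm }
  -- conjugation by `x` on `M`
  let cM : M →* M :=
    { toFun := fun m => ⟨x * m * x⁻¹, hM.conj_mem m m.2 x⟩
      map_one' := by
        apply Subtype.ext
        show x * (1 : F) * x⁻¹ = 1
        group
      map_mul' := by
        intro a b
        apply Subtype.ext
        show x * ((a : F) * (b : F)) * x⁻¹ = x * (a : F) * x⁻¹ * (x * (b : F) * x⁻¹)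
        group }
  have hcM : N.subgroupOf M ≤ (N.subgroupOf M).comap cM := by
    intro m hm
    rw [Subgroup.mem_comap, Subgroup.mem_subgroupOf]
    exact hN.conj_mem _ (Subgroup.mem_subgroupOf.1 hm) x
  let φ : (M ⧸ N.subgroupOf M) →* (M ⧸ N.subgroupOf M) := QuotientGroup.map _ _ cM hcM
  have hφ : ∀ m : M, φ (QuotientGroup.mk m) = QuotientGroup.mk (cM m) := fun m => rfl
  have hn : 0 < orderOf x := orderOf_pos x
  have hnY : orderOf x ≤ Nat.card (Subgroup.centralizer {x}) := by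
    rw [← Nat.card_zpowers]
    apply Subgroup.card_le_of_le
    rw [Subgroup.zpowers_le, Subgroup.mem_centralizer_singleton_iff]
  -- the iterates
  have hit : ∀ (k : ℕ) (m : M), (⇑φ)^[k] (QuotientGroup.mk m) =
      QuotientGroup.mk (⟨x ^ k * m * (x ^ k)⁻¹, hM.conj_mem m m.2 (x ^ k)⟩ : M) := by
    intro k
    induction k with
    | zero =>
      intro m
      rw [Function.iterate_zero, id]
      congr 1
      apply Subtype.ext
      show (m : F) = x ^ 0 * m * (x ^ 0)⁻¹
      simp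
    | succ k ih =>
      intro m
      rw [Function.iterate_succ_apply', ih, hφ]
      congr 1
      apply Subtype.ext
      show x * (x ^ k * (m : F) * (x ^ k)⁻¹) * x⁻¹ = x ^ (k + 1) * m * (x ^ (k + 1))⁻¹
      rw [pow_succ']
      group
  have hJ := jordan (E := Additive (M ⧸ N.subgroupOf M)) hp ?_ (MonoidHom.toAdditive φ) (n := orderOf x)
    (N := Group.nilpotencyClass F) hn ?_ ?_
  · -- conclusion
    have hcard : Nat.card (Additive (M ⧸ N.subgroupOf M)) = N.relIndex M := rfl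
    rw [hcard] at hJ
    refine hJ.trans ?_
    have hNT : N ≤ sel_T x M N := by
      intro t ht
      rw [sel_mem_T]
      refine ⟨hNM ht, ?_⟩
      exact N.mul_mem (hN.conj_mem t ht x) (N.inv_mem ht)
    have hT := cent_sec x M N (sel_T x M N) hNM hNT (fun t => sel_mem_T x M N t)
    -- fixed points
    have hfix : Nat.card {v : Additive (M ⧸ N.subgroupOf M) // (MonoidHom.toAdditive φ) v = v} ≤ N.relIndex (sel_T x M N) := by
      have hmem : ∀ v : {v : Additive (M ⧸ N.subgroupOf M) // (MonoidHom.toAdditive φ) v = v},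
          ∃ t : sel_T x M N, ∃ m : M, (m : F) = t ∧ (Additive.toMul v.1) = QuotientGroup.mk m := by
        intro v
        obtain ⟨v, hv⟩ := v
        obtain ⟨m, hm⟩ := QuotientGroup.mk_surjective (Additive.toMul v)
        have hv2 : φ (Additive.toMul v) = Additive.toMul v := hv
        rw [← hm, hφ, QuotientGroup.eq, Subgroup.mem_subgroupOf] at hv2
        have h3 : ((cM m)⁻¹ * m : M) = ((x : F) * m * x⁻¹)⁻¹ * (m : F) := rfl
        rw [h3] at hv2
        refine ⟨⟨m, ?_⟩, m, rfl, hm.symm⟩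
        rw [sel_mem_T]
        refine ⟨m.2, ?_⟩
        have h4 := N.inv_mem hv2
        have h5 : (((x : F) * m * x⁻¹)⁻¹ * (m : F))⁻¹ = (m : F)⁻¹ * (x * m * x⁻¹) := by group
        rw [h5] at h4
        have h6 := hN.conj_mem _ h4 (m : F)
        have h7 : (m : F) * ((m : F)⁻¹ * (x * m * x⁻¹)) * (m : F)⁻¹ = x * m * x⁻¹ * (m : F)⁻¹ := by group
        rw [h7] at h6
        exact h6
      choose f g hfg hg using hmem
      have hinj : Function.Injective (fun v => (QuotientGroup.mk (f v) : sel_T x M N ⧸ N.subgroupOf (sel_T x M N))) := by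
        intro v w hvw
        have h1 := QuotientGroup.eq.1 hvw
        rw [Subgroup.mem_subgroupOf] at h1
        apply Subtype.ext
        apply Additive.toMul.injective
        rw [hg v, hg w, QuotientGroup.eq, Subgroup.mem_subgroupOf]
        have h2 : (((g v)⁻¹ * g w : M) : F) = (((f v)⁻¹ * f w : sel_T x M N) : F) := by
          rw [Subgroup.coe_mul, Subgroup.coe_inv, Subgroup.coe_mul, Subgroup.coe_inv, hfg v, hfg w]
        rw [h2]
        exact h1
      exact Nat.card_le_card_of_injective _ hinj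
    have h1 : Nat.card {v : Additive (M ⧸ N.subgroupOf M) // (MonoidHom.toAdditive φ) v = v} ≤ Y :=
      hfix.trans (hT.trans hY)
    have hY1 : 1 ≤ Y := (Nat.one_le_iff_ne_zero.2 (Nat.card_pos).ne').trans hY
    calc Nat.card {v : Additive (M ⧸ N.subgroupOf M) // (MonoidHom.toAdditive φ) v = v} ^ orderOf x
        ≤ Y ^ orderOf x := Nat.pow_le_pow_left h1 _
      _ ≤ Y ^ Y := Nat.pow_le_pow_right hY1 (hnY.trans hY)
  · -- exponent
    intro v
    apply Additive.toMul.injective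
    rw [toMul_nsmul, toMul_zero]
    obtain ⟨m, hm⟩ := QuotientGroup.mk_surjective (Additive.toMul v)
    rw [← hm, ← QuotientGroup.mk_pow, QuotientGroup.eq_one_iff, Subgroup.mem_subgroupOf]
    exact hex m m.2
  · -- order
    intro v
    apply Additive.toMul.injective
    obtain ⟨m, hm⟩ := QuotientGroup.mk_surjective (Additive.toMul v)
    have h1 : Additive.toMul ((⇑(MonoidHom.toAdditive φ))^[orderOf x] v) = (⇑φ)^[orderOf x] (Additive.toMul v) := rfl
    rw [h1, ← hm, hit]
    congr 1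
    apply Subtype.ext
    show x ^ orderOf x * (m : F) * (x ^ orderOf x)⁻¹ = m
    rw [pow_orderOf_eq_one]
    group
  · -- nilpotent
    intro v
    have hlow : ∀ (k : ℕ) (v : Additive (M ⧸ N.subgroupOf M)), ∃ m : M, (m : F) ∈ (⊤ : Subgroup F).lowerCentralSeries k ∧
        (⇑(MonoidHom.toAdditive φ - AddMonoidHom.id (Additive (M ⧸ N.subgroupOf M))))^[k] v = Additive.ofMul (QuotientGroup.mk m) := by
      intro k
      induction k with
      | zero =>
        intro v
        obtain ⟨m, hm⟩ := QuotientGroup.mk_surjective (Additive.toMul v)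
        refine ⟨m, ?_, ?_⟩
        · rw [Subgroup.lowerCentralSeries_zero]
          exact Subgroup.mem_top _
        · rw [Function.iterate_zero, id, hm]
          rfl
      | succ k ih =>
        intro v
        obtain ⟨m, hm, h1⟩ := ih v
        refine ⟨cM m * m⁻¹, ?_, ?_⟩
        · exact sel_step hm
        · rw [Function.iterate_succ_apply', h1]
          show (MonoidHom.toAdditive φ) (Additive.ofMul (QuotientGroup.mk m)) - Additive.ofMul (QuotientGroup.mk m) = _
          rw [sub_eq_add_neg]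
          rfl
    obtain ⟨m, hm, h1⟩ := hlow (Group.nilpotencyClass F) v
    rw [Subgroup.lowerCentralSeries_nilpotencyClass, Subgroup.mem_bot] at hm
    rw [h1]
    have h2 : m = 1 := Subtype.ext hm
    rw [h2]
    rfl
-- END sel

-- BEGIN se2
/-- The elements of `M` whose `p`-th power is in `N`, for `M` abelian modulo `N`. -/
def se2_S {F : Type*} [Group F] (p : ℕ) (M N : Subgroup F) [N.Normal]
    (hab : ∀ a ∈ M, ∀ b ∈ M, a * b * a⁻¹ * b⁻¹ ∈ N) : Subgroup F where
  carrier := {a | a ∈ M ∧ a ^ p ∈ N}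
  one_mem' := ⟨M.one_mem, by rw [one_pow]; exact N.one_mem⟩
  mul_mem' := by
    rintro a b ⟨ha, ha'⟩ ⟨hb, hb'⟩
    refine ⟨M.mul_mem ha hb, ?_⟩
    rw [← QuotientGroup.eq_one_iff (N := N)] at ha' hb' ⊢
    have hc : Commute (a : F ⧸ N) (b : F ⧸ N) := by
      have h1 := (QuotientGroup.eq_one_iff (N := N) _).2 (hab a ha b hb)
      rw [QuotientGroup.mk_mul, QuotientGroup.mk_mul, QuotientGroup.mk_mul, QuotientGroup.mk_inv,
        QuotientGroup.mk_inv] at h1
      have h2 := mul_inv_eq_one.1 h1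
      exact mul_inv_eq_iff_eq_mul.1 h2
    rw [QuotientGroup.mk_pow] at ha' hb' ⊢
    rw [QuotientGroup.mk_mul, hc.mul_pow, ha', hb', one_mul]
  inv_mem' := by
    rintro a ⟨ha, ha'⟩
    refine ⟨M.inv_mem ha, ?_⟩
    rw [inv_pow]
    exact N.inv_mem ha'

/-- PROOF. `sec_el` for `M / M₁` and `M₁ / N`, `M₁ = pw p M ⊔ N` (normal). -/
theorem sec_el2 {F : Type*} [Group F] [Finite F] (hF : Group.IsNilpotent F) {p : ℕ} (hp : p.Prime) (x : F) {Y : ℕ}
    (hY : Nat.card (Subgroup.centralizer {x}) ≤ Y) (M N : Subgroup F) (hM : M.Normal) (hN : N.Normal) (hNM : N ≤ M)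
    (hab : ∀ a ∈ M, ∀ b ∈ M, a * b * a⁻¹ * b⁻¹ ∈ N) (hex : ∀ a ∈ M, a ^ (p ^ 2) ∈ N) :
    N.relIndex M ≤ Y ^ Y * Y ^ Y := by
  have := hN
  have hpw := pw_normal (p := p) hM
  have hM1 : (pw p M ⊔ N).Normal := Subgroup.sup_normal _ _
  have hNM1 : N ≤ pw p M ⊔ N := le_sup_right
  have hM1M : pw p M ⊔ N ≤ M := sup_le pw_le_self hNM
  have hS : pw p M ⊔ N ≤ se2_S p M N hab := by
    refine sup_le (pw_le fun n hn => ⟨M.pow_mem hn _, ?_⟩) (fun n hn => ⟨hNM hn, N.pow_mem hn _⟩)
    rw [← pow_mul, ← pow_two]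
    exact hex n hn
  have h1 := sec_el hF hp x hY M (pw p M ⊔ N) hM hM1 hM1M (fun a ha b hb => hNM1 (hab a ha b hb))
    (fun a ha => (le_sup_left : pw p M ≤ pw p M ⊔ N) (pow_mem_pw ha))
  have h2 := sec_el hF hp x hY (pw p M ⊔ N) N hM1 hN hNM1 (fun a ha b hb => hab a (hM1M ha) b (hM1M hb))
    (fun a ha => (hS ha).2)
  rw [← Subgroup.relIndex_mul_relIndex N (pw p M ⊔ N) M hNM1 hM1M]
  exact Nat.mul_le_mul h2 h1
-- END se2

-- BEGIN dce
private theorem dce_small {I : Type*} [Group I] [Finite I] (hI : Group.IsSolvable I) (k : ℕ) :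
    derivedSeries I k = ⊥ ∨ Nat.card (derivedSeries I k) + k ≤ Nat.card I := by
  have := hI
  induction k with
  | zero =>
    right
    rw [add_zero]
    exact Subgroup.card_le_card_group _
  | succ k ih =>
    by_cases hb : derivedSeries I k = ⊥
    · left
      rw [derivedSeries_succ, hb, Subgroup.commutator_bot_left]
    · right
      have h1 := ih.resolve_left hb
      have h2 : derivedSeries I (k + 1) < derivedSeries I k := by
        rw [derivedSeries_succ]
        exact Group.IsSolvable.commutator_lt_of_ne_bot hb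
      have h3 : Nat.card (derivedSeries I (k + 1)) < Nat.card (derivedSeries I k) := by
        have h4 : ((derivedSeries I (k + 1) : Subgroup I) : Set I) ⊂ (derivedSeries I k : Set I) :=
          SetLike.coe_ssubset_coe.2 h2
        exact Set.ncard_lt_ncard h4 (Set.toFinite _)
      omega

private theorem dce_der {G : Type*} [Group G] (R : Subgroup G) (k : ℕ) :
    der R k = (derivedSeries R k).map R.subtype := by
  induction k with
  | zero =>
    rw [derivedSeries_zero]
    show R = (⊤ : Subgroup R).map R.subtype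
    rw [← MonoidHom.range_eq_map, Subgroup.range_subtype]
  | succ k ih =>
    show ⁅der R k, der R k⁆ = _
    rw [derivedSeries_succ, Subgroup.map_commutator, ih]

/-- PROOF. `R` acts on the set `M / N` (at most `r` elements) by conjugation, the image is a solvable subgroup of a symmetric group of order `≤ r !`, so its derived length is at most `r !` (each term of the derived series of a solvable group is
strictly smaller until it is trivial), so `der R (r !)` acts trivially. -/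
theorem der_cent {G : Type*} [Group G] [Finite G] (R : Subgroup G) (hR : Group.IsSolvable R) {r : ℕ} (M N : Subgroup G)
    (hM : M.Normal) (hN : N.Normal) (hNM : N ≤ M) (hr : N.relIndex M ≤ r) :
    ∀ v ∈ der R r.factorial, ∀ m ∈ M, v * m * v⁻¹ * m⁻¹ ∈ N := by
  classical
  have := hM
  have := hN
  have := hR
  have hMb : (M.map (QuotientGroup.mk' N)).Normal :=
    hM.map _ (QuotientGroup.mk'_surjective N)
  have hc : Nat.card (M.map (QuotientGroup.mk' N)) ≤ r := by
    refine le_trans (le_of_eq ?_) hr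
    have e1 : M.map (QuotientGroup.mk' N) = ((QuotientGroup.mk' N).comp M.subtype).range := by
      rw [MonoidHom.range_comp, Subgroup.range_subtype]
    have e2 : ((QuotientGroup.mk' N).comp M.subtype).ker = N.subgroupOf M := by
      ext a
      rw [MonoidHom.mem_ker, Subgroup.mem_subgroupOf]
      show (QuotientGroup.mk' N) (a : G) = 1 ↔ _
      exact QuotientGroup.eq_one_iff _
    rw [e1, ← Subgroup.index_ker, e2]
    rfl
  let ψ : R →* MulAut (M.map (QuotientGroup.mk' N)) :=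
    (MulAut.conjNormal.comp (QuotientGroup.mk' N)).comp R.subtype
  have hI : Group.IsSolvable ψ.range :=
    Group.isSolvable_of_surjective ψ.rangeRestrict_surjective
  have hcI : Nat.card ψ.range ≤ r.factorial := by
    have e3 : Nat.card ψ.range ≤ Nat.card (MulAut (M.map (QuotientGroup.mk' N))) :=
      Subgroup.card_le_card_group _
    have e4 : Nat.card (MulAut (M.map (QuotientGroup.mk' N))) ≤
        Nat.card (Equiv.Perm (M.map (QuotientGroup.mk' N))) :=
      Nat.card_le_card_of_injective (fun e => e.toEquiv) MulEquiv.toEquiv_injective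
    rw [Nat.card_perm] at e4
    exact (e3.trans e4).trans (Nat.factorial_le hc)
  have hbot : derivedSeries ψ.range r.factorial = ⊥ := by
    rcases dce_small hI r.factorial with h | h
    · exact h
    · exfalso
      have : 0 < Nat.card (derivedSeries ψ.range r.factorial) := Nat.card_pos
      omega
  intro v hv m hm
  rw [dce_der, Subgroup.mem_map] at hv
  obtain ⟨w, hw, rfl⟩ := hv
  have h1 : ψ.rangeRestrict w ∈ derivedSeries ψ.range r.factorial :=
    map_derivedSeries_le_derivedSeries ψ.rangeRestrict _ (Subgroup.mem_map_of_mem _ hw)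
  rw [hbot, Subgroup.mem_bot] at h1
  have h2 : ψ w = 1 := congrArg Subtype.val h1
  have h3 := congrArg (fun e : MulAut (M.map (QuotientGroup.mk' N)) =>
    ((e ⟨QuotientGroup.mk' N m, Subgroup.mem_map_of_mem _ hm⟩ : M.map (QuotientGroup.mk' N)) : G ⧸ N)) h2
  have h4 : (QuotientGroup.mk' N (w : G)) * QuotientGroup.mk' N m * (QuotientGroup.mk' N (w : G))⁻¹ =
      QuotientGroup.mk' N m := h3
  show (R.subtype w) * m * (R.subtype w)⁻¹ * m⁻¹ ∈ N
  rw [← QuotientGroup.eq_one_iff]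
  have h5 : (QuotientGroup.mk' N) (R.subtype w * m * (R.subtype w)⁻¹ * m⁻¹) = 1 := by
    rw [map_mul, map_mul, map_mul, map_inv, map_inv]
    have : (QuotientGroup.mk' N (R.subtype w)) * QuotientGroup.mk' N m * (QuotientGroup.mk' N (R.subtype w))⁻¹ =
      QuotientGroup.mk' N m := h4
    rw [this, mul_inv_cancel]
  exact h5
-- END dce

-- BEGIN pwc
/-- PROOF. `W = pw (p ^ 2) N`, normal, `W ≤ N`. Let `M` be maximal among the normal subgroups of `F` with `W ≤ M ≤ N` and `a * b * a⁻¹ * b⁻¹ ∈ W` for `a b ∈ M` (`F` is finite; `W` itself is one). By `hV` (with the section `M / W`; `a ^ (p ^ 2) ∈ W` for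
`a ∈ N`) every `v ∈ V` centralizes `M` modulo `W`. If `M ≠ N`: `N / M` is a nontrivial normal subgroup of the nilpotent group `F / M`, so there is `z ∈ N`, `z ∉ M`, central modulo `M`; `M ⊔ zpowers z` is normal in `F`, contained in `N` and abelian modulo `W`
(since `M` is centralized by `z ∈ N ≤ V` modulo `W`), contradiction. So `M = N`. -/
theorem pow_cent {F : Type*} [Group F] [Finite F] (hF : Group.IsNilpotent F) (V : Subgroup F) {p : ℕ}
    (hV : ∀ M N : Subgroup F, M.Normal → N.Normal → N ≤ M → (∀ a ∈ M, ∀ b ∈ M, a * b * a⁻¹ * b⁻¹ ∈ N) →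
      (∀ a ∈ M, a ^ (p ^ 2) ∈ N) → ∀ v ∈ V, ∀ m ∈ M, v * m * v⁻¹ * m⁻¹ ∈ N)
    (N : Subgroup F) (hN : N.Normal) (hNV : N ≤ V) : ∀ v ∈ V, ∀ n ∈ N, v * n * v⁻¹ * n⁻¹ ∈ pw (p ^ 2) N := by
  classical
  have := hF
  set W := pw (p ^ 2) N with hW
  have hWn : W.Normal := pw_normal hN
  have hWN : W ≤ N := pw_le_self
  let S : Set (Subgroup F) := {M | M.Normal ∧ W ≤ M ∧ M ≤ N ∧ ∀ a ∈ M, ∀ b ∈ M, a * b * a⁻¹ * b⁻¹ ∈ W}
  have hSne : S.Nonempty := ⟨W, hWn, le_rfl, hWN, fun a ha b hb =>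
    W.mul_mem (W.mul_mem (W.mul_mem ha hb) (W.inv_mem ha)) (W.inv_mem hb)⟩
  obtain ⟨M, hM⟩ := (Set.toFinite S).exists_maximal hSne
  obtain ⟨hMn, hWM, hMN, hMab⟩ := hM.prop
  have hcen : ∀ v ∈ V, ∀ m ∈ M, v * m * v⁻¹ * m⁻¹ ∈ W :=
    hV M W hMn hWn hWM hMab (fun a ha => pow_mem_pw (hMN ha))
  by_cases hMeq : M = N
  · intro v hv n hn
    rw [← hMeq] at hn
    exact hcen v hv n hn
  exfalso
  -- a central element of `N / M`
  have hex : ∃ z ∈ N, z ∉ M ∧ ∀ g : F, g * z * g⁻¹ * z⁻¹ ∈ M := by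
    obtain ⟨n, hn⟩ := hF.nilpotent'
    have hE : ∃ i, ¬ N ⊓ Subgroup.upperCentralSeries F i ≤ M := by
      refine ⟨n, ?_⟩
      rw [hn, inf_top_eq]
      intro hle
      exact hMeq (le_antisymm hMN hle)
    have h0 : Nat.find hE ≠ 0 := by
      intro h0
      have h1 := Nat.find_spec hE
      rw [h0] at h1
      apply h1
      rw [Subgroup.upperCentralSeries_zero, inf_bot_eq]
      exact bot_le
    obtain ⟨i, hi⟩ := Nat.exists_eq_succ_of_ne_zero h0
    have h1 : N ⊓ Subgroup.upperCentralSeries F i ≤ M := not_not.mp (Nat.find_min hE (by omega))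
    have h2 : ¬ N ⊓ Subgroup.upperCentralSeries F (i + 1) ≤ M := by
      have := Nat.find_spec hE
      rwa [hi] at this
    obtain ⟨z, hz, hzM⟩ := SetLike.not_le_iff_exists.mp h2
    refine ⟨z, hz.1, hzM, fun g => h1 ⟨?_, ?_⟩⟩
    · exact N.mul_mem (hN.conj_mem z hz.1 g) (N.inv_mem hz.1)
    · have h3 : z * g * z⁻¹ * g⁻¹ ∈ Subgroup.upperCentralSeries F i :=
        (Subgroup.mem_upperCentralSeries_succ_iff.mp hz.2) g
      have h4 : g * z * g⁻¹ * z⁻¹ = (z * g * z⁻¹ * g⁻¹)⁻¹ := by group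
      have h5 : g * z * g⁻¹ * z⁻¹ ∈ Subgroup.upperCentralSeries F i := by
        rw [h4]
        exact (Subgroup.upperCentralSeries F i).inv_mem h3
      exact h5
  obtain ⟨z, hzN, hzM, hz⟩ := hex
  let K : Subgroup F := M ⊔ Subgroup.zpowers z
  have hKmem : ∀ x : F, x ∈ K ↔ ∃ m ∈ M, ∃ i : ℤ, m * z ^ i = x := by
    intro x
    show x ∈ M ⊔ Subgroup.zpowers z ↔ _
    rw [Subgroup.mem_sup_of_normal_left]
    constructor
    · rintro ⟨m, hm, y, hy, rfl⟩
      obtain ⟨i, rfl⟩ := Subgroup.mem_zpowers_iff.mp hy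
      exact ⟨m, hm, i, rfl⟩
    · rintro ⟨m, hm, i, rfl⟩
      exact ⟨m, hm, z ^ i, Subgroup.mem_zpowers_iff.mpr ⟨i, rfl⟩, rfl⟩
  have hMK : M ≤ K := le_sup_left
  have hzK : z ∈ K := (le_sup_right : Subgroup.zpowers z ≤ K) (Subgroup.mem_zpowers z)
  have hKN : K ≤ N := sup_le hMN (by rwa [Subgroup.zpowers_le])
  have hKnorm : K.Normal := by
    refine ⟨fun x hx g => ?_⟩
    obtain ⟨m, hm, i, rfl⟩ := (hKmem x).mp hx
    have h1 : g * (m * z ^ i) * g⁻¹ = (g * m * g⁻¹) * (g * z * g⁻¹) ^ i := by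
      rw [conj_zpow]
      group
    rw [h1]
    refine K.mul_mem (hMK (hMn.conj_mem m hm g)) (K.zpow_mem ?_ i)
    have h2 : g * z * g⁻¹ = (g * z * g⁻¹ * z⁻¹) * z := by group
    rw [h2]
    exact K.mul_mem (hMK (hz g)) hzK
  have hcom : ∀ x y : F, x * y * x⁻¹ * y⁻¹ ∈ W ↔ Commute (x : F ⧸ W) (y : F ⧸ W) := by
    intro x y
    rw [← QuotientGroup.eq_one_iff, QuotientGroup.mk_mul, QuotientGroup.mk_mul, QuotientGroup.mk_mul,
      QuotientGroup.mk_inv, QuotientGroup.mk_inv, mul_inv_eq_one, mul_inv_eq_iff_eq_mul]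
    exact Iff.rfl
  have hKab : ∀ a ∈ K, ∀ b ∈ K, a * b * a⁻¹ * b⁻¹ ∈ W := by
    intro a ha b hb
    obtain ⟨m, hm, i, rfl⟩ := (hKmem a).mp ha
    obtain ⟨m', hm', j, rfl⟩ := (hKmem b).mp hb
    rw [hcom]
    have h1 : Commute (m : F ⧸ W) (m' : F ⧸ W) := (hcom _ _).mp (hMab m hm m' hm')
    have h2 : Commute (z : F ⧸ W) (m : F ⧸ W) := (hcom _ _).mp (hcen z (hNV hzN) m hm)
    have h3 : Commute (z : F ⧸ W) (m' : F ⧸ W) := (hcom _ _).mp (hcen z (hNV hzN) m' hm')
    rw [QuotientGroup.mk_mul, QuotientGroup.mk_mul, QuotientGroup.mk_zpow, QuotientGroup.mk_zpow]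
    refine Commute.mul_left (Commute.mul_right h1 ?_) (Commute.mul_right ?_ ?_)
    · exact h2.symm.zpow_right j
    · exact h3.zpow_left i
    · exact ((Commute.refl (z : F ⧸ W)).zpow_left i).zpow_right j
  have h1 : M = K := le_antisymm hMK (hM.2 (⟨hKnorm, hWM.trans hMK, hKN, hKab⟩ : K ∈ S) hMK)
  rw [h1] at hzM
  exact hzM hzK
-- END pwc

-- BEGIN hlf
private theorem hlf_sq {F : Type*} [Group F] (N : Subgroup F) (p : ℕ) : pw (p ^ 2) N ≤ pw p (pw p N) := by
  refine pw_le fun n hn => ?_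
  rw [sq, pow_mul]
  exact pow_mem_pw (pow_mem_pw hn)

private theorem hlf_mem {F : Type*} [Group F] (V : Subgroup F) {p : ℕ} {x : F} (hx : x ∈ V) (k : ℕ) :
    x ^ p ^ k ∈ pws p V k := by
  induction k with
  | zero => simpa [pws] using hx
  | succ k ih =>
    rw [pow_succ, pow_mul]
    exact pow_mem_pw ih

private theorem hlf_comm {F : Type*} [Group F] (V : Subgroup F) (hVn : V.Normal) {p : ℕ}
    (h : ∀ N : Subgroup F, N.Normal → N ≤ V → ∀ v ∈ V, ∀ n ∈ N, v * n * v⁻¹ * n⁻¹ ∈ pw (p ^ 2) N)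
    (i : ℕ) {a b : F} (ha : a ∈ pws p V i) (hb : b ∈ pws p V i) [(pws p V (i + 2)).Normal] :
    Commute (a : F ⧸ pws p V (i + 2)) (b : F ⧸ pws p V (i + 2)) := by
  have h1 : a * b * a⁻¹ * b⁻¹ ∈ pws p V (i + 2) :=
    hlf_sq _ _ (h (pws p V i) (pws_normal hVn i) (pws_le i) a (pws_le i ha) b hb)
  have h2 : ((a * b * a⁻¹ * b⁻¹ : F) : F ⧸ pws p V (i + 2)) = 1 := (QuotientGroup.eq_one_iff _).2 h1
  show (a : F ⧸ pws p V (i + 2)) * b = b * a
  have h3 : (a : F ⧸ pws p V (i + 2)) * b * (a : F ⧸ pws p V (i + 2))⁻¹ * (b : F ⧸ pws p V (i + 2))⁻¹ = 1 := by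
    simpa using h2
  rw [mul_inv_eq_one, mul_inv_eq_iff_eq_mul] at h3
  exact h3

private theorem hlf_hom {F : Type*} [Group F] (V : Subgroup F) (hVn : V.Normal) {p : ℕ}
    (h : ∀ N : Subgroup F, N.Normal → N ≤ V → ∀ v ∈ V, ∀ n ∈ N, v * n * v⁻¹ * n⁻¹ ∈ pw (p ^ 2) N)
    (k : ℕ) {x y : F} (hx : x ∈ V) (hy : y ∈ V) :
    (x ^ p ^ k * y ^ p ^ k)⁻¹ * (x * y) ^ p ^ k ∈ pws p V (k + 1) := by
  induction k with
  | zero => simp
  | succ k ih =>
    have := pws_normal (p := p) hVn (k + 2)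
    set a := x ^ p ^ k with ha
    set b := y ^ p ^ k with hb
    set t := (a * b)⁻¹ * (x * y) ^ p ^ k with ht
    have ham : a ∈ pws p V k := hlf_mem V hx k
    have hbm : b ∈ pws p V k := hlf_mem V hy k
    have htm : t ∈ pws p V k := pw_le_self ih
    have h1 : (x * y) ^ p ^ k = a * b * t := by rw [ht]; group
    have h2 : (x * y) ^ p ^ (k + 1) = (a * b * t) ^ p := by rw [pow_succ, pow_mul, h1]
    have hax : x ^ p ^ (k + 1) = a ^ p := by rw [pow_succ, pow_mul, ha]
    have hby : y ^ p ^ (k + 1) = b ^ p := by rw [pow_succ, pow_mul, hb]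
    show _ ∈ pws p V (k + 2)
    rw [← QuotientGroup.eq, h2, hax, hby]
    have c1 : Commute (a : F ⧸ pws p V (k + 2)) b := hlf_comm V hVn h k ham hbm
    have c2 : Commute (a : F ⧸ pws p V (k + 2)) t := hlf_comm V hVn h k ham htm
    have c3 : Commute (b : F ⧸ pws p V (k + 2)) t := hlf_comm V hVn h k hbm htm
    have h3 : ((t : F) : F ⧸ pws p V (k + 2)) ^ p = 1 := by
      have : t ^ p ∈ pws p V (k + 2) := pow_mem_pw ih
      have h4 := (QuotientGroup.eq_one_iff (t ^ p)).2 this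
      simpa using h4
    simp only [QuotientGroup.mk_mul, QuotientGroup.mk_pow]
    rw [(c2.mul_left c3).mul_pow, h3, mul_one, c1.mul_pow]

private theorem hlf_surj {F : Type*} [Group F] (V : Subgroup F) (hVn : V.Normal) {p : ℕ}
    (h : ∀ N : Subgroup F, N.Normal → N ≤ V → ∀ v ∈ V, ∀ n ∈ N, v * n * v⁻¹ * n⁻¹ ∈ pw (p ^ 2) N)
    (k : ℕ) : ∀ z ∈ pws p V k, ∃ x ∈ V, (x ^ p ^ k)⁻¹ * z ∈ pws p V (k + 1) := by
  induction k with
  | zero =>
    intro z hz
    exact ⟨z, hz, by simp⟩
  | succ k ih =>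
    intro z hz
    have := pws_normal (p := p) hVn (k + 2)
    show ∃ x ∈ V, (x ^ p ^ (k + 1))⁻¹ * z ∈ pws p V (k + 2)
    have hz' : z ∈ Subgroup.closure {z | ∃ n ∈ pws p V k, z = n ^ p} := hz
    refine Subgroup.closure_induction (p := fun z _ => ∃ x ∈ V, (x ^ p ^ (k + 1))⁻¹ * z ∈ pws p V (k + 2)) ?_ ?_ ?_ ?_ hz'
    · rintro w ⟨n, hn, rfl⟩
      obtain ⟨x, hx, hxn⟩ := ih n hn
      refine ⟨x, hx, ?_⟩
      set t := (x ^ p ^ k)⁻¹ * n with ht
      have h1 : n = x ^ p ^ k * t := by rw [ht]; group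
      have hxm : x ^ p ^ k ∈ pws p V k := hlf_mem V hx k
      have htm : t ∈ pws p V k := pw_le_self hxn
      have c1 := hlf_comm V hVn h k hxm htm
      have h3 : ((t : F) : F ⧸ pws p V (k + 2)) ^ p = 1 := by
        have : t ^ p ∈ pws p V (k + 2) := pow_mem_pw hxn
        have h4 := (QuotientGroup.eq_one_iff (t ^ p)).2 this
        simpa using h4
      rw [← QuotientGroup.eq, pow_succ, pow_mul, h1]
      have h5 : (((x ^ p ^ k * t) ^ p : F) : F ⧸ pws p V (k + 2)) = (((x ^ p ^ k : F) : F ⧸ pws p V (k + 2)) * t) ^ p := by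
        simp only [QuotientGroup.mk_mul, QuotientGroup.mk_pow]
      rw [h5, c1.mul_pow, h3, mul_one, QuotientGroup.mk_pow]
    · exact ⟨1, V.one_mem, by simp⟩
    · rintro u w - - ⟨x, hx, hu⟩ ⟨y, hy, hw⟩
      refine ⟨x * y, V.mul_mem hx hy, ?_⟩
      have h1 := hlf_hom V hVn h (k + 1) hx hy
      rw [← QuotientGroup.eq] at hu hw h1 ⊢
      rw [← h1, QuotientGroup.mk_mul, hu, hw, QuotientGroup.mk_mul]
    · rintro u - ⟨x, hx, hu⟩
      refine ⟨x⁻¹, V.inv_mem hx, ?_⟩
      rw [← QuotientGroup.eq] at hu ⊢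
      rw [inv_pow, QuotientGroup.mk_inv, hu, QuotientGroup.mk_inv]

/-- PROOF. `V_i = pws p V i`. `h` with `N = V_i`: `pw (p ^ 2) V_i ≤ V_(i+2)` (`n ^ (p ^ 2) = (n ^ p) ^ p`), so `V_i / V_(i+2)` is abelian; so for every `k` there is a homomorphism `V → V_k / V_(k+1)`, `x ↦ x ^ (p ^ k)`
(induction; `V_k / V_(k+1)` is abelian), and it is onto (the image of `V_i / V_(i+2) → V_(i+1) / V_(i+2)`, `x ↦ x ^ p`, contains the generators). If `V_(k+1) ≠ V_k` the kernel is a proper subgroup of `V`, so at least half of the `x ∈ V` have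
`x ^ (p ^ k) ∉ V_(k+1)`; but `x ^ (p ^ (k + 1)) ∈ V_(k+1)` for all `x ∈ V`; so the order of the image of `x` in `F / V_(k+1)` is `p ^ (k + 1)`, it divides `orderOf x`. -/
theorem half_big {F : Type*} [Group F] [Finite F] (V : Subgroup F) (hVn : V.Normal) {p : ℕ} (hp : p.Prime)
    (h : ∀ N : Subgroup F, N.Normal → N ≤ V → ∀ v ∈ V, ∀ n ∈ N, v * n * v⁻¹ * n⁻¹ ∈ pw (p ^ 2) N)
    (k : ℕ) (hk : pws p V (k + 1) ≠ pws p V k) :
    Nat.card V ≤ 2 * Nat.card {v : V // p ^ (k + 1) ≤ orderOf (v : F)} := by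
  classical
  have := pws_normal (p := p) hVn (k + 1)
  let K : Subgroup V :=
    { carrier := {x | (x : F) ^ p ^ k ∈ pws p V (k + 1)}
      one_mem' := by simp
      mul_mem' := by
        intro a b ha hb
        have h1 := hlf_hom V hVn h k a.2 b.2
        have h2 : ((a : F) * b) ^ p ^ k = (a : F) ^ p ^ k * (b : F) ^ p ^ k * (((a : F) ^ p ^ k * (b : F) ^ p ^ k)⁻¹ * ((a : F) * b) ^ p ^ k) := by
          group
        show ((a : F) * b) ^ p ^ k ∈ pws p V (k + 1)
        rw [h2]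
        exact Subgroup.mul_mem _ (Subgroup.mul_mem _ ha hb) h1
      inv_mem' := by
        intro a ha
        show ((a : F)⁻¹) ^ p ^ k ∈ pws p V (k + 1)
        rw [inv_pow]
        exact Subgroup.inv_mem _ ha }
  have hK : K ≠ ⊤ := by
    intro hK
    apply hk
    apply le_antisymm pw_le_self
    intro z hz
    obtain ⟨x, hx, hxz⟩ := hlf_surj V hVn h k z hz
    have h1 : (⟨x, hx⟩ : V) ∈ K := by rw [hK]; trivial
    have h2 : x ^ p ^ k ∈ pws p V (k + 1) := h1
    have h3 : z = x ^ p ^ k * ((x ^ p ^ k)⁻¹ * z) := by group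
    rw [h3]
    exact Subgroup.mul_mem _ h2 hxz
  have hcard : 2 * Nat.card K ≤ Nat.card V := by
    rw [← K.card_mul_index, mul_comm]
    apply Nat.mul_le_mul_left
    have h0 : K.index ≠ 0 := K.index_ne_zero_of_finite
    have h1 : K.index ≠ 1 := fun h => hK (Subgroup.index_eq_one.1 h)
    omega
  have hbig : ∀ x : V, x ∉ K → p ^ (k + 1) ≤ orderOf (x : F) := by
    intro x hx
    have hx' : ¬ (x : F) ^ p ^ k ∈ pws p V (k + 1) := hx
    have := Fact.mk hp
    have h1 : orderOf ((QuotientGroup.mk' (pws p V (k + 1))) (x : F)) = p ^ (k + 1) := by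
      apply orderOf_eq_prime_pow
      · rw [← map_pow]
        intro h2
        exact hx' ((QuotientGroup.eq_one_iff _).1 h2)
      · rw [← map_pow]
        exact (QuotientGroup.eq_one_iff _).2 (hlf_mem V x.2 (k + 1))
    rw [← h1]
    exact Nat.le_of_dvd (orderOf_pos _) (orderOf_map_dvd _ _)
  have hsum : Nat.card K + Nat.card {x : V // x ∉ K} = Nat.card V := by
    let _ := Fintype.ofFinite V
    have h1 : Nat.card K = Fintype.card {x : V // x ∈ K} := Nat.card_eq_fintype_card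
    rw [h1, Nat.card_eq_fintype_card, Nat.card_eq_fintype_card]
    exact Fintype.card_subtype_compl (fun x => x ∈ K) ▸ (by
      have := Fintype.card_subtype_le (fun x : V => x ∈ K)
      omega)
  have hle : Nat.card {x : V // x ∉ K} ≤ Nat.card {v : V // p ^ (k + 1) ≤ orderOf (v : F)} :=
    Nat.card_le_card_of_injective (fun x => ⟨x.1, hbig x.1 x.2⟩) (fun a b hab => by
      have := congrArg (fun z => z.1) hab
      exact Subtype.ext this)
  omega
-- END hlf

-- BEGIN pdv
private theorem pdv_coatom {N : Type*} [Group N] [Finite N] (hN : Group.IsNilpotent N) {p : ℕ} (hp : p.Prime)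
    (h : p ∣ Nat.card N) : ∃ M : Subgroup N, M ≠ ⊤ ∧ ∀ x : N, x ^ p ∈ M := by
  classical
  have := hN
  have : Fact p.Prime := ⟨hp⟩
  let P : Sylow p N := default
  have hPn : (P : Subgroup N).Normal := (Group.isNilpotent_of_finite_tfae (G := N)).out 0 3 rfl rfl |>.mp hN p ⟨hp⟩ P
  have hPc : p ∣ Nat.card (P : Subgroup N) := P.dvd_card_of_dvd_card h
  obtain ⟨Q, hQ⟩ := Subgroup.exists_right_complement'_of_coprime (N := (P : Subgroup N)) P.card_coprime_index
  have hex : ∃ M : Subgroup N, IsCoatom M ∧ ¬ (P : Subgroup N) ≤ M := by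
    by_contra hno
    have hle : (P : Subgroup N) ≤ frattini N := by
      rw [frattini, Order.radical]
      refine le_iInf₂ fun M hM => ?_
      by_contra hc
      exact hno ⟨M, hM, hc⟩
    have hQt : Q = ⊤ := by
      apply frattini_nongenerating
      rw [eq_top_iff, ← hQ.sup_eq_top, sup_comm]
      exact sup_le_sup_left hle Q
    have h1 := hQ.card_mul_card
    rw [hQt, Subgroup.card_top] at h1
    have h2 : 0 < Nat.card N := Nat.card_pos
    have h3 : Nat.card (P : Subgroup N) = 1 := by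
      apply Nat.eq_of_mul_eq_mul_right h2
      rw [one_mul]
      exact h1
    rw [h3] at hPc
    exact hp.one_lt.ne' (Nat.dvd_one.mp hPc)
  obtain ⟨M, hM, hPM⟩ := hex
  have hMn : M.Normal := ((Group.isNilpotent_of_finite_tfae (G := N)).out 0 2 rfl rfl |>.mp hN) M hM
  refine ⟨M, hM.1, ?_⟩
  obtain ⟨a, haP, haM⟩ := SetLike.not_le_iff_exists.mp hPM
  obtain ⟨k, hk⟩ := P.2 ⟨a, haP⟩
  have hk' : a ^ p ^ k = 1 := congrArg Subtype.val hk
  have hE : ∃ n, a ^ p ^ n ∈ M := ⟨k, by rw [hk']; exact M.one_mem⟩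
  have hn := Nat.find_spec hE
  have hn0 : Nat.find hE ≠ 0 := by
    intro h0
    rw [h0, pow_zero, pow_one] at hn
    exact haM hn
  obtain ⟨n, hn'⟩ := Nat.exists_eq_succ_of_ne_zero hn0
  have hb1 : a ^ p ^ n ∉ M := Nat.find_min hE (by omega)
  have hb2 : (a ^ p ^ n) ^ p ∈ M := by
    rw [← pow_mul, ← pow_succ]
    rw [hn'] at hn
    exact hn
  generalize a ^ p ^ n = b at hb1 hb2
  have htop : M ⊔ Subgroup.zpowers b = ⊤ := by
    apply hM.2
    refine lt_of_le_of_ne le_sup_left ?_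
    intro he
    apply hb1
    rw [he]
    exact (le_sup_right : Subgroup.zpowers b ≤ M ⊔ Subgroup.zpowers b) (Subgroup.mem_zpowers b)
  intro x
  have hx : x ∈ M ⊔ Subgroup.zpowers b := by
    rw [htop]
    exact Subgroup.mem_top x
  rw [Subgroup.mem_sup_of_normal_left] at hx
  obtain ⟨m, hm, z, hz, rfl⟩ := hx
  obtain ⟨i, rfl⟩ := Subgroup.mem_zpowers_iff.mp hz
  rw [← QuotientGroup.eq_one_iff]
  have h1 : ((m * b ^ i : N) : N ⧸ M) = (b : N ⧸ M) ^ i := by
    rw [QuotientGroup.mk_mul, QuotientGroup.mk_zpow, (QuotientGroup.eq_one_iff m).mpr hm, one_mul]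
  rw [QuotientGroup.mk_pow, h1, ← zpow_natCast, ← zpow_mul, mul_comm i, zpow_mul, zpow_natCast,
    ← QuotientGroup.mk_pow, (QuotientGroup.eq_one_iff _).mpr hb2, one_zpow]

/-- PROOF. `N` is nilpotent; if `p` divides `|N|` then `N` has a subgroup `M` of index `p`, normal in `N` (nilpotent groups are products of their Sylow subgroups, or: the abelianization of the nilpotent group `N` has order divisible by `p`), and with
`pw p N ≤ M` (`x ^ p ∈ M`). -/
theorem pw_ne {F : Type*} [Group F] [Finite F] (hF : Group.IsNilpotent F) {p : ℕ} (hp : p.Prime) (N : Subgroup F)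
    (h : p ∣ Nat.card N) : pw p N ≠ N := by
  have := hF
  obtain ⟨M, hM, hx⟩ := pdv_coatom (N := N) inferInstance hp h
  intro he
  apply hM
  have h1 : pw p N ≤ M.map N.subtype := by
    apply pw_le
    intro n hn
    exact ⟨⟨n, hn⟩ ^ p, hx _, rfl⟩
  rw [he] at h1
  rw [eq_top_iff]
  intro y _
  obtain ⟨z, hz, hzy⟩ := h1 y.2
  have : z = y := Subtype.ext hzy
  rw [← this]
  exact hz
-- END pdv

-- BEGIN ord
/-- PROOF. `p`-part: `|V| = |V_K| ∏_(i<K) |V_i : V_(i+1)|`, and `p` does not divide `|V_K|`. -/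
theorem pfact {F : Type*} [Group F] [Finite F] (V : Subgroup F) {p K b : ℕ} (hp : p.Prime)
    (h1 : ∀ i < K, (pws p V (i + 1)).relIndex (pws p V i) ≤ b) (h2 : ¬ p ∣ Nat.card (pws p V K)) :
    p ^ (Nat.card V).factorization p ≤ b ^ K := by
  have key : ∀ j ≤ K, ∃ m : ℕ, Nat.card V = Nat.card (pws p V j) * m ∧ m ≤ b ^ j := by
    intro j
    induction j with
    | zero => exact fun _ => ⟨1, by rw [mul_one]; rfl, by rw [pow_zero]⟩
    | succ j ih =>
      intro hj
      obtain ⟨m, hm, hmb⟩ := ih (by omega)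
      have h3 := Subgroup.relIndex_mul_relIndex ⊥ (pws p V (j + 1)) (pws p V j) bot_le pw_le_self
      rw [Subgroup.relIndex_bot_left, Subgroup.relIndex_bot_left] at h3
      refine ⟨(pws p V (j + 1)).relIndex (pws p V j) * m, ?_, ?_⟩
      · rw [hm, ← h3, mul_assoc]
      · rw [pow_succ, mul_comm (b ^ j)]
        exact Nat.mul_le_mul (h1 j (by omega)) hmb
  obtain ⟨m, hm, hmb⟩ := key K le_rfl
  have hV : 0 < Nat.card V := Nat.card_pos
  have hm0 : 0 < m := by
    rcases Nat.eq_zero_or_pos m with h | h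
    · rw [h, mul_zero] at hm
      omega
    · exact h
  have h3 : p ^ (Nat.card V).factorization p ∣ Nat.card (pws p V K) * m := by
    rw [← hm]
    exact Nat.ordProj_dvd _ _
  have h4 : Nat.Coprime (p ^ (Nat.card V).factorization p) (Nat.card (pws p V K)) :=
    Nat.Coprime.pow_left _ ((Nat.Prime.coprime_iff_not_dvd hp).2 h2)
  exact (Nat.le_of_dvd hm0 (h4.dvd_of_dvd_mul_left h3)).trans hmb
-- END ord

-- BEGIN smc
/-- PROOF. `n = ∏_(p ∣ n) p ^ v_p(n)`, at most `y` primes `p ≤ y` (`b ≥ 1` follows from the case of one prime; for `n = 1` use `hb`). -/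
theorem smooth_card {n y b : ℕ} (hn : 0 < n) (hb : 0 < b) (hy : ∀ p : ℕ, p.Prime → p ∣ n → p ≤ y)
    (h : ∀ p : ℕ, p.Prime → p ∣ n → p ^ n.factorization p ≤ b) : n ≤ b ^ y := by
  have h1 : n = ∏ p ∈ n.primeFactors, p ^ n.factorization p := by
    conv_lhs => rw [← Nat.prod_factorization_pow_eq_self hn.ne']
    rfl
  have h2 : ∏ p ∈ n.primeFactors, p ^ n.factorization p ≤ ∏ _p ∈ n.primeFactors, b :=
    Finset.prod_le_prod' fun p hp => h p (Nat.prime_of_mem_primeFactors hp) (Nat.dvd_of_mem_primeFactors hp)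
  have h3 : n.primeFactors.card ≤ y := by
    have : n.primeFactors ⊆ Finset.Icc 1 y := by
      intro p hp
      rw [Finset.mem_Icc]
      have hpp := Nat.prime_of_mem_primeFactors hp
      exact ⟨hpp.one_lt.le, hy p hpp (Nat.dvd_of_mem_primeFactors hp)⟩
    have h4 := Finset.card_le_card this
    rw [Nat.card_Icc] at h4
    omega
  rw [Finset.prod_const] at h2
  calc n = ∏ p ∈ n.primeFactors, p ^ n.factorization p := h1
    _ ≤ b ^ n.primeFactors.card := h2
    _ ≤ b ^ y := Nat.pow_le_pow_right hb h3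
-- END smc

end Pool.Agent.Fah
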