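import Pool.Agent.Fah.A2
import Pool.Agent.Fah.C

/-!
# From the group to its chief factors; the nilpotent normal subgroup
-/

set_option autoImplicit false

namespace Pool.Agent.Fah

open Pool.Agent.Bdt (der cj mem_cj cj_one cj_mul)

/-- `E` (with `π : M → E` and the action `θ` of `G`) is the abelian section `M / N` of `G`, written additively. -/
structure Sec {G : Type} [Group G] (M N : Subgroup G) (E : Type) [AddCommGroup E] (θ : G →* (AddMonoid.End E)ˣ) (π : G → E) : Prop where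
  add : ∀ a ∈ M, ∀ b ∈ M, π (a * b) = π a + π b
  ker : ∀ a ∈ M, π a = 0 ↔ a ∈ N
  sur : ∀ v : E, ∃ a ∈ M, π a = v
  act : ∀ g, ∀ a ∈ M, π (g * a * g⁻¹) = θ g • π a

-- BEGIN mke
/-- PROOF. `E = Additive (M ⧸ N.subgroupOf M)`; `π a` is the class of `a` for `a ∈ M` and `0` otherwise; `θ g` is induced by the conjugation with `g`. -/
theorem exists_sec {G : Type} [Group G] [Finite G] (M N : Subgroup G) (hM : M.Normal) (hN : N.Normal) (hNM : N ≤ M)
    (hab : ∀ a ∈ M, ∀ b ∈ M, a * b * a⁻¹ * b⁻¹ ∈ N) :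
    ∃ (E : Type) (_ : AddCommGroup E) (_ : Finite E) (θ : G →* (AddMonoid.End E)ˣ) (π : G → E),
      Sec M N E θ π ∧ Nat.card E = N.relIndex M := by
  classical
  haveI hN' : (N.subgroupOf M).Normal := hN.subgroupOf M
  let Q := M ⧸ N.subgroupOf M
  have hcomm : ∀ a b : Q, a * b = b * a := by
    intro a b
    obtain ⟨a, rfl⟩ := QuotientGroup.mk_surjective a
    obtain ⟨b, rfl⟩ := QuotientGroup.mk_surjective b
    rw [← QuotientGroup.mk_mul, ← QuotientGroup.mk_mul, QuotientGroup.eq, Subgroup.mem_subgroupOf]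
    have h1 := hab (b⁻¹ : G) (M.inv_mem b.2) (a⁻¹ : G) (M.inv_mem a.2)
    have h2 : (((a * b)⁻¹ * (b * a) : M) : G) = (b : G)⁻¹ * (a : G)⁻¹ * (b⁻¹ : G)⁻¹ * (a⁻¹ : G)⁻¹ := by
      push_cast
      group
    rw [h2]
    exact h1
  letI cg : CommGroup Q := { (inferInstance : Group Q) with mul_comm := hcomm }
  let φ : G → (Q →* Q) := fun g => QuotientGroup.map (N.subgroupOf M) (N.subgroupOf M)
    (MulAut.conjNormal g : M ≃* M).toMonoidHom (by
      intro x hx
      rw [Subgroup.mem_comap, Subgroup.mem_subgroupOf]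
      rw [Subgroup.mem_subgroupOf] at hx
      exact hN.conj_mem _ hx g)
  have hφ : ∀ g (a : M), φ g (QuotientGroup.mk a) = QuotientGroup.mk (MulAut.conjNormal g a) := fun _ _ => rfl
  let ρ : G →* AddMonoid.End (Additive Q) :=
    { toFun := fun g => MonoidHom.toAdditive (φ g)
      map_one' := by
        refine AddMonoidHom.ext fun x => ?_
        obtain ⟨a, ha⟩ := QuotientGroup.mk_surjective (Additive.toMul x)
        have hx : x = Additive.ofMul (QuotientGroup.mk a : Q) := by rw [ha]; rfl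
        rw [hx]
        change Additive.ofMul (φ 1 (QuotientGroup.mk a)) = Additive.ofMul (QuotientGroup.mk a : Q)
        rw [hφ, map_one]
        rfl
      map_mul' := by
        intro g h
        refine AddMonoidHom.ext fun x => ?_
        obtain ⟨a, ha⟩ := QuotientGroup.mk_surjective (Additive.toMul x)
        have hx : x = Additive.ofMul (QuotientGroup.mk a : Q) := by rw [ha]; rfl
        rw [hx]
        change Additive.ofMul (φ (g * h) (QuotientGroup.mk a)) = Additive.ofMul (φ g (φ h (QuotientGroup.mk a)))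
        rw [hφ, hφ, hφ, map_mul]
        rfl }
  refine ⟨Additive Q, inferInstance, inferInstance, ρ.toHomUnits,
    fun a => if h : a ∈ M then Additive.ofMul (QuotientGroup.mk ⟨a, h⟩) else 0, ⟨?_, ?_, ?_, ?_⟩, ?_⟩
  · intro a ha b hb
    rw [dif_pos (M.mul_mem ha hb), dif_pos ha, dif_pos hb]
    rfl
  · intro a ha
    rw [dif_pos ha]
    change (QuotientGroup.mk (⟨a, ha⟩ : M) : Q) = 1 ↔ _
    rw [QuotientGroup.eq_one_iff, Subgroup.mem_subgroupOf]
  · intro v
    obtain ⟨a, ha⟩ := QuotientGroup.mk_surjective (Additive.toMul v)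
    refine ⟨a, a.2, ?_⟩
    rw [dif_pos a.2]
    exact ha
  · intro g a ha
    rw [dif_pos ha, dif_pos (hM.conj_mem a ha g)]
    rfl
  · rfl
-- END mke

-- BEGIN fle
private theorem fle_one {G : Type} [Group G] {M N : Subgroup G} (hNM : N ≤ M)
    {E : Type} [AddCommGroup E] {θ : G →* (AddMonoid.End E)ˣ} {π : G → E} (h : Sec M N E θ π) : π 1 = 0 :=
  (h.ker 1 M.one_mem).2 N.one_mem

private theorem fle_inv {G : Type} [Group G] {M N : Subgroup G} (hNM : N ≤ M)
    {E : Type} [AddCommGroup E] {θ : G →* (AddMonoid.End E)ˣ} {π : G → E} (h : Sec M N E θ π) {a : G} (ha : a ∈ M) :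
    π a⁻¹ = - π a := by
  have h1 := h.add a ha a⁻¹ (M.inv_mem ha)
  rw [mul_inv_cancel, fle_one hNM h] at h1
  exact (neg_eq_of_add_eq_zero_right h1.symm).symm

private theorem fle_iff {G : Type} [Group G] {M N : Subgroup G} (hM : M.Normal)
    {E : Type} [AddCommGroup E] {θ : G →* (AddMonoid.End E)ˣ} {π : G → E} (h : Sec M N E θ π) (g : G) {t : G} (ht : t ∈ M) :
    g * t * g⁻¹ * t⁻¹ ∈ N ↔ θ g • π t = π t := by
  have h1 : g * t * g⁻¹ ∈ M := hM.conj_mem t ht g
  have h2 : g * t * g⁻¹ * t⁻¹ ∈ M := M.mul_mem h1 (M.inv_mem ht)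
  have h3 := h.add _ h2 t ht
  rw [inv_mul_cancel_right, h.act g t ht] at h3
  rw [← h.ker _ h2, h3]
  constructor
  · intro h4
    rw [h4, zero_add]
  · intro h4
    exact add_eq_right.1 h4

/-- PROOF. `T = {t ∈ M | g * t * g⁻¹ * t⁻¹ ∈ N}` is a subgroup (`M / N` is abelian), `π` induces a bijection from `T / N` onto the fixed points of `θ g`; `cent_sec`. -/
theorem Sec.fix_le {G : Type} [Group G] [Finite G] {M N : Subgroup G} (hM : M.Normal) (hN : N.Normal) (hNM : N ≤ M)
    {E : Type} [AddCommGroup E] [Finite E] {θ : G →* (AddMonoid.End E)ˣ} {π : G → E} (h : Sec M N E θ π) (g : G) :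
    Nat.card {v : E // θ g • v = v} ≤ Nat.card (Subgroup.centralizer {g}) := by
  let T : Subgroup G :=
    { carrier := {t | t ∈ M ∧ g * t * g⁻¹ * t⁻¹ ∈ N}
      mul_mem' := by
        rintro a b ⟨ha, ha2⟩ ⟨hb, hb2⟩
        refine ⟨M.mul_mem ha hb, ?_⟩
        rw [fle_iff hM h g ha] at ha2
        rw [fle_iff hM h g hb] at hb2
        rw [fle_iff hM h g (M.mul_mem ha hb), h.add a ha b hb, smul_add, ha2, hb2]
      one_mem' := by
        refine ⟨M.one_mem, ?_⟩
        rw [fle_iff hM h g M.one_mem, fle_one hNM h, smul_zero]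
      inv_mem' := by
        rintro a ⟨ha, ha2⟩
        refine ⟨M.inv_mem ha, ?_⟩
        rw [fle_iff hM h g ha] at ha2
        rw [fle_iff hM h g (M.inv_mem ha), fle_inv hNM h ha, smul_neg, ha2] }
  have hT : ∀ t, t ∈ T ↔ t ∈ M ∧ g * t * g⁻¹ * t⁻¹ ∈ N := fun t => Iff.rfl
  have hNT : N ≤ T := by
    intro t ht
    refine (hT t).2 ⟨hNM ht, ?_⟩
    exact N.mul_mem (hN.conj_mem t ht g) (N.inv_mem ht)
  refine le_trans ?_ (cent_sec g M N T hNM hNT hT)
  have hex : ∀ v : {v : E // θ g • v = v}, ∃ a : T, π (a : G) = v := by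
    rintro ⟨v, hv⟩
    obtain ⟨a, ha, rfl⟩ := h.sur v
    exact ⟨⟨a, (hT a).2 ⟨ha, (fle_iff hM h g ha).2 hv⟩⟩, rfl⟩
  choose f hf using hex
  rw [Subgroup.relIndex, Subgroup.index]
  refine Nat.card_le_card_of_injective (fun v => (QuotientGroup.mk (f v) : T ⧸ N.subgroupOf T)) ?_
  intro v w hvw
  have h1 : (f v)⁻¹ * f w ∈ N.subgroupOf T := QuotientGroup.eq.1 hvw
  rw [Subgroup.mem_subgroupOf] at h1
  have h2 : ((f v : G))⁻¹ * (f w : G) ∈ N := h1
  have hv1 : (f v : G) ∈ M := ((hT _).1 (f v).2).1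
  have h3 := h.add (f v : G) hv1 _ (hNM h2)
  rw [mul_inv_cancel_left, (h.ker _ (hNM h2)).2 h2, add_zero, hf, hf] at h3
  exact (Subtype.ext h3).symm
-- END fle

-- BEGIN brn
/-- PROOF. The orbits of `θ.range` on `E` are those of `G`; Burnside (`MulAction.sum_card_fixedBy_eq_card_orbits_mul_card_group`) for `G` acting through `θ`, or for `θ.range` and the fibres of `θ` (all of the order of the kernel). -/
theorem burn {G : Type} [Group G] [Fintype G] {E : Type} [AddCommGroup E] [Finite E] (θ : G →* (AddMonoid.End E)ˣ) :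
    Nat.card (MulAction.orbitRel.Quotient θ.range E) * Nat.card G = ∑ g : G, Nat.card {v : E // θ g • v = v} := by
  classical
  have := Fintype.ofFinite E
  letI act : MulAction G E := MulAction.compHom E θ
  have hsm : ∀ (g : G) (v : E), g • v = θ g • v := fun g v => rfl
  have hb := MulAction.sum_card_fixedBy_eq_card_orbits_mul_card_group G E
  have hrel : MulAction.orbitRel G E = MulAction.orbitRel θ.range E := by
    ext a b
    rw [MulAction.orbitRel_apply, MulAction.orbitRel_apply, MulAction.mem_orbit_iff, MulAction.mem_orbit_iff]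
    constructor
    · rintro ⟨g, hg⟩
      exact ⟨⟨θ g, g, rfl⟩, hg⟩
    · rintro ⟨⟨_, g, rfl⟩, hg⟩
      exact ⟨g, hg⟩
  have h1 : Nat.card (MulAction.orbitRel.Quotient θ.range E) = Nat.card (Quotient (MulAction.orbitRel G E)) := by
    unfold MulAction.orbitRel.Quotient
    rw [hrel]
  rw [h1, Nat.card_eq_fintype_card, Nat.card_eq_fintype_card, ← hb]
  refine Finset.sum_congr rfl fun g _ => ?_
  rw [← Nat.card_eq_fintype_card]
  rfl
-- END brn

-- BEGIN hlr
/-- PROOF. The order of `θ g` divides the order of `g`; all fibres of `G → θ.range` have the order of the kernel. -/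
theorem half_range {G H : Type*} [Group G] [Finite G] [Group H] (θ : G →* H) {Y : ℕ}
    (h : Nat.card G ≤ 2 * Nat.card {g : G // orderOf g ≤ Y}) :
    Nat.card θ.range ≤ 2 * Nat.card {h : θ.range // orderOf h ≤ Y} := by
  have hfin : Finite θ.range := Finite.of_surjective θ.rangeRestrict θ.rangeRestrict_surjective
  have hs : ∀ x : θ.range, ∃ g : G, θ.rangeRestrict g = x := θ.rangeRestrict_surjective
  choose s hs using hs
  have h1 := Subgroup.card_mul_index θ.ker
  rw [Subgroup.index_ker] at h1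
  have h2 : Nat.card {g : G // orderOf g ≤ Y} ≤ Nat.card θ.ker * Nat.card {h : θ.range // orderOf h ≤ Y} := by
    rw [← Nat.card_prod]
    have hm : ∀ g : {g : G // orderOf g ≤ Y}, (s (θ.rangeRestrict (g : G)))⁻¹ * (g : G) ∈ θ.ker := by
      intro g
      rw [MonoidHom.mem_ker, map_mul, map_inv]
      have h3 := congrArg (fun z : θ.range => (z : H)) (hs (θ.rangeRestrict (g : G)))
      have h4 : θ (s (θ.rangeRestrict (g : G))) = θ (g : G) := h3
      rw [h4, inv_mul_cancel]
    have ho : ∀ g : {g : G // orderOf g ≤ Y}, orderOf (θ.rangeRestrict (g : G)) ≤ Y := fun g =>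
      (Nat.le_of_dvd (orderOf_pos _) (orderOf_map_dvd θ.rangeRestrict (g : G))).trans g.2
    refine Nat.card_le_card_of_injective (fun g => ((⟨_, hm g⟩ : θ.ker),
      (⟨θ.rangeRestrict (g : G), ho g⟩ : {h : θ.range // orderOf h ≤ Y}))) ?_
    intro g g' hg
    have h3 := Prod.mk.inj hg
    have h4 : θ.rangeRestrict (g : G) = θ.rangeRestrict (g' : G) :=
      congrArg (fun z : {h : θ.range // orderOf h ≤ Y} => (z : θ.range)) h3.2
    have h5 : (s (θ.rangeRestrict (g : G)))⁻¹ * (g : G) = (s (θ.rangeRestrict (g' : G)))⁻¹ * (g' : G) :=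
      congrArg (fun z : θ.ker => (z : G)) h3.1
    rw [h4] at h5
    exact Subtype.ext (mul_left_cancel h5)
  have h3 : Nat.card θ.ker * Nat.card θ.range ≤
      Nat.card θ.ker * (2 * Nat.card {h : θ.range // orderOf h ≤ Y}) := by
    rw [h1]
    refine h.trans ((Nat.mul_le_mul_left 2 h2).trans (le_of_eq ?_))
    ring
  exact Nat.le_of_mul_le_mul_left h3 Nat.card_pos
-- END hlr

-- BEGIN irx
/-- PROOF. For an invariant `U` the set `{a ∈ M | π a ∈ U}` is a normal subgroup of `G` between `N` and `M`. -/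
theorem Sec.irr {G : Type} [Group G] [Finite G] {M N : Subgroup G} (hM : M.Normal) (hN : N.Normal) (hNM : N ≤ M)
    {E : Type} [AddCommGroup E] [Finite E] {θ : G →* (AddMonoid.End E)ˣ} {π : G → E} (h : Sec M N E θ π)
    (hch : ∀ T : Subgroup G, T.Normal → N ≤ T → T ≤ M → T = N ∨ T = M) : Irr θ.range E := by
  intro U hU
  have h1 : π 1 = 0 := (h.ker 1 M.one_mem).2 N.one_mem
  have hinv : ∀ a ∈ M, π a⁻¹ = - π a := by
    intro a ha
    have h2 := h.add a ha a⁻¹ (M.inv_mem ha)
    rw [mul_inv_cancel, h1] at h2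
    exact (neg_eq_of_add_eq_zero_right h2.symm).symm
  let T : Subgroup G :=
    { carrier := {a | a ∈ M ∧ π a ∈ U}
      mul_mem' := by
        rintro a b ⟨ha, ha'⟩ ⟨hb, hb'⟩
        refine ⟨M.mul_mem ha hb, ?_⟩
        rw [h.add a ha b hb]
        exact U.add_mem ha' hb'
      one_mem' := ⟨M.one_mem, by rw [h1]; exact U.zero_mem⟩
      inv_mem' := by
        rintro a ⟨ha, ha'⟩
        refine ⟨M.inv_mem ha, ?_⟩
        rw [hinv a ha]
        exact U.neg_mem ha' }
  have hT : ∀ a, a ∈ T ↔ a ∈ M ∧ π a ∈ U := fun _ => Iff.rfl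
  have hTn : T.Normal := by
    refine ⟨fun a ha g => ?_⟩
    rw [hT] at ha ⊢
    refine ⟨hM.conj_mem a ha.1 g, ?_⟩
    rw [h.act g a ha.1]
    exact hU ⟨θ g, ⟨g, rfl⟩⟩ _ ha.2
  have hNT : N ≤ T := by
    intro n hn
    rw [hT]
    refine ⟨hNM hn, ?_⟩
    rw [(h.ker n (hNM hn)).2 hn]
    exact U.zero_mem
  rcases hch T hTn hNT (fun a ha => ((hT a).1 ha).1) with hh | hh
  · left
    rw [eq_bot_iff]
    intro u hu
    obtain ⟨a, ha, rfl⟩ := h.sur u
    have : a ∈ T := (hT a).2 ⟨ha, hu⟩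
    rw [hh] at this
    rw [AddSubgroup.mem_bot]
    exact (h.ker a ha).2 this
  · right
    rw [eq_top_iff]
    intro v _
    obtain ⟨a, ha, rfl⟩ := h.sur v
    rw [← hh] at ha
    exact ((hT a).1 ha).2
-- END irx

-- BEGIN iex
/-- PROOF. Let `p` be a prime divisor of `|E|`; `{v | p • v = 0}` is invariant and not `⊥` (Cauchy), so it is `⊤`. -/
theorem irr_exp {H E : Type*} [Group H] [AddCommGroup E] [Finite E] [DistribMulAction H E] (hE : Nontrivial E)
    (hirr : Irr H E) : ∃ p : ℕ, p.Prime ∧ (∀ v : E, p • v = 0) ∧ p ∣ Nat.card E := by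
  have h1 : Nat.card E ≠ 1 := Finite.one_lt_card.ne'
  obtain ⟨p, hp, hd⟩ := Nat.exists_prime_and_dvd h1
  haveI : Fact p.Prime := ⟨hp⟩
  refine ⟨p, hp, ?_, hd⟩
  obtain ⟨x, hx⟩ := exists_prime_addOrderOf_dvd_card' (G := E) p hd
  rcases hirr (nsmulAddMonoidHom p : E →+ E).ker (by
    intro h u hu
    rw [AddMonoidHom.mem_ker] at hu ⊢
    rw [nsmulAddMonoidHom_apply] at hu ⊢
    rw [smul_comm, hu, smul_zero]) with h2 | h2
  · exfalso
    have h3 : x ∈ (nsmulAddMonoidHom p : E →+ E).ker := by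
      rw [AddMonoidHom.mem_ker, nsmulAddMonoidHom_apply, ← hx]
      exact addOrderOf_nsmul_eq_zero x
    rw [h2, AddSubgroup.mem_bot] at h3
    rw [h3, addOrderOf_zero] at hx
    exact hp.one_lt.ne hx
  · intro v
    have h3 : v ∈ (nsmulAddMonoidHom p : E →+ E).ker := by rw [h2]; trivial
    rwa [AddMonoidHom.mem_ker, nsmulAddMonoidHom_apply] at h3
-- END iex

-- BEGIN nil
/-- in a solvable `F` a chief factor `L / N` inside `F` is abelian -/
private theorem nil_ab {G : Type*} [Group G] [Finite G] {F L N : Subgroup G} (hs : Group.IsSolvable F) (hL : L.Normal)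
    (hN : N.Normal) (hNL : N < L) (hLF : L ≤ F)
    (hch : ∀ T : Subgroup G, T.Normal → N ≤ T → T ≤ L → T = N ∨ T = L) : ⁅L, L⁆ ≤ N := by
  have hcL : ⁅L, L⁆ ≤ L := Subgroup.commutator_le_left L L
  rcases hch (⁅L, L⁆ ⊔ N) inferInstance le_sup_right (sup_le hcL hNL.le) with h | h
  · rw [← h]; exact le_sup_left
  · exfalso
    have hsL : Group.IsSolvable L :=
      Group.isSolvable_of_isSolvable_injective (f := Subgroup.inclusion hLF) (Subgroup.inclusion_injective hLF)
    have hN' : (N.subgroupOf L).Normal := hN.subgroupOf L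
    have hnt : Nontrivial (L ⧸ N.subgroupOf L) := by
      obtain ⟨x, hx, hxN⟩ := SetLike.exists_of_lt hNL
      refine ⟨⟨QuotientGroup.mk ⟨x, hx⟩, 1, fun h1 => hxN ?_⟩⟩
      rw [QuotientGroup.eq_one_iff, Subgroup.mem_subgroupOf] at h1
      exact h1
    have hlt := Group.IsSolvable.commutator_lt_top_of_nontrivial (L ⧸ N.subgroupOf L)
    refine hlt.ne ?_
    rw [eq_top_iff]
    intro q _
    obtain ⟨a, rfl⟩ := QuotientGroup.mk_surjective q
    have ha : (a : G) ∈ ⁅L, L⁆ ⊔ N := by rw [h]; exact a.2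
    rw [Subgroup.mem_sup_of_normal_right] at ha
    obtain ⟨c, hc, n, hn, hcn⟩ := ha
    rw [← Subgroup.map_subtype_commutator] at hc
    obtain ⟨c', hc', rfl⟩ := hc
    have h2 : (QuotientGroup.mk a : L ⧸ N.subgroupOf L) = QuotientGroup.mk c' := by
      rw [eq_comm, QuotientGroup.eq, Subgroup.mem_subgroupOf]
      have : ((c'⁻¹ * a : L) : G) = n := by
        push_cast
        rw [← hcn]
        simp
      rw [this]
      exact hn
    rw [h2]
    have h3 : (commutator L).map (QuotientGroup.mk' (N.subgroupOf L)) ≤ commutator (L ⧸ N.subgroupOf L) := by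
      rw [commutator_def, commutator_def, Subgroup.map_commutator]
      exact Subgroup.commutator_mono le_top le_top
    exact h3 ⟨c', hc', rfl⟩

private theorem nil_step {G : Type*} [Group G] [Finite G] (F : Subgroup G) (hF : F.Normal) (hs : Group.IsSolvable F)
    (h : ∀ M N : Subgroup G, M.Normal → N.Normal → N < M → M ≤ F →
      (∀ T : Subgroup G, T.Normal → N ≤ T → T ≤ M → T = N ∨ T = M) →
      (∀ a ∈ M, ∀ b ∈ M, a * b * a⁻¹ * b⁻¹ ∈ N) → ∀ v ∈ F, ∀ m ∈ M, v * m * v⁻¹ * m⁻¹ ∈ N)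
    (L : Subgroup G) (hL : L.Normal) (hLF : L ≤ F) (hne : L ≠ ⊥) : ⁅F, L⁆ < L := by
  obtain ⟨N, hN⟩ := Set.Finite.exists_maximal (s := {N : Subgroup G | N.Normal ∧ N < L}) (Set.toFinite _)
    ⟨⊥, ⟨inferInstance, bot_lt_iff_ne_bot.2 hne⟩⟩
  obtain ⟨⟨hN1, hN2⟩, hmax⟩ := hN
  have hch : ∀ T : Subgroup G, T.Normal → N ≤ T → T ≤ L → T = N ∨ T = L := by
    intro T hT hNT hTL
    rcases eq_or_lt_of_le hTL with h1 | h1
    · exact Or.inr h1
    · exact Or.inl (le_antisymm (hmax ⟨hT, h1⟩ hNT) hNT)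
  have hab := nil_ab hs hL hN1 hN2 hLF hch
  have h2 := h L N hL hN1 hN2 hLF hch fun a ha b hb => hab (Subgroup.commutator_mem_commutator ha hb)
  refine lt_of_le_of_lt ?_ hN2
  rw [Subgroup.commutator_le]
  exact h2

/-- PROOF. Lower central series `L_i` of `F`, as subgroups of `G` (normal in `G`): if `L_i ≠ ⊥` let `N` be maximal among the normal subgroups of `G` properly inside `L_i`; `L_i / N` is a chief factor of `G`; it is abelian since `F` is solvable (`⁅L_i, L_i⁆ ⊔ N`
is normal, and is not `L_i`: a nontrivial solvable group is not perfect). By `h`, `⁅F, L_i⁆ ≤ N`, so `L_(i+1) < L_i`. So `L_n = ⊥` for some `n`. -/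
theorem nil {G : Type*} [Group G] [Finite G] (F : Subgroup G) (hF : F.Normal) (hs : Group.IsSolvable F)
    (h : ∀ M N : Subgroup G, M.Normal → N.Normal → N < M → M ≤ F →
      (∀ T : Subgroup G, T.Normal → N ≤ T → T ≤ M → T = N ∨ T = M) →
      (∀ a ∈ M, ∀ b ∈ M, a * b * a⁻¹ * b⁻¹ ∈ N) → ∀ v ∈ F, ∀ m ∈ M, v * m * v⁻¹ * m⁻¹ ∈ N) : Group.IsNilpotent F := by
  classical
  let L : ℕ → Subgroup G := fun n => Nat.rec F (fun _ K => ⁅F, K⁆) n
  have hL0 : L 0 = F := rfl
  have hLs : ∀ n, L (n + 1) = ⁅F, L n⁆ := fun _ => rfl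
  have hn : ∀ n, (L n).Normal ∧ L n ≤ F := by
    intro n
    induction n with
    | zero => exact ⟨hF, le_rfl⟩
    | succ n ih =>
      rw [hLs]
      exact ⟨@Subgroup.commutator_normal G _ F (L n) hF ih.1, Subgroup.commutator_le_left F (L n)⟩
  have hlt : ∀ n, L n ≠ ⊥ → L (n + 1) < L n := by
    intro n hne
    rw [hLs]
    exact nil_step F hF hs h (L n) (hn n).1 (hn n).2 hne
  have hbot : ∃ n, L n = ⊥ := by
    by_contra hcon'
    have hcon : ∀ n, L n ≠ ⊥ := fun n hh => hcon' ⟨n, hh⟩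
    have hanti : StrictAnti L := strictAnti_nat_of_succ_lt fun n => hlt n (hcon n)
    exact not_injective_infinite_finite L hanti.injective
  obtain ⟨n, hnb⟩ := hbot
  rw [Subgroup.nilpotent_iff_finite_descending_central_series]
  refine ⟨n, fun m => (L m).subgroupOf F, ⟨?_, ?_⟩, ?_⟩
  · change F.subgroupOf F = ⊤
    exact Subgroup.subgroupOf_self F
  · intro x m hx g
    rw [Subgroup.mem_subgroupOf] at hx ⊢
    rw [hLs, Subgroup.commutator_comm]
    exact Subgroup.commutator_mem_commutator hx g.2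
  · change (L n).subgroupOf F = ⊥
    rw [hnb]
    exact Subgroup.bot_subgroupOf F
-- END nil

-- BEGIN dmp
/-- PROOF. Induction, `Subgroup.map_commutator`. -/
theorem der_top_map {G : Type*} [Group G] (F : Subgroup G) (k : ℕ) :
    (der (⊤ : Subgroup F) k).map F.subtype = der F k := by
  induction k with
  | zero =>
    show (⊤ : Subgroup F).map F.subtype = F
    rw [← MonoidHom.range_eq_map, Subgroup.range_subtype]
  | succ k ih =>
    show (⁅der (⊤ : Subgroup F) k, der (⊤ : Subgroup F) k⁆).map F.subtype = ⁅der F k, der F k⁆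
    rw [Subgroup.map_commutator, ih]
-- END dmp

-- BEGIN dad
/-- PROOF. Induction on `b`. -/
theorem der_add {G : Type*} [Group G] (R : Subgroup G) (a b : ℕ) : der (der R a) b = der R (a + b) := by
  induction b with
  | zero => rfl
  | succ b ih =>
    rw [Nat.add_succ]
    change ⁅der (der R a) b, der (der R a) b⁆ = ⁅der R (a + b), der R (a + b)⁆
    rw [ih]
-- END dad

end Pool.Agent.Fah
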