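import Pool.Agent.Bdt.Defs

/-!
# Finitely many groups with classes of distinct sizes (MP_3a125c_al): definitions
-/

set_option autoImplicit false

namespace Pool.Agent.Fah

open Pool.Agent.Bdt (der cj mem_cj cj_one cj_mul)

/-- The subgroup generated by the `p`-th powers of the elements of `N`. -/
def pw {G : Type*} [Group G] (p : ℕ) (N : Subgroup G) : Subgroup G := Subgroup.closure {z | ∃ n ∈ N, z = n ^ p}

/-- `V`, `pw p V`, `pw p (pw p V)`, ... -/
def pws {G : Type*} [Group G] (p : ℕ) (V : Subgroup G) : ℕ → Subgroup G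
  | 0 => V
  | n + 1 => pw p (pws p V n)

section

variable {G : Type*} [Group G]

theorem pow_mem_pw {p : ℕ} {N : Subgroup G} {n : G} (hn : n ∈ N) : n ^ p ∈ pw p N :=
  Subgroup.subset_closure ⟨n, hn, rfl⟩

theorem pw_le {p : ℕ} {N M : Subgroup G} (h : ∀ n ∈ N, n ^ p ∈ M) : pw p N ≤ M := by
  rw [pw, Subgroup.closure_le]
  rintro z ⟨n, hn, rfl⟩
  exact h n hn

theorem pw_le_self {p : ℕ} {N : Subgroup G} : pw p N ≤ N := pw_le fun _ hn => N.pow_mem hn _

theorem pw_normal {p : ℕ} {N : Subgroup G} (hN : N.Normal) : (pw p N).Normal := by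
  refine ⟨fun n hn g => ?_⟩
  have h1 : (pw p N).map (MulAut.conj g).toMonoidHom ≤ pw p N := by
    rw [pw, MonoidHom.map_closure, Subgroup.closure_le]
    rintro z ⟨w, ⟨m, hm, rfl⟩, rfl⟩
    show g * m ^ p * g⁻¹ ∈ _
    rw [← conj_pow]
    exact pow_mem_pw (hN.conj_mem m hm g)
  exact h1 ⟨n, hn, rfl⟩

theorem pws_normal {p : ℕ} {V : Subgroup G} (hV : V.Normal) (n : ℕ) : (pws p V n).Normal := by
  induction n with
  | zero => exact hV
  | succ n ih => exact pw_normal ih

theorem pws_le {p : ℕ} {V : Subgroup G} (n : ℕ) : pws p V n ≤ V := by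
  induction n with
  | zero => exact le_rfl
  | succ n ih => exact pw_le_self.trans ih

theorem der_normal {R : Subgroup G} (hR : R.Normal) (n : ℕ) : (der R n).Normal := by
  induction n with
  | zero => exact hR
  | succ n ih => exact Subgroup.commutator_normal _ _

theorem der_le {R : Subgroup G} (n : ℕ) : der R n ≤ R := by
  induction n with
  | zero => exact le_rfl
  | succ n ih => exact (Subgroup.commutator_le.2 fun a ha b hb =>
      (der R n).mul_mem ((der R n).mul_mem ((der R n).mul_mem ha hb) ((der R n).inv_mem ha)) ((der R n).inv_mem hb)).trans ih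

end

section

variable {H E : Type*} [Group H] [AddCommGroup E] [DistribMulAction H E]

/-- The fixed points of the subgroup `K` on `E`. -/
def fx (E : Type*) [AddCommGroup E] [DistribMulAction H E] (K : Subgroup H) : AddSubgroup E where
  carrier := {v | ∀ k ∈ K, k • v = v}
  add_mem' := by
    intro a b ha hb k hk
    rw [smul_add, ha k hk, hb k hk]
  zero_mem' := fun k _ => smul_zero k
  neg_mem' := by
    intro a ha k hk
    rw [smul_neg, ha k hk]

theorem mem_fx {K : Subgroup H} {v : E} : v ∈ fx E K ↔ ∀ k ∈ K, k • v = v := Iff.rfl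

/-- The trace of the subgroup `K` on `E`. -/
noncomputable def tr (K : Subgroup H) (v : E) : E := ∑ᶠ k : K, (k : H) • v

/-- The subgroups of `A` that are maximal among those with a fixed point `≠ 0`. -/
def Kk (E : Type*) [AddCommGroup E] [DistribMulAction H E] (A : Subgroup H) : Set (Subgroup H) :=
  {K | K ≤ A ∧ fx E K ≠ ⊥ ∧ ∀ K' : Subgroup H, K < K' → K' ≤ A → fx E K' = ⊥}

/-- The support of `v`. -/
def supp (A : Subgroup H) (v : E) : Set (Kk E A) := {K | tr (K : Subgroup H) v ≠ 0}

/-- `E` is an irreducible `H`-module. -/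
def Irr (H E : Type*) [Group H] [AddCommGroup E] [DistribMulAction H E] : Prop :=
  ∀ U : AddSubgroup E, (∀ (h : H), ∀ u ∈ U, h • u ∈ U) → U = ⊥ ∨ U = ⊤

/-- `H` acts faithfully on `E`. -/
def Fth (H E : Type*) [Group H] [AddCommGroup E] [DistribMulAction H E] : Prop :=
  ∀ h : H, (∀ v : E, h • v = v) → h = 1

end

end Pool.Agent.Fah
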