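import Pool.Agent.Fah.Main
import Pool.Agent.Prb.Cnt

/-!
# The primes are bounded by the composition factors
-/

set_option autoImplicit false

namespace Pool.Agent.Fah

open Pool.Agent.EgO (Ah AltFactor main_count exists_m_count)

/-- The prime divisors of a rational group are bounded by a power with exponent the largest prime of a nonabelian factor. -/
def PB (K : ℕ) : Prop := ∀ (G : Type) [Group G] [Finite G] (N : ℕ), 5 ≤ N →
  (∀ (g : G) (k : ℕ), k.Coprime (orderOf g) → IsConj g (g ^ k)) →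
  (∀ (K L S : Subgroup G) [K.Normal] [L.Normal], K ≤ S → S ≤ L → (∀ l ∈ L, ∀ s ∈ S, l * s * l⁻¹ ∈ S) →
    IsSimpleGroup (S ⧸ K.subgroupOf S) → (∃ s t : S ⧸ K.subgroupOf S, s * t ≠ t * s) →
    ∀ p : ℕ, p.Prime → p ∣ Nat.card (S ⧸ K.subgroupOf S) → p ≤ N) →
  ∀ r : ℕ, r.Prime → r ∣ Nat.card G → r ≤ K ^ N

-- BEGIN dxp
theorem dxp_poly (c : ℕ) : ∃ x₀ : ℕ, ∀ x : ℕ, x₀ ≤ x → 64 * 2 ^ (c + 1) * x ^ 3 ≤ 2 ^ x := by
  have h1 := tendsto_pow_const_div_const_pow_of_one_lt 3 (by norm_num : (1 : ℝ) < 2)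
  have hpos : (0 : ℝ) < 1 / (64 * 2 ^ (c + 1)) := by positivity
  obtain ⟨x₀, hx⟩ := Filter.eventually_atTop.1 (h1.eventually (gt_mem_nhds hpos))
  refine ⟨x₀, fun x h => ?_⟩
  have h2 := hx x h
  have h3 : (0 : ℝ) < 2 ^ x := by positivity
  rw [div_lt_div_iff₀ h3 (by positivity)] at h2
  have h4 : ((64 * 2 ^ (c + 1) * x ^ 3 : ℕ) : ℝ) ≤ ((2 ^ x : ℕ) : ℝ) := by
    push_cast
    nlinarith
  exact_mod_cast h4

/-- PROOF. `s = Nat.sqrt (m / Nat.log 2 m) / 8` satisfies `2 ^ s ≥ m * (Nat.log 2 K + 1)` for large `m` (`Nat.log 2 m ≤ m ^ (1/3)`, so `s ≥ m ^ (1/3) / 8 - 2` for large `m`, and an exponential beats a polynomial), and `K ^ m ≤ 2 ^ (m * (Nat.log 2 K + 1))`. -/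
theorem double_exp (K : ℕ) : ∃ m₀ : ℕ, ∀ m : ℕ, m₀ ≤ m → K ^ m ≤ 2 ^ 2 ^ (Nat.sqrt (m / Nat.log 2 m) / 8) := by
  obtain ⟨c, hc⟩ : ∃ c, c = Nat.log 2 K + 1 := ⟨_, rfl⟩
  obtain ⟨x₀, hx⟩ := dxp_poly c
  refine ⟨2 ^ (x₀ + 1), fun m hm => ?_⟩
  obtain ⟨t, ht⟩ : ∃ t, t = Nat.log 2 m := ⟨_, rfl⟩
  have hm0 : m ≠ 0 := by
    have : 0 < 2 ^ (x₀ + 1) := by positivity
    omega
  have ht1 : x₀ + 1 ≤ t := by
    rw [ht]
    exact Nat.le_log_of_pow_le (by norm_num) hm
  have ht2 : 2 ^ t ≤ m := by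
    rw [ht]
    exact Nat.pow_log_le_self 2 hm0
  have ht3 : m < 2 ^ (t + 1) := by
    rw [ht]
    exact Nat.lt_pow_succ_log_self (by norm_num) m
  have h1 := hx (t + 1 + c) (by omega)
  have h2 : 64 * (t + 1 + c) ^ 3 ≤ 2 ^ t := by
    have h3 : 2 ^ (t + 1 + c) = 2 ^ (c + 1) * 2 ^ t := by
      rw [← pow_add]
      congr 1
      omega
    rw [h3] at h1
    have h4 : 0 < 2 ^ (c + 1) := by positivity
    nlinarith
  have hs : t + 1 + c ≤ Nat.sqrt (m / t) / 8 := by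
    rw [Nat.le_div_iff_mul_le (by norm_num), Nat.le_sqrt, Nat.le_div_iff_mul_le (by omega)]
    calc (t + 1 + c) * 8 * ((t + 1 + c) * 8) * t = 64 * ((t + 1 + c) ^ 2 * t) := by ring
      _ ≤ 64 * ((t + 1 + c) ^ 2 * (t + 1 + c)) := by gcongr; omega
      _ = 64 * (t + 1 + c) ^ 3 := by ring
      _ ≤ 2 ^ t := h2
      _ ≤ m := ht2
  rw [← ht]
  have hK : K ≤ 2 ^ c := by
    rw [hc]
    exact (Nat.lt_pow_succ_log_self (by norm_num) K).le
  calc K ^ m ≤ (2 ^ c) ^ m := Nat.pow_le_pow_left hK m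
    _ = 2 ^ (c * m) := by rw [pow_mul]
    _ ≤ 2 ^ 2 ^ (Nat.sqrt (m / t) / 8) := by
      refine Nat.pow_le_pow_right (by norm_num) ?_
      calc c * m ≤ 2 ^ c * 2 ^ (t + 1) := Nat.mul_le_mul Nat.lt_two_pow_self.le ht3.le
        _ = 2 ^ (t + 1 + c) := by rw [← pow_add]; congr 1; omega
        _ ≤ _ := Nat.pow_le_pow_right (by norm_num) hs
-- END dxp

theorem cent_class {G : Type} [Group G] [Finite G] (g : G) :
    Nat.card (ConjClasses.mk g).carrier * Nat.card (Subgroup.centralizer {g}) = Nat.card G := by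
  have h := Nat.card_congr (MulAction.orbitProdStabilizerEquivGroup (ConjAct G) g)
  rw [Nat.card_prod, ConjAct.orbit_eq_carrier_conjClasses] at h
  rw [Subgroup.nat_card_centralizer_nat_card_stabilizer, h]
  exact Nat.card_congr ConjAct.ofConjAct.toEquiv

theorem rational_of_ah {G : Type} [Group G] [Finite G] (hG : Ah G) (g : G) (k : ℕ) (hk : k.Coprime (orderOf g)) :
    IsConj g (g ^ k) := by
  rw [← ConjClasses.mk_eq_mk_iff_isConj]
  apply hG
  have h1 : (Subgroup.centralizer {g ^ k} : Subgroup G) = Subgroup.centralizer {g} := by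
    ext x
    rw [Subgroup.mem_centralizer_singleton_iff, Subgroup.mem_centralizer_singleton_iff]
    constructor
    · intro h
      have h2 : Commute x (g ^ k) := h
      obtain ⟨m, hm⟩ := exists_pow_eq_self_of_coprime hk
      have h3 : Commute x ((g ^ k) ^ m) := h2.pow_right m
      rw [hm] at h3
      exact h3
    · intro h
      exact (show Commute x g from h).pow_right k
  have h2 := cent_class g
  have h3 := cent_class (g ^ k)
  rw [h1] at h3
  exact Nat.eq_of_mul_eq_mul_right Nat.card_pos (h2.trans h3.symm)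

theorem deg_le {G : Type} [Group G] [Finite G] {n : ℕ} (hn : 5 ≤ n) (h : AltFactor G n) : n ≤ Nat.card G + 2 := by
  obtain ⟨K, L, S, hK, -, -, -, -, ⟨e⟩⟩ := h
  have h3 : Nat.card (alternatingGroup (Fin n)) ≤ Nat.card G := by
    rw [← Nat.card_congr e.toEquiv]
    exact (Nat.le_of_dvd Nat.card_pos (Subgroup.card_quotient_dvd_card _)).trans (Subgroup.card_le_card_group S)
  have h4 : 2 * Nat.card (alternatingGroup (Fin n)) = n.factorial := by
    have : Nontrivial (Fin n) := Fin.nontrivial_iff_two_le.2 (by omega)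
    rw [two_mul_nat_card_alternatingGroup, Nat.card_perm, Nat.card_fin]
  have h6 : n * (n - 1) ≤ n.factorial := by
    obtain ⟨m, rfl⟩ : ∃ m, n = m + 2 := ⟨n - 2, by omega⟩
    rw [Nat.factorial_succ, Nat.factorial_succ]
    have := Nat.factorial_pos m
    calc (m + 2) * (m + 2 - 1) = (m + 1 + 1) * ((m + 1) * 1) := by simp
      _ ≤ (m + 1 + 1) * ((m + 1) * m.factorial) := by gcongr; omega
  obtain ⟨m, rfl⟩ : ∃ m, n = m + 5 := ⟨n - 5, by omega⟩
  simp only [show m + 5 - 1 = m + 4 by omega] at h6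
  nlinarith

theorem prime_alt {n p : ℕ} (hp : p.Prime) (h : p ∣ Nat.card (alternatingGroup (Fin n))) : p ≤ n := by
  have h1 : p ∣ Nat.card (Equiv.Perm (Fin n)) := h.trans (Subgroup.card_subgroup_dvd_card _)
  rw [Nat.card_perm, Nat.card_fin] at h1
  exact (hp.dvd_factorial).1 h1

theorem drop {K : ℕ} (hP : PB K) (B : ℕ) : ∃ C : ℕ, ∀ (G : Type) [Group G] [Finite G], Ah G →
    (∀ (K L S : Subgroup G) [K.Normal] [L.Normal], K ≤ S → S ≤ L → (∀ l ∈ L, ∀ s ∈ S, l * s * l⁻¹ ∈ S) →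
      IsSimpleGroup (S ⧸ K.subgroupOf S) → (∃ s t : S ⧸ K.subgroupOf S, s * t ≠ t * s) →
      Nat.card (S ⧸ K.subgroupOf S) ≤ B ∨ ∃ n, Nonempty (S ⧸ K.subgroupOf S ≃* alternatingGroup (Fin n))) →
    Nat.card G ≤ C := by
  obtain ⟨m₀, hm₀⟩ := double_exp K
  obtain ⟨M, hM⟩ : ∃ M, M = max (max m₀ (2 ^ 17)) B := ⟨_, rfl⟩
  have hM1 : m₀ ≤ M := by rw [hM]; exact (le_max_left _ _).trans (le_max_left _ _)
  have hM2 : 2 ^ 17 ≤ M := by rw [hM]; exact (le_max_right _ _).trans (le_max_left _ _)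
  have hM3 : B ≤ M := by rw [hM]; exact le_max_right _ _
  have hM5 : 5 ≤ M := le_trans (by norm_num) hM2
  obtain ⟨C, hC⟩ := main (max M (K ^ M))
  refine ⟨C, fun G _ _ hG hii => ?_⟩
  -- the primes are at most K ^ m if all the degrees are at most m
  have hpr : ∀ m, M ≤ m → (∀ n, AltFactor G n → n ≤ m) → ∀ r : ℕ, r.Prime → r ∣ Nat.card G → r ≤ K ^ m := by
    intro m hm hmax
    refine hP G m (hM5.trans hm) (rational_of_ah hG) ?_
    intro K' L S hK' hL hKS hSL hS hsim hna p hp hpd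
    rcases hii K' L S hKS hSL hS hsim hna with h | ⟨n, ⟨e⟩⟩
    · exact (Nat.le_of_dvd Nat.card_pos hpd).trans (h.trans (hM3.trans hm))
    · rw [Nat.card_congr e.toEquiv] at hpd
      exact (prime_alt hp hpd).trans (hmax n ⟨K', L, S, hK', hL, hKS, hSL, hS, ⟨e⟩⟩)
  -- the degrees are at most M
  have hdeg : ∀ n, AltFactor G n → n ≤ M := by
    by_contra hcon
    push Not at hcon
    obtain ⟨n₀, h1, h2⟩ := hcon
    obtain ⟨m, hm, hmax⟩ : ∃ n, (M ≤ n ∧ AltFactor G n) ∧ ∀ m, M ≤ m ∧ AltFactor G m → m ≤ n := by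
      have hfin : Set.Finite {m | M ≤ m ∧ AltFactor G m} :=
        (Set.finite_Iic (Nat.card G + 2)).subset fun m hm => deg_le (hM5.trans hm.1) hm.2
      obtain ⟨n, hn, hmax⟩ := Set.exists_max_image _ id hfin ⟨n₀, h2.le, h1⟩
      exact ⟨n, hn, hmax⟩
    have h3 := hpr m hm.1 (fun n hn => by
      rcases Nat.lt_or_ge n M with h | h
      · exact h.le.trans hm.1
      · exact hmax n ⟨h, hn⟩)
    have h4 := main_count hG (by have := hM2.trans hm.1; norm_num at this; omega) (by positivity) hm.2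
      (exists_m_count (hM2.trans hm.1))
    have h5 : (Nat.card G).primeFactors ⊆ Finset.Icc 1 (K ^ m) := by
      intro r hr
      have hrp := Nat.prime_of_mem_primeFactors hr
      exact Finset.mem_Icc.2 ⟨hrp.one_le, h3 r hrp (Nat.dvd_of_mem_primeFactors hr)⟩
    have h6 := Finset.card_le_card h5
    rw [Nat.card_Icc, Nat.add_sub_cancel] at h6
    have h7 := hm₀ m (hM1.trans hm.1)
    omega
  refine hC G hG ?_ ?_
  · intro p hp hpd
    exact Or.inl ((hpr M le_rfl hdeg p hp hpd).trans (le_max_right _ _))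
  · intro K' L S hK' hL hKS hSL hS hsim hna
    rcases hii K' L S hKS hSL hS hsim hna with h | h
    · exact Or.inl (h.trans (hM3.trans (le_max_left _ _)))
    · exact Or.inr h

theorem pb : PB (2 ^ 56) := by
  intro G _ _ N hN hrat hsec r hr hd
  have h1 := Prb.prime_bound (G := G) (N := N) (fun x k hk => isConj_iff.1 (hrat x k hk)) hN
    (fun K S L _ _ hKS hSL hS hsim hna => hsec K L S hKS hSL hS hsim hna) hr hd
  calc r ≤ 2 ^ (28 * (N + 1)) := h1
    _ ≤ 2 ^ (56 * N) := Nat.pow_le_pow_right (by norm_num) (by omega)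
    _ = (2 ^ 56) ^ N := by rw [pow_mul]

/-- For every `B` the orders of the groups with distinct class sizes whose nonabelian composition factors are alternating or of order at most `B` are
bounded. -/
theorem finitely_many (B : ℕ) : ∃ C : ℕ, ∀ (G : Type) [Group G] [Finite G], Ah G →
    (∀ (K L S : Subgroup G) [K.Normal] [L.Normal], K ≤ S → S ≤ L → (∀ l ∈ L, ∀ s ∈ S, l * s * l⁻¹ ∈ S) →
      IsSimpleGroup (S ⧸ K.subgroupOf S) → (∃ s t : S ⧸ K.subgroupOf S, s * t ≠ t * s) →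
      Nat.card (S ⧸ K.subgroupOf S) ≤ B ∨ ∃ n, Nonempty (S ⧸ K.subgroupOf S ≃* alternatingGroup (Fin n))) →
    Nat.card G ≤ C := drop pb B

end Pool.Agent.Fah
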