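import Pool.Agent.Fah.Drop

/-!
# Explicit constants: the sum of the reciprocals of the smooth numbers
-/

set_option autoImplicit false

namespace Pool.Agent.Fah

/-- The constant of Rankin's bound. -/
@[irreducible] def kr (B : ℕ) : ℕ := 2 ^ (B + 2)

/-- The exponent of the tails. -/
@[irreducible] def ex (B : ℕ) : ℕ := 2 ^ (kr B + 4)

/-- The sum of the reciprocals of the `B`-smooth numbers above `tl B D` is less than `1 / D`. -/
@[irreducible] def tl (B D : ℕ) : ℕ := 2 ^ (ex B * (Nat.log 2 D + 3))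

theorem kr_pos (B : ℕ) : 0 < kr B := by
  rw [kr]
  exact Nat.two_pow_pos _

theorem tl_pos (B D : ℕ) : 0 < tl B D := by
  rw [tl]
  exact Nat.two_pow_pos _

theorem rankin' (B w : ℕ) (s : Finset ℕ)
    (hs : ∀ d ∈ s, 0 < d ∧ ∀ p : ℕ, p.Prime → p ∣ d → p ≤ B) :
    ∑ d ∈ s, ((min w d : ℕ) : ℚ) / d ≤ (kr B : ℕ) * (Nat.log 2 w + 1 : ℕ) ^ kr B := by
  rw [kr]
  obtain ⟨t, ht⟩ : ∃ t, t = Nat.log 2 w + 1 := ⟨_, rfl⟩
  rw [← ht]
  have ht1 : 1 ≤ t := by omega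
  have hwt : w < 2 ^ t := by
    rw [ht]
    exact Nat.lt_pow_succ_log_self (by norm_num) w
  have htR : (1 : ℝ) ≤ (t : ℝ) := by exact_mod_cast ht1
  have ht0 : (0 : ℝ) < (t : ℝ) := by linarith
  obtain ⟨r, hr⟩ : ∃ r : ℝ, r = 1 - 1 / (2 * t) := ⟨_, rfl⟩
  have h2t : (0 : ℝ) < 1 / (2 * t) := by positivity
  have h2t' : 1 / (2 * (t : ℝ)) ≤ 1 / 2 := by
    apply one_div_le_one_div_of_le (by norm_num)
    linarith
  have hr0 : 1 / 2 ≤ r := by rw [hr]; linarith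
  have hr1 : r < 1 := by rw [hr]; linarith
  have hrp : 0 ≤ r := by linarith
  have hrt : 1 / 2 ≤ r ^ t := by
    have h := one_add_mul_le_pow (a := -(1 / (2 * (t : ℝ)))) (by linarith) t
    have h3 : (1 : ℝ) + (t : ℝ) * (-(1 / (2 * (t : ℝ)))) = 1 / 2 := by
      field_simp
      ring
    have h4 : (1 + -(1 / (2 * (t : ℝ)))) = r := by rw [hr]; ring
    rw [h3, h4] at h
    exact h
  have hfp : ∀ {p : ℕ}, p.Prime → ‖rnk_f r p‖ < 1 := by
    intro p hp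
    have h1 : rnk_f r p = r := by
      show (if p = 0 then (0 : ℝ) else r ^ ArithmeticFunction.cardFactors p) = r
      rw [if_neg hp.ne_zero, ArithmeticFunction.cardFactors_apply_prime hp, pow_one]
    rw [h1, Real.norm_eq_abs, abs_of_nonneg hrp]
    exact hr1
  obtain ⟨-, h2⟩ := EulerProduct.summable_and_hasSum_smoothNumbers_prod_primesBelow_geometric (f := rnk_f r) hfp (B + 1)
  have h3 : ∏ p ∈ (B + 1).primesBelow, (1 - rnk_f r p)⁻¹ ≤ (2 * (t : ℝ)) ^ (B + 1) := by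
    have h5 : ∏ p ∈ (B + 1).primesBelow, (1 - rnk_f r p)⁻¹ = (2 * (t : ℝ)) ^ (B + 1).primesBelow.card := by
      rw [← Finset.prod_const]
      refine Finset.prod_congr rfl fun p hp => ?_
      have hp' := Nat.prime_of_mem_primesBelow hp
      have h1 : rnk_f r p = r := by
        show (if p = 0 then (0 : ℝ) else r ^ ArithmeticFunction.cardFactors p) = r
        rw [if_neg hp'.ne_zero, ArithmeticFunction.cardFactors_apply_prime hp', pow_one]
      rw [h1, hr]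
      have : (1 : ℝ) - (1 - 1 / (2 * t)) = 1 / (2 * t) := by ring
      rw [this, one_div, inv_inv]
    rw [h5]
    refine pow_le_pow_right₀ (by linarith) ?_
    calc (B + 1).primesBelow.card ≤ (Finset.range (B + 1)).card := Finset.card_le_card (Finset.filter_subset _ _)
      _ = B + 1 := Finset.card_range _
  have hmem : ∀ d ∈ s, d ∈ (B + 1).smoothNumbers := by
    intro d hd
    rw [Nat.mem_smoothNumbers']
    intro p hp hpd
    have := (hs d hd).2 p hp hpd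
    omega
  have hnn : ∀ n : ℕ, 0 ≤ rnk_f r n := by
    intro n
    show 0 ≤ (if n = 0 then (0 : ℝ) else r ^ ArithmeticFunction.cardFactors n)
    split_ifs
    · exact le_rfl
    · positivity
  have h4 : ∑ d ∈ s, rnk_f r d ≤ (2 * (t : ℝ)) ^ (B + 1) := by
    classical
    refine le_trans ?_ h3
    have h6 := sum_le_hasSum (s.subtype (· ∈ (B + 1).smoothNumbers)) (fun i _ => hnn i) h2
    rw [Finset.sum_subtype_of_mem (fun n => rnk_f r n) hmem] at h6
    exact h6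
  have h5 : ∀ d ∈ s, ((min w d : ℕ) : ℝ) / d ≤ 2 * rnk_f r d := by
    intro d hd
    have hd0 := (hs d hd).1
    have hdR : (0 : ℝ) < d := by exact_mod_cast hd0
    have hfd : rnk_f r d = r ^ ArithmeticFunction.cardFactors d := if_neg hd0.ne'
    rw [hfd]
    have h2k := rnk_two_pow hd0
    obtain ⟨k, hk⟩ : ∃ k, k = ArithmeticFunction.cardFactors d := ⟨_, rfl⟩
    rw [← hk] at h2k ⊢
    rcases le_total k t with h | h
    · have h7 : r ^ t ≤ r ^ k := pow_le_pow_of_le_one hrp hr1.le h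
      have h8 : ((min w d : ℕ) : ℝ) / d ≤ 1 := by
        rw [div_le_one hdR]
        exact_mod_cast min_le_right w d
      linarith
    · obtain ⟨j, rfl⟩ := Nat.exists_eq_add_of_le h
      have h9 : (1 / 2 : ℝ) ^ j ≤ r ^ j := pow_le_pow_left₀ (by norm_num) hr0 j
      have h10 : ((min w d : ℕ) : ℝ) / d ≤ (1 / 2 : ℝ) ^ j := by
        rw [div_le_iff₀ hdR]
        have h11 : ((min w d : ℕ) : ℝ) ≤ 2 ^ t := by
          have : min w d ≤ 2 ^ t := (min_le_left w d).trans hwt.le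
          exact_mod_cast this
        have h12 : (2 : ℝ) ^ (t + j) ≤ d := by exact_mod_cast h2k
        have h13 : (1 / 2 : ℝ) ^ j * 2 ^ (t + j) = 2 ^ t := by
          rw [pow_add, one_div, inv_pow]
          field_simp
        calc ((min w d : ℕ) : ℝ) ≤ 2 ^ t := h11
          _ = (1 / 2 : ℝ) ^ j * 2 ^ (t + j) := h13.symm
          _ ≤ (1 / 2 : ℝ) ^ j * d := by gcongr
      have h14 : (1 / 2) * (1 / 2 : ℝ) ^ j ≤ r ^ (t + j) := by
        rw [pow_add]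
        exact mul_le_mul hrt h9 (by positivity) (by positivity)
      linarith
  have h6 : ∑ d ∈ s, ((min w d : ℕ) : ℝ) / d ≤ (2 ^ (B + 2) : ℕ) * (t : ℝ) ^ (2 ^ (B + 2)) := by
    calc ∑ d ∈ s, ((min w d : ℕ) : ℝ) / d ≤ ∑ d ∈ s, 2 * rnk_f r d := Finset.sum_le_sum h5
      _ = 2 * ∑ d ∈ s, rnk_f r d := by rw [Finset.mul_sum]
      _ ≤ 2 * (2 * (t : ℝ)) ^ (B + 1) := by linarith
      _ = 2 ^ (B + 2) * (t : ℝ) ^ (B + 1) := by rw [mul_pow]; ring
      _ ≤ 2 ^ (B + 2) * (t : ℝ) ^ (2 ^ (B + 2)) := by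
        have h7 : B + 1 ≤ 2 ^ (B + 2) := by
          have := Nat.lt_two_pow_self (n := B + 2)
          omega
        have h8 : (t : ℝ) ^ (B + 1) ≤ (t : ℝ) ^ (2 ^ (B + 2)) := pow_le_pow_right₀ htR h7
        gcongr
      _ = _ := by push_cast; rfl
  have h7 : ((∑ d ∈ s, ((min w d : ℕ) : ℚ) / d : ℚ) : ℝ) ≤ (((2 ^ (B + 2) : ℕ) * (t : ℚ) ^ (2 ^ (B + 2)) : ℚ) : ℝ) := by
    push_cast
    push_cast at h6
    exact h6
  exact_mod_cast h7

theorem num1 (K : ℕ) : K ^ 2 + 6 * K + 8 ≤ 2 ^ (K + 4) := by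
  induction K with
  | zero => norm_num
  | succ K ih =>
      have h : 2 ^ (K + 1 + 4) = 2 * 2 ^ (K + 4) := by ring
      rw [h]
      nlinarith

theorem num2 (K D : ℕ) : K * (2 ^ (K + 4) * (Nat.log 2 D + 3) + 1) ^ K * D < 2 ^ (2 ^ (K + 4) * (Nat.log 2 D + 3)) := by
  obtain ⟨v, hv⟩ : ∃ v, v = Nat.log 2 D + 3 := ⟨_, rfl⟩
  rw [← hv]
  have hD : D < 2 ^ v := by
    calc D < 2 ^ (Nat.log 2 D + 1) := Nat.lt_pow_succ_log_self (by norm_num) D
      _ ≤ 2 ^ v := Nat.pow_le_pow_right (by norm_num) (by omega)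
  have hv1 : 3 ≤ v := by omega
  have h1 : 2 ^ (K + 4) * v + 1 ≤ 2 ^ (K + 4 + v) := by
    have h2 : v + 1 ≤ 2 ^ v := Nat.lt_two_pow_self
    have h3 : 1 ≤ 2 ^ (K + 4) := Nat.one_le_two_pow
    rw [pow_add _ (K + 4) v]
    nlinarith
  calc K * (2 ^ (K + 4) * v + 1) ^ K * D ≤ 2 ^ K * (2 ^ (K + 4 + v)) ^ K * D := by
        refine Nat.mul_le_mul_right _ (Nat.mul_le_mul Nat.lt_two_pow_self.le (Nat.pow_le_pow_left h1 K))
    _ < 2 ^ K * (2 ^ (K + 4 + v)) ^ K * 2 ^ v := Nat.mul_lt_mul_of_pos_left hD (by positivity)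
    _ = 2 ^ (K + (K + 4 + v) * K + v) := by rw [← pow_mul, ← pow_add, ← pow_add]
    _ ≤ 2 ^ (2 ^ (K + 4) * v) := by
      refine Nat.pow_le_pow_right (by norm_num) ?_
      have h4 := num1 K
      calc K + (K + 4 + v) * K + v ≤ (K ^ 2 + 6 * K + 1) * v := by nlinarith [Nat.zero_le (K * v), Nat.zero_le (K ^ 2 * v), Nat.mul_le_mul_left K hv1, Nat.mul_le_mul_left (K ^ 2) hv1]
        _ ≤ 2 ^ (K + 4) * v := Nat.mul_le_mul_right _ (by omega)

theorem tail' (B D : ℕ) (hD : 0 < D) (s : Finset ℕ) (hs : ∀ c ∈ s, tl B D < c ∧ ∀ p : ℕ, p.Prime → p ∣ c → p ≤ B) :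
    ∑ c ∈ s, (1 : ℚ) / c < 1 / D := by
  have h1 := rankin' B (tl B D) s (fun d hd => ⟨by have := (hs d hd).1; omega, (hs d hd).2⟩)
  have h2 : ∑ d ∈ s, ((min (tl B D) d : ℕ) : ℚ) / d = tl B D * ∑ c ∈ s, (1 : ℚ) / c := by
    rw [Finset.mul_sum]
    refine Finset.sum_congr rfl fun d hd => ?_
    rw [min_eq_left (hs d hd).1.le]
    ring
  rw [h2] at h1
  have h3 : Nat.log 2 (tl B D) = ex B * (Nat.log 2 D + 3) := by
    rw [tl]
    exact Nat.log_pow (by norm_num) _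
  rw [h3] at h1
  have h4 : kr B * (ex B * (Nat.log 2 D + 3) + 1) ^ kr B * D < tl B D := by
    rw [tl, ex]
    exact num2 (kr B) D
  have h5 : ((kr B : ℕ) : ℚ) * ((ex B * (Nat.log 2 D + 3) + 1 : ℕ) : ℚ) ^ kr B * D < tl B D := by exact_mod_cast h4
  have hDq : (0 : ℚ) < D := by exact_mod_cast hD
  have hT : (0 : ℚ) < tl B D := by exact_mod_cast tl_pos B D
  rw [lt_div_iff₀ hDq]
  have h6 : (tl B D : ℚ) * ((∑ c ∈ s, (1 : ℚ) / c) * D) < tl B D * 1 := by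
    calc (tl B D : ℚ) * ((∑ c ∈ s, (1 : ℚ) / c) * D) = (tl B D * ∑ c ∈ s, (1 : ℚ) / c) * D := by ring
      _ ≤ ((kr B : ℕ) : ℚ) * ((ex B * (Nat.log 2 D + 3) + 1 : ℕ) : ℚ) ^ kr B * D := mul_le_mul_of_nonneg_right h1 hDq.le
      _ < tl B D := h5
      _ = tl B D * 1 := (mul_one _).symm
  exact lt_of_mul_lt_mul_left h6 hT.le

end Pool.Agent.Fah
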