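import Pool.Agent.Fah.E1

/-!
# Explicit constants: counting with distinct centralizer orders; the index of the solvable radical
-/

set_option autoImplicit false

namespace Pool.Agent.Fah

open Pool.Agent.Bdt (der cj mem_cj cj_one cj_mul orb cent_quot exists_rad sec_equiv MinN Fac)
open Pool.Agent.EgO (Ah AltFactor cent main_sec exists_m)

theorem step' (B c : ℕ) (hc : 0 < c) {G : Type} [Group G] [Finite G] (hG : Ah G)
    (hp : ∀ p : ℕ, p.Prime → p ∣ Nat.card G → p ≤ B) (A : Subgroup G) (hA : A.Normal) (hAc : A.index ≤ c) :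
    (⁅A, A⁆ : Subgroup G).relIndex A ≤ 2 * c * tl B (2 * c) := by
  classical
  have hcq : (0 : ℚ) < c := by exact_mod_cast hc
  obtain ⟨X, hXd⟩ : ∃ X, X = tl B (2 * c) := ⟨_, rfl⟩
  have hX : ∀ s : Finset ℕ, (∀ c ∈ s, X < c ∧ ∀ p : ℕ, p.Prime → p ∣ c → p ≤ B) → ∑ c ∈ s, (1 : ℚ) / c < 1 / (2 * c) := by
    intro s hs
    rw [hXd] at hs
    have := tail' B (2 * c) (by omega) s hs
    push_cast at this
    exact this
  rw [← hXd]
  have : Fintype G := Fintype.ofFinite G
  obtain ⟨w, hw⟩ : ∃ w, w = (⁅A, A⁆ : Subgroup G).relIndex A := ⟨_, rfl⟩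
  rw [← hw]
  have h1 := orb A
  rw [← hw] at h1
  have h2 := csum hG (fun d => (min w d : ℕ)) (fun d => by positivity)
  have h3 : ((Nat.card A * w : ℕ) : ℚ) ≤ ((∑ g : G, min w (Nat.card (Subgroup.centralizer {g})) : ℕ) : ℚ) := by
    exact_mod_cast h1
  rw [Nat.cast_sum] at h3
  have h4 := h3.trans h2
  -- the sum over the divisors
  have h5 : ∑ d ∈ (Nat.card G).divisors, ((min w d : ℕ) : ℚ) / d ≤ X + w * (1 / (2 * c)) := by
    rw [← Finset.sum_filter_add_sum_filter_not _ (fun d => d ≤ X)]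
    refine add_le_add ?_ ?_
    · calc ∑ d ∈ (Nat.card G).divisors.filter (fun d => d ≤ X), ((min w d : ℕ) : ℚ) / d
          ≤ ∑ d ∈ (Nat.card G).divisors.filter (fun d => d ≤ X), (1 : ℚ) := by
            refine Finset.sum_le_sum fun d hd => ?_
            have hd0 : 0 < d := Nat.pos_of_mem_divisors (Finset.mem_filter.1 hd).1
            have hdq : (0 : ℚ) < d := by exact_mod_cast hd0
            rw [div_le_one hdq]
            exact_mod_cast min_le_right w d
        _ ≤ ∑ d ∈ Finset.Icc 1 X, (1 : ℚ) := by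
            refine Finset.sum_le_sum_of_subset_of_nonneg ?_ fun _ _ _ => by norm_num
            intro d hd
            have hd0 : 0 < d := Nat.pos_of_mem_divisors (Finset.mem_filter.1 hd).1
            exact Finset.mem_Icc.2 ⟨hd0, (Finset.mem_filter.1 hd).2⟩
        _ = X := by simp
    · calc ∑ d ∈ (Nat.card G).divisors.filter (fun d => ¬ d ≤ X), ((min w d : ℕ) : ℚ) / d
          ≤ ∑ d ∈ (Nat.card G).divisors.filter (fun d => ¬ d ≤ X), (w : ℚ) * (1 / d) := by
            refine Finset.sum_le_sum fun d hd => ?_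
            rw [mul_one_div]
            have : ((min w d : ℕ) : ℚ) ≤ w := by exact_mod_cast min_le_left w d
            exact div_le_div_of_nonneg_right this (by positivity)
        _ = w * ∑ d ∈ (Nat.card G).divisors.filter (fun d => ¬ d ≤ X), (1 : ℚ) / d := by rw [Finset.mul_sum]
        _ ≤ w * (1 / (2 * c)) := by
            refine mul_le_mul_of_nonneg_left (le_of_lt (hX _ ?_)) (by positivity)
            intro d hd
            rw [Finset.mem_filter] at hd
            exact ⟨not_le.1 hd.2, fun p hpp hpd => hp p hpp (hpd.trans (Nat.dvd_of_mem_divisors hd.1))⟩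
  have h6 : Nat.card A * A.index = Nat.card G := Subgroup.card_mul_index A
  have hA0 : (0 : ℚ) < Nat.card A := by exact_mod_cast Nat.card_pos
  have h7 : (Nat.card G : ℚ) ≤ Nat.card A * c := by
    rw [← h6]
    push_cast
    exact mul_le_mul_of_nonneg_left (by exact_mod_cast hAc) hA0.le
  have h8 : ((Nat.card A * w : ℕ) : ℚ) ≤ Nat.card A * (c * (X + w * (1 / (2 * c)))) := by
    refine h4.trans ((mul_le_mul_of_nonneg_left h5 (by positivity)).trans ?_)
    rw [← mul_assoc]
    exact mul_le_mul_of_nonneg_right h7 (by positivity)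
  rw [Nat.cast_mul] at h8
  have h9 : (w : ℚ) ≤ c * (X + w * (1 / (2 * c))) := le_of_mul_le_mul_left h8 hA0
  have h10 : (c : ℚ) * (X + w * (1 / (2 * c))) = c * X + w / 2 := by
    field_simp
  rw [h10] at h9
  have h11 : (w : ℚ) ≤ 2 * c * X := by linarith
  exact_mod_cast h11

theorem iter' (B e l : ℕ) {G : Type} [Group G] [Finite G] (hG : Ah G)
    (hp : ∀ p : ℕ, p.Prime → p ∣ Nat.card G → p ≤ B) (R : Subgroup G) (hR : R.Normal) (hRi : R.index ≤ 2 ^ e) :
    (der R l).index ≤ 2 ^ ((ex B + 8) ^ l * (e + 8)) := by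
  have key : ∀ l : ℕ, ∃ f : ℕ, f + 8 ≤ (ex B + 8) ^ l * (e + 8) ∧ (der R l).index ≤ 2 ^ f := by
    intro l
    induction l with
    | zero => exact ⟨e, by simp, hRi⟩
    | succ l ih =>
        obtain ⟨f, hf, hi⟩ := ih
        refine ⟨(ex B + 2) * f + 4 * ex B + 1, ?_, ?_⟩
        · calc (ex B + 2) * f + 4 * ex B + 1 + 8 ≤ (ex B + 8) * (f + 8) := by nlinarith [Nat.zero_le (ex B * f)]
            _ ≤ (ex B + 8) * ((ex B + 8) ^ l * (e + 8)) := Nat.mul_le_mul_left _ hf
            _ = (ex B + 8) ^ (l + 1) * (e + 8) := by ring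
        · have h2 := step' B (2 ^ f) (by positivity) hG hp (der R l) (der_normal hR l) hi
          have h3 : (der R (l + 1)) ≤ der R l := by
            have := der_normal hR l
            exact Subgroup.commutator_le_left _ _
          have h4 := Subgroup.relIndex_mul_index h3
          have h5 : tl B (2 * 2 ^ f) = 2 ^ (ex B * (f + 1 + 3)) := by
            rw [tl, ← pow_succ' 2 f, Nat.log_pow (by norm_num)]
          rw [← h4]
          calc (der R (l + 1)).relIndex (der R l) * (der R l).index ≤ 2 * 2 ^ f * tl B (2 * 2 ^ f) * 2 ^ f :=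
                Nat.mul_le_mul h2 hi
            _ = 2 ^ ((ex B + 2) * f + 4 * ex B + 1) := by
              rw [h5, ← pow_succ', ← pow_add, ← pow_add]
              congr 1
              ring
  obtain ⟨f, hf, hi⟩ := key l
  exact hi.trans (Nat.pow_le_pow_right (by norm_num) (by omega))

theorem few' (B D : ℕ) (hD : 0 < D) {G : Type} [Group G] [Finite G] (hG : Ah G)
    (hp : ∀ p : ℕ, p.Prime → p ∣ Nat.card G → p ≤ B) :
    (Nat.card {g : G // tl B D < Nat.card (Subgroup.centralizer {g})} : ℚ) < Nat.card G * (1 / D) := by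
  classical
  have h1 := cent hG {d | tl B D < d}
  refine lt_of_le_of_lt h1 ?_
  have h4 : (0 : ℚ) < Nat.card G := by exact_mod_cast Nat.card_pos
  refine mul_lt_mul_of_pos_left (tail' B D hD _ ?_) h4
  intro d hd
  rw [Finset.mem_filter] at hd
  exact ⟨hd.2, fun p hpp hpd => hp p hpp (hpd.trans (Nat.dvd_of_mem_divisors hd.1))⟩

/-- At least half of the elements have order at most a constant. -/
theorem half' (B : ℕ) {G : Type} [Group G] [Finite G] (hG : Ah G)
    (hp : ∀ p : ℕ, p.Prime → p ∣ Nat.card G → p ≤ B) : Nat.card G ≤ 2 * Nat.card {g : G // orderOf g ≤ tl B 2} := by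
  classical
  have h1 := few' B 2 (by norm_num) hG hp
  obtain ⟨X₀, hX⟩ : ∃ X, X = tl B 2 := ⟨_, rfl⟩
  rw [← hX] at h1 ⊢
  have h2 : Nat.card {g : G // X₀ < Nat.card (Subgroup.centralizer {g})} +
      Nat.card {g : G // ¬ X₀ < Nat.card (Subgroup.centralizer {g})} = Nat.card G := by
    rw [← Nat.card_sum]
    exact Nat.card_congr (Equiv.sumCompl _)
  have h3 : Nat.card {g : G // ¬ X₀ < Nat.card (Subgroup.centralizer {g})} ≤ Nat.card {g : G // orderOf g ≤ X₀} := by
    refine Nat.card_le_card_of_injective (fun g => ⟨g, ?_⟩) ?_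
    · exact (order_le (g : G)).trans (not_lt.1 g.2)
    · intro a b hab
      have h9 := congrArg Subtype.val hab
      exact Subtype.ext h9
  have h4 : (Nat.card {g : G // X₀ < Nat.card (Subgroup.centralizer {g})} : ℚ) +
      Nat.card {g : G // ¬ X₀ < Nat.card (Subgroup.centralizer {g})} = Nat.card G := by exact_mod_cast h2
  have h5 : (Nat.card {g : G // ¬ X₀ < Nat.card (Subgroup.centralizer {g})} : ℚ) ≤
      Nat.card {g : G // orderOf g ≤ X₀} := by exact_mod_cast h3
  have h6 : (Nat.card G : ℚ) ≤ 2 * Nat.card {g : G // orderOf g ≤ X₀} := by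
    push_cast at h1
    linarith
  exact_mod_cast h6

/-- The average of `min w |C(g)|` is at most a power of `log w`. -/
theorem sum_min' (B : ℕ) {G : Type} [Group G] [Fintype G] (hG : Ah G)
    (hp : ∀ p : ℕ, p.Prime → p ∣ Nat.card G → p ≤ B) (w : ℕ) :
      ∑ g : G, min w (Nat.card (Subgroup.centralizer {g})) ≤ Nat.card G * (kr B * (Nat.log 2 w + 1) ^ kr B) := by
  have hG0 : (0 : ℚ) < Nat.card G := by exact_mod_cast Nat.card_pos
  have h1 := csum hG (fun d => (min w d : ℕ)) (fun d => by positivity)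
  have h2 := rankin' B w (Nat.card G).divisors (fun d hd =>
    ⟨Nat.pos_of_mem_divisors hd, fun p hpp hpd => hp p hpp (hpd.trans (Nat.dvd_of_mem_divisors hd))⟩)
  have h3 := h1.trans (mul_le_mul_of_nonneg_left h2 hG0.le)
  have h4 : ((∑ g : G, min w (Nat.card (Subgroup.centralizer {g})) : ℕ) : ℚ) ≤
      ((Nat.card G * (kr B * (Nat.log 2 w + 1) ^ kr B) : ℕ) : ℚ) := by
    push_cast at h3 ⊢
    exact h3
  exact_mod_cast h4

theorem ngr' (C c q : ℕ) (h : 2 ^ q ≤ C * (q + 1) ^ c) : q < 2 ^ (Nat.log 2 C + c + 7) := by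
  obtain ⟨u, hu⟩ : ∃ u, u = Nat.log 2 (q + 1) := ⟨_, rfl⟩
  obtain ⟨L, hL⟩ : ∃ L, L = Nat.log 2 C := ⟨_, rfl⟩
  rw [← hL]
  have h1 : q + 1 < 2 ^ (u + 1) := by
    rw [hu]
    exact Nat.lt_pow_succ_log_self (by norm_num) _
  have h2 : 2 ^ u ≤ q + 1 := by
    rw [hu]
    exact Nat.pow_log_le_self 2 (by omega)
  have h3 : C < 2 ^ (L + 1) := by
    rw [hL]
    exact Nat.lt_pow_succ_log_self (by norm_num) _
  have h4 : 2 ^ q ≤ 2 ^ (L + 1 + (u + 1) * c) := by
    calc 2 ^ q ≤ C * (q + 1) ^ c := h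
      _ ≤ 2 ^ (L + 1) * (2 ^ (u + 1)) ^ c := Nat.mul_le_mul h3.le (Nat.pow_le_pow_left h1.le c)
      _ = 2 ^ (L + 1 + (u + 1) * c) := by rw [← pow_mul, ← pow_add]
  have h5 : q ≤ L + 1 + (u + 1) * c := (Nat.pow_le_pow_iff_right (by norm_num)).1 h4
  have h6 : 2 ^ u ≤ (L + 2 + c) * (u + 1) := by nlinarith
  have h7 : u < L + c + 6 := by
    by_contra hcon
    have h8 : ∀ n : ℕ, 5 ≤ n → n * (n + 1) < 2 ^ n := by
      intro n hn
      induction n, hn using Nat.le_induction with
      | base => norm_num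
      | succ n hn ih =>
          have : 2 ^ (n + 1) = 2 * 2 ^ n := by ring
          nlinarith
    have h9 := h8 u (by omega)
    have h10 : (L + 2 + c) * (u + 1) ≤ u * (u + 1) := Nat.mul_le_mul_right _ (by omega)
    omega
  calc q < q + 1 := Nat.lt_succ_self q
    _ < 2 ^ (u + 1) := h1
    _ ≤ 2 ^ (L + c + 7) := Nat.pow_le_pow_right (by norm_num) (by omega)

/-- The bound for the number of the simple components. -/
@[irreducible] def kc (b c Y : ℕ) : ℕ := Y * 2 ^ (Nat.log 2 (2 * c * (b * Y + 1) ^ c) + c + 7)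

theorem grow_cmp' (b c Y k : ℕ) (hY : 0 < Y) (hk : 2 ^ (k / Y) ≤ 2 * (c * (Nat.log 2 (b ^ k) + 1) ^ c)) : k ≤ kc b c Y := by
  have h1 : Nat.log 2 (b ^ k) ≤ b * k := by
    have h2 : b ^ k ≤ 2 ^ (b * k) := by
      rw [pow_mul]
      exact Nat.pow_le_pow_left Nat.lt_two_pow_self.le k
    calc Nat.log 2 (b ^ k) ≤ Nat.log 2 (2 ^ (b * k)) := Nat.log_mono_right h2
      _ = b * k := Nat.log_pow (by norm_num) _
  have h3 : k < Y * (k / Y + 1) := Nat.lt_mul_div_succ k hY
  have h4 : Nat.log 2 (b ^ k) + 1 ≤ (b * Y + 1) * (k / Y + 1) := by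
    have h5 : b * k ≤ b * (Y * (k / Y + 1)) := Nat.mul_le_mul_left b h3.le
    have h6 : b * (Y * (k / Y + 1)) = b * Y * (k / Y + 1) := by ring
    have h7 : (b * Y + 1) * (k / Y + 1) = b * Y * (k / Y + 1) + (k / Y + 1) := by ring
    rw [h7, ← h6]
    exact Nat.add_le_add (h1.trans h5) (Nat.le_add_left 1 _)
  have h8 : 2 ^ (k / Y) ≤ 2 * c * (b * Y + 1) ^ c * (k / Y + 1) ^ c := by
    calc 2 ^ (k / Y) ≤ 2 * (c * (Nat.log 2 (b ^ k) + 1) ^ c) := hk
      _ ≤ 2 * (c * ((b * Y + 1) * (k / Y + 1)) ^ c) :=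
          Nat.mul_le_mul_left 2 (Nat.mul_le_mul_left c (Nat.pow_le_pow_left h4 c))
      _ = 2 * c * (b * Y + 1) ^ c * (k / Y + 1) ^ c := by
          rw [mul_pow]
          ring
  have h9 := ngr' _ _ _ h8
  rw [kc]
  exact h3.le.trans (Nat.mul_le_mul_left Y h9)

/-- The index of the solvable radical is bounded. -/
theorem top_bound' (y b : ℕ) {G : Type} [Group G] [Finite G] (hG : Ah G)
    (hp : ∀ p : ℕ, p.Prime → p ∣ Nat.card G → p ≤ y)
    (hii : ∀ (K L S : Subgroup G) [K.Normal] [L.Normal], K ≤ S → S ≤ L → (∀ l ∈ L, ∀ s ∈ S, l * s * l⁻¹ ∈ S) →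
      IsSimpleGroup (S ⧸ K.subgroupOf S) → (∃ s t : S ⧸ K.subgroupOf S, s * t ≠ t * s) →
      Nat.card (S ⧸ K.subgroupOf S) ≤ b) :
    ∃ R : Subgroup G, R.Normal ∧ Group.IsSolvable R ∧ R.index ≤ ((b + 1) ^ kc (b + 1) (kr y) (tl y 2)).factorial := by
  classical
  have : Fintype G := Fintype.ofFinite G
  obtain ⟨R, hR, hRs, hRa⟩ := exists_rad G
  have : Fintype (G ⧸ R) := Fintype.ofFinite _
  refine ⟨R, hR, hRs, ?_⟩
  have hT : ∀ T ∈ Cmp (G ⧸ R), Nat.card T ≤ b + 1 := by
    rintro T ⟨N, hN, hT⟩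
    obtain ⟨hsim, hna⟩ := Cmp.simple hRa hN hT
    obtain ⟨e⟩ := sec_equiv R T
    have hNn := hN.nor
    have hLn : (N.comap (QuotientGroup.mk' R)).Normal := hNn.comap _
    have hsim' : IsSimpleGroup ((T.comap (QuotientGroup.mk' R)) ⧸ R.subgroupOf (T.comap (QuotientGroup.mk' R))) := by
      have : Nontrivial ((T.comap (QuotientGroup.mk' R)) ⧸ R.subgroupOf (T.comap (QuotientGroup.mk' R))) :=
        e.toEquiv.nontrivial
      exact IsSimpleGroup.isSimpleGroup_of_surjective e.symm.toMonoidHom e.symm.surjective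
    have h1 := hii R (N.comap (QuotientGroup.mk' R)) (T.comap (QuotientGroup.mk' R)) (by
        intro x hx
        rw [Subgroup.mem_comap, QuotientGroup.mk'_apply, (QuotientGroup.eq_one_iff x).2 hx]
        exact T.one_mem) (Subgroup.comap_mono hT.le) (by
        intro l hl s hs
        rw [Subgroup.mem_comap] at hl hs ⊢
        rw [map_mul, map_mul, map_inv]
        exact hT.nor _ hl _ hs) hsim' (by
        obtain ⟨a, ha, b, hb, hab⟩ := hna
        refine ⟨e.symm ⟨a, ha⟩, e.symm ⟨b, hb⟩, fun h => hab ?_⟩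
        rw [← map_mul, ← map_mul] at h
        exact congrArg Subtype.val (e.symm.injective h))
    rw [← Nat.card_congr e.toEquiv]
    exact h1.trans (Nat.le_succ _)
  have hcard := Soc.card hT
  obtain ⟨k, hk⟩ : ∃ k, k = Nat.card (Cmp (G ⧸ R)) := ⟨_, rfl⟩
  rw [← hk] at hcard
  have hw : ∑ q : G ⧸ R, Nat.card {m : Soc (G ⧸ R) // q * (m : G ⧸ R) = m * q} ≤
      Nat.card (G ⧸ R) * (kr y * (Nat.log 2 ((b + 1) ^ k) + 1) ^ kr y) := by
    have h1 := quot_sum R (fun d => min ((b + 1) ^ k) d) (fun a b hab => min_le_min le_rfl hab)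
    have h2 := sum_min' y hG hp ((b + 1) ^ k)
    have h3 : Nat.card R * Nat.card (G ⧸ R) = Nat.card G := by
      rw [mul_comm]
      exact (Subgroup.card_eq_card_quotient_mul_card_subgroup R).symm
    have h4 : ∑ q : G ⧸ R, Nat.card {m : Soc (G ⧸ R) // q * (m : G ⧸ R) = m * q} ≤
        ∑ q : G ⧸ R, min ((b + 1) ^ k) (Nat.card (Subgroup.centralizer {q})) := by
      refine Finset.sum_le_sum fun q _ => le_min ?_ ?_
      · refine le_trans ?_ hcard
        exact Nat.card_le_card_of_injective Subtype.val Subtype.val_injective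
      · refine Nat.card_le_card_of_injective (fun m => ⟨((m : Soc (G ⧸ R)) : G ⧸ R), ?_⟩) ?_
        · rw [Subgroup.mem_centralizer_singleton_iff]
          exact m.2.symm
        · intro a b hab
          have h9 := congrArg Subtype.val hab
          exact Subtype.ext (Subtype.ext h9)
    refine h4.trans ?_
    have h5 := h1.trans h2
    rw [← h3, mul_assoc] at h5
    exact Nat.le_of_mul_le_mul_left h5 Nat.card_pos
  have h6 := soc_orb hRa (tl_pos y 2) (half_quot R (half' y hG hp)) hw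
  rw [← hk] at h6
  have h7 := grow_cmp' _ _ _ k (tl_pos y 2) h6
  have h8 := Soc.faithful hRa
  rw [Subgroup.index]
  refine h8.trans (Nat.factorial_le (hcard.trans ?_))
  exact Nat.pow_le_pow_right (Nat.succ_pos _) h7

end Pool.Agent.Fah
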