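import Pool.Agent.Fah.E2

/-!
# Explicit constants: the chief factors and the order
-/

set_option autoImplicit false

namespace Pool.Agent.Fah

open Pool.Agent.Bdt (der cj mem_cj cj_one cj_mul)
open Pool.Agent.EgO (Ah AltFactor)

theorem five_pow (q : ℕ) (hq : 30 ≤ q) : (q + 2) ^ 5 < 2 ^ q := by
  induction q, hq using Nat.le_induction with
  | base => norm_num
  | succ n hn ih =>
      have h1 : (n + 1 + 2) ^ 5 ≤ 2 * (n + 2) ^ 5 := by
        obtain ⟨m, rfl⟩ : ∃ m, n = m + 30 := ⟨n - 30, by omega⟩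
        ring_nf
        nlinarith [Nat.zero_le m, Nat.zero_le (m ^ 2), Nat.zero_le (m ^ 3), Nat.zero_le (m ^ 4), Nat.zero_le (m ^ 5)]
      have : 2 ^ (n + 1) = 2 * 2 ^ n := by ring
      omega

theorem grw_poly' (K q : ℕ) (hq : K + 30 ≤ q) : K * (q + 2) ^ 4 + 1 < 2 ^ q := by
  have h1 := five_pow q (by omega)
  have h2 : K * (q + 2) ^ 4 + 1 ≤ (q + 2) ^ 5 := by
    have h3 : 1 ≤ (q + 2) ^ 4 := Nat.one_le_pow _ _ (by omega)
    calc K * (q + 2) ^ 4 + 1 ≤ K * (q + 2) ^ 4 + (q + 2) ^ 4 := Nat.add_le_add_left h3 _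
      _ = (K + 1) * (q + 2) ^ 4 := by ring
      _ ≤ (q + 2) * (q + 2) ^ 4 := Nat.mul_le_mul_right _ (by omega)
      _ = (q + 2) ^ 5 := by ring
  omega

theorem grow_aux (y Y C₀ c w m n d K1 Q : ℕ) (hK1 : K1 = ((y ^ (2 * y) + 1) * y + 2) * (Y * (c + 2)))
    (hQ : ∀ q : ℕ, Q ≤ q → (C₀ + K1 * (1 + K1) + c) * (q + 2) ^ 4 + 1 < 2 ^ q)
    (h1 : n ≤ c * (Nat.log 2 w + 1) ^ c) (h2 : 2 ^ (m / Y) ≤ 2 * n) (hY : 0 < Y)
    (h3 : d ≤ ((y ^ (2 * y) * Nat.log 2 w) ^ y * Nat.log 2 w ^ 2) ^ m) (h4 : w ≤ C₀ * d ^ (1 + Nat.log 2 d) * n) :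
    w ≤ 2 ^ 2 ^ Q := by
  obtain ⟨x, hx⟩ : ∃ x, x = Nat.log 2 w := ⟨_, rfl⟩
  rw [← hx] at h1 h3
  obtain ⟨q, hq⟩ : ∃ q, q = Nat.log 2 (x + 1) := ⟨_, rfl⟩
  have hx1 : x + 1 < 2 ^ (q + 1) := by
    rw [hq]
    exact Nat.lt_pow_succ_log_self (by norm_num) _
  have hx2 : 2 ^ q ≤ x + 1 := by
    rw [hq]
    exact Nat.pow_log_le_self 2 (by omega)
  -- the bound for n
  have hn : n ≤ 2 ^ (c * (q + 2)) := by
    calc n ≤ c * (x + 1) ^ c := h1
      _ ≤ 2 ^ c * (2 ^ (q + 1)) ^ c := Nat.mul_le_mul (Nat.lt_two_pow_self).le (Nat.pow_le_pow_left hx1.le c)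
      _ = 2 ^ (c * (q + 2)) := by
        rw [← pow_mul, ← pow_add]
        congr 1
        ring
  have hm : m ≤ (Y * (c + 2)) * (q + 2) := by
    have h5 : 2 ^ (m / Y) ≤ 2 ^ (c * (q + 2) + 1) := by
      calc 2 ^ (m / Y) ≤ 2 * n := h2
        _ ≤ 2 * 2 ^ (c * (q + 2)) := Nat.mul_le_mul_left _ hn
        _ = 2 ^ (c * (q + 2) + 1) := by rw [pow_succ]; ring
    have h6 : m / Y ≤ c * (q + 2) + 1 := (Nat.pow_le_pow_iff_right (by norm_num)).1 h5
    have h7 : m < Y * (m / Y + 1) := Nat.lt_mul_div_succ m hY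
    calc m ≤ Y * (m / Y + 1) := h7.le
      _ ≤ Y * (c * (q + 2) + 1 + 1) := Nat.mul_le_mul_left _ (by omega)
      _ ≤ Y * ((c + 2) * (q + 2)) := Nat.mul_le_mul_left _ (by nlinarith)
      _ = (Y * (c + 2)) * (q + 2) := by ring
  have hd : d ≤ 2 ^ (K1 * (q + 2) ^ 2) := by
    have h5 : (y ^ (2 * y) * x) ^ y * x ^ 2 ≤ 2 ^ (((y ^ (2 * y) + 1) * y + 2) * (q + 2)) := by
      have h6 : y ^ (2 * y) * x ≤ 2 ^ (y ^ (2 * y) + (q + 1)) := by
        rw [pow_add]
        exact Nat.mul_le_mul (Nat.lt_two_pow_self).le (by omega)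
      have h7 : x ≤ 2 ^ (q + 1) := by omega
      calc (y ^ (2 * y) * x) ^ y * x ^ 2 ≤ (2 ^ (y ^ (2 * y) + (q + 1))) ^ y * (2 ^ (q + 1)) ^ 2 :=
            Nat.mul_le_mul (Nat.pow_le_pow_left h6 y) (Nat.pow_le_pow_left h7 2)
        _ = 2 ^ ((y ^ (2 * y) + (q + 1)) * y + (q + 1) * 2) := by
          rw [← pow_mul, ← pow_mul, ← pow_add]
        _ ≤ 2 ^ (((y ^ (2 * y) + 1) * y + 2) * (q + 2)) := by
          refine Nat.pow_le_pow_right (by norm_num) ?_
          have h8 : y ^ (2 * y) + (q + 1) ≤ (y ^ (2 * y) + 1) * (q + 2) := by nlinarith [Nat.zero_le (y ^ (2 * y) * q), Nat.zero_le (y ^ (2 * y))]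
          calc (y ^ (2 * y) + (q + 1)) * y + (q + 1) * 2 ≤ ((y ^ (2 * y) + 1) * (q + 2)) * y + (q + 2) * 2 :=
                Nat.add_le_add (Nat.mul_le_mul_right _ h8) (by omega)
            _ = ((y ^ (2 * y) + 1) * y + 2) * (q + 2) := by ring
    calc d ≤ ((y ^ (2 * y) * x) ^ y * x ^ 2) ^ m := h3
      _ ≤ (2 ^ (((y ^ (2 * y) + 1) * y + 2) * (q + 2))) ^ m := Nat.pow_le_pow_left h5 m
      _ = 2 ^ (((y ^ (2 * y) + 1) * y + 2) * (q + 2) * m) := by rw [← pow_mul]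
      _ ≤ 2 ^ (K1 * (q + 2) ^ 2) := by
        refine Nat.pow_le_pow_right (by norm_num) ?_
        calc ((y ^ (2 * y) + 1) * y + 2) * (q + 2) * m ≤ ((y ^ (2 * y) + 1) * y + 2) * (q + 2) * ((Y * (c + 2)) * (q + 2)) :=
              Nat.mul_le_mul_left _ hm
          _ = K1 * (q + 2) ^ 2 := by rw [hK1]; ring
  have hld : Nat.log 2 d ≤ K1 * (q + 2) ^ 2 := by
    calc Nat.log 2 d ≤ Nat.log 2 (2 ^ (K1 * (q + 2) ^ 2)) := Nat.log_mono_right hd
      _ = K1 * (q + 2) ^ 2 := Nat.log_pow (by norm_num) _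
  have hw : w ≤ 2 ^ ((C₀ + K1 * (1 + K1) + c) * (q + 2) ^ 4) := by
    have h5 : d ^ (1 + Nat.log 2 d) ≤ 2 ^ (K1 * (q + 2) ^ 2 * (1 + K1 * (q + 2) ^ 2)) := by
      calc d ^ (1 + Nat.log 2 d) ≤ (2 ^ (K1 * (q + 2) ^ 2)) ^ (1 + Nat.log 2 d) := Nat.pow_le_pow_left hd _
        _ ≤ (2 ^ (K1 * (q + 2) ^ 2)) ^ (1 + K1 * (q + 2) ^ 2) :=
          Nat.pow_le_pow_right (by positivity) (by omega)
        _ = _ := by rw [← pow_mul]
    calc w ≤ C₀ * d ^ (1 + Nat.log 2 d) * n := h4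
      _ ≤ 2 ^ C₀ * 2 ^ (K1 * (q + 2) ^ 2 * (1 + K1 * (q + 2) ^ 2)) * 2 ^ (c * (q + 2)) :=
        Nat.mul_le_mul (Nat.mul_le_mul (Nat.lt_two_pow_self).le h5) hn
      _ = 2 ^ (C₀ + K1 * (q + 2) ^ 2 * (1 + K1 * (q + 2) ^ 2) + c * (q + 2)) := by rw [← pow_add, ← pow_add]
      _ ≤ 2 ^ ((C₀ + K1 * (1 + K1) + c) * (q + 2) ^ 4) := by
        refine Nat.pow_le_pow_right (by norm_num) ?_
        obtain ⟨s, hs⟩ : ∃ s, s = q + 2 := ⟨_, rfl⟩
        rw [← hs]
        have hs1 : 1 ≤ s := by omega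
        have e1 : 1 ≤ s ^ 4 := Nat.one_le_pow _ _ hs1
        have e2 : s ^ 2 ≤ s ^ 4 := Nat.pow_le_pow_right hs1 (by norm_num)
        have e3 : s ≤ s ^ 4 := by
          calc s = s ^ 1 := (pow_one s).symm
            _ ≤ s ^ 4 := Nat.pow_le_pow_right hs1 (by norm_num)
        calc C₀ + K1 * s ^ 2 * (1 + K1 * s ^ 2) + c * s = C₀ + (K1 * s ^ 2 + K1 * K1 * s ^ 4) + c * s := by ring
          _ ≤ C₀ * s ^ 4 + (K1 * s ^ 4 + K1 * K1 * s ^ 4) + c * s ^ 4 := by
            refine Nat.add_le_add (Nat.add_le_add ?_ (Nat.add_le_add (Nat.mul_le_mul_left _ e2) le_rfl)) (Nat.mul_le_mul_left _ e3)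
            calc C₀ = C₀ * 1 := (mul_one _).symm
              _ ≤ C₀ * s ^ 4 := Nat.mul_le_mul_left _ e1
          _ = (C₀ + K1 * (1 + K1) + c) * s ^ 4 := by ring
  have hxb : x ≤ (C₀ + K1 * (1 + K1) + c) * (q + 2) ^ 4 := by
    rw [hx]
    calc Nat.log 2 w ≤ Nat.log 2 (2 ^ ((C₀ + K1 * (1 + K1) + c) * (q + 2) ^ 4)) := Nat.log_mono_right hw
      _ = _ := Nat.log_pow (by norm_num) _
  have hqQ : q < Q := by
    by_contra hcon
    have h5 := hQ q (by omega)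
    omega
  have hxQ : x + 1 ≤ 2 ^ Q := by
    calc x + 1 ≤ 2 ^ (q + 1) := hx1.le
      _ ≤ 2 ^ Q := Nat.pow_le_pow_right (by norm_num) (by omega)
  calc w ≤ 2 ^ (x + 1) := by
        rw [hx]
        exact (Nat.lt_pow_succ_log_self (by norm_num) w).le
    _ ≤ 2 ^ 2 ^ Q := Nat.pow_le_pow_right (by norm_num) hxQ

/-- The constant in the bound of the chief factors. -/
@[irreducible] def gk (y Y c : ℕ) : ℕ := ((y ^ (2 * y) + 1) * y + 2) * (Y * (c + 2))

/-- The bound of the chief factors. -/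
@[irreducible] def gw (y Y C₀ c : ℕ) : ℕ := 2 ^ 2 ^ (C₀ + gk y Y c * (1 + gk y Y c) + c + 30)

theorem grow' (y Y C₀ c w m n d : ℕ) (h1 : n ≤ c * (Nat.log 2 w + 1) ^ c) (h2 : 2 ^ (m / Y) ≤ 2 * n) (hY : 0 < Y)
    (h3 : d ≤ ((y ^ (2 * y) * Nat.log 2 w) ^ y * Nat.log 2 w ^ 2) ^ m) (h4 : w ≤ C₀ * d ^ (1 + Nat.log 2 d) * n) :
    w ≤ gw y Y C₀ c := by
  rw [gw]
  refine grow_aux y Y C₀ c w m n d (gk y Y c) _ (by rw [gk]) (fun q hq => ?_) h1 h2 hY h3 h4
  exact grw_poly' _ q hq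

theorem chief_bound' (y Y C₀ c : ℕ) (hY : 0 < Y) {G : Type} [Group G] [Fintype G]
    (hy : ∀ q : ℕ, q.Prime → q ∣ Nat.card G → q ≤ y) (hhalf : Nat.card G ≤ 2 * Nat.card {g : G // orderOf g ≤ Y})
    (hsum : ∀ w : ℕ, ∑ g : G, min w (Nat.card (Subgroup.centralizer {g})) ≤ Nat.card G * (c * (Nat.log 2 w + 1) ^ c))
    (R : Subgroup G) (hR : R.Normal) (hRs : Group.IsSolvable R) (hRi : R.index ≤ C₀)
    (M N : Subgroup G) (hM : M.Normal) (hN : N.Normal) (hlt : N < M)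
    (hch : ∀ T : Subgroup G, T.Normal → N ≤ T → T ≤ M → T = N ∨ T = M)
    (hab : ∀ a ∈ M, ∀ b ∈ M, a * b * a⁻¹ * b⁻¹ ∈ N) : N.relIndex M ≤ gw y Y C₀ c := by
  classical
  obtain ⟨E, _, _, θ, π, hS, hc⟩ := exists_sec M N hM hN hlt.le hab
  have hne : N.relIndex M ≠ 1 := fun h => hlt.not_ge (Subgroup.relIndex_eq_one.1 h)
  have hE : Nontrivial E := by
    rw [← Finite.one_lt_card_iff_nontrivial, hc]
    have : N.relIndex M ≠ 0 := by
      rw [← hc]
      exact Nat.card_pos.ne'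
    omega
  have hirr := hS.irr hM hN hlt.le hch
  have hf : Fth θ.range E := by
    intro h hh
    apply Subtype.ext
    apply Units.ext
    apply AddMonoidHom.ext
    intro v
    exact hh v
  obtain ⟨p, hp, hpE, hpd⟩ := irr_exp hE hirr
  have hHd : Nat.card θ.range ∣ Nat.card G := Subgroup.card_range_dvd θ
  have hpy : p ≤ y := hy p hp (hpd.trans (by
    rw [hc]
    exact (Subgroup.relIndex_dvd_card N M).trans (Subgroup.card_subgroup_dvd_card M)))
  -- the image of R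
  obtain ⟨S, hSd⟩ : ∃ S, S = R.map θ.rangeRestrict := ⟨_, rfl⟩
  have hSn : S.Normal := by
    rw [hSd]
    exact hR.map _ θ.rangeRestrict_surjective
  have hSs : Group.IsSolvable S := by
    rw [hSd]
    have hsur : Function.Surjective (θ.rangeRestrict.subgroupMap R) := θ.rangeRestrict.subgroupMap_surjective R
    exact Group.isSolvable_of_surjective hsur
  have hSi : S.index ≤ C₀ := by
    rw [hSd]
    refine le_trans (Nat.le_of_dvd ?_ (Subgroup.index_map_dvd R θ.rangeRestrict_surjective)) hRi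
    exact Nat.pos_of_ne_zero R.index_ne_zero_of_finite
  obtain ⟨m, d, h1, h2, h3⟩ := chief_abs hE hirr hf hp hpE hpy (fun q hq hqd => hy q hq (hqd.trans hHd)) hY
    (half_range θ hhalf) S hSn hSs
  rw [hc] at h2 h3
  -- the number of the orbits
  have h4 := burn θ
  have h5 : Nat.card (MulAction.orbitRel.Quotient θ.range E) * Nat.card G ≤
      Nat.card G * (c * (Nat.log 2 (N.relIndex M) + 1) ^ c) := by
    rw [h4]
    refine le_trans (Finset.sum_le_sum fun g _ => ?_) (hsum (N.relIndex M))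
    refine le_min ?_ (hS.fix_le hM hN hlt.le g)
    rw [← hc]
    exact Nat.card_le_card_of_injective Subtype.val Subtype.val_injective
  have h6 : Nat.card (MulAction.orbitRel.Quotient θ.range E) ≤ c * (Nat.log 2 (N.relIndex M) + 1) ^ c := by
    rw [mul_comm] at h5
    exact Nat.le_of_mul_le_mul_left h5 Nat.card_pos
  exact grow' y Y C₀ c (N.relIndex M) m _ d h6 h1 hY h2 (h3.trans (by gcongr))

/-- The derived length from the chief factors. -/
@[irreducible] def fl (y e : ℕ) : ℕ := (gw y (tl y 2) (2 ^ e) (kr y)).factorial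

/-- The index of the nilpotent normal subgroup is at most `2 ^ fe y e`. -/
@[irreducible] def fe (y e : ℕ) : ℕ := (ex y + 8) ^ fl y e * (e + 8)

/-- The order of a small centralizer. -/
@[irreducible] def fY (y e : ℕ) : ℕ := tl y (2 ^ fe y e)

/-- The derived length for the second step. -/
@[irreducible] def fm (y e : ℕ) : ℕ := (fY y e ^ fY y e * fY y e ^ fY y e).factorial

/-- The index of `V` is at most `2 ^ fg y e`. -/
@[irreducible] def fg (y e : ℕ) : ℕ := (ex y + 8) ^ (fl y e + fm y e) * (e + 8)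

/-- The exponent. -/
@[irreducible] def fK (y e : ℕ) : ℕ := tl y (2 * 2 ^ fg y e)

/-- The bound for the order. -/
@[irreducible] def fC (y e : ℕ) : ℕ := ((fY y e ^ fY y e) ^ fK y e) ^ y * 2 ^ fg y e

theorem final' (y e : ℕ) {G : Type} [Group G] [Finite G] (hG : Ah G)
    (hp : ∀ p : ℕ, p.Prime → p ∣ Nat.card G → p ≤ y) (R : Subgroup G) (hR : R.Normal) (hRs : Group.IsSolvable R)
    (hRi : R.index ≤ 2 ^ e) : Nat.card G ≤ fC y e := by
  classical
  have : Fintype G := Fintype.ofFinite G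
  have hG0 : (0 : ℚ) < Nat.card G := by exact_mod_cast Nat.card_pos
  have hchief := fun M N hM hN hlt hch hab => chief_bound' y (tl y 2) (2 ^ e) (kr y) (tl_pos y 2) hp (half' y hG hp)
    (sum_min' y hG hp) R hR hRs hRi M N hM hN hlt hch hab
  obtain ⟨Y, hYd⟩ : ∃ Y, Y = fY y e := ⟨_, rfl⟩
  obtain ⟨K, hKd⟩ : ∃ K, K = fK y e := ⟨_, rfl⟩
  obtain ⟨l, hl⟩ : ∃ l, l = fl y e := ⟨_, rfl⟩
  have hld : l = (gw y (tl y 2) (2 ^ e) (kr y)).factorial := by rw [hl, fl]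
  have hm : fm y e = (Y ^ Y * Y ^ Y).factorial := by rw [fm, ← hYd]
  have hCd : fC y e = ((Y ^ Y) ^ K) ^ y * 2 ^ fg y e := by rw [fC, ← hYd, ← hKd]
  rw [hCd]
  -- the nilpotent normal subgroup
  obtain ⟨F, hFd⟩ : ∃ F, F = der R l := ⟨_, rfl⟩
  have hFn : F.Normal := by
    rw [hFd]
    exact der_normal hR _
  have hFs : Group.IsSolvable F := by
    have hle : F ≤ R := by
      rw [hFd]
      exact der_le _
    exact Group.isSolvable_of_isSolvable_injective (Subgroup.inclusion_injective hle)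
  have hFnil : Group.IsNilpotent F := by
    refine nil F hFn hFs ?_
    intro M N hM hN hlt hMF hch hab
    rw [hFd, hld]
    exact der_cent R hRs M N hM hN hlt.le (hchief M N hM hN hlt hch hab)
  have hFi : F.index ≤ 2 ^ fe y e := by
    rw [hFd]
    rw [hl, fe]
    exact iter' y e (fl y e) hG hp R hR hRi
  obtain ⟨x, hx⟩ := exists_small (X := Y) F hFi (Nat.two_pow_pos _) (by
    rw [hYd, fY]
    exact few' y (2 ^ fe y e) (Nat.two_pow_pos _) hG hp)
  obtain ⟨V, hV⟩ : ∃ V, V = der (⊤ : Subgroup F) (Y ^ Y * Y ^ Y).factorial := ⟨_, rfl⟩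
  have hVm : V.map F.subtype = der R (l + (Y ^ Y * Y ^ Y).factorial) := by
    rw [hV, der_top_map, hFd, der_add]
  have hVc : Nat.card V = Nat.card (V.map F.subtype) :=
    Nat.card_congr (V.equivMapOfInjective F.subtype F.subtype_injective).toEquiv
  have hVi : (V.map F.subtype).index ≤ 2 ^ fg y e := by
    rw [hVm, ← hm]
    rw [hl, fg]
    exact iter' y e (fl y e + fm y e) hG hp R hR hRi
  have hprod : Nat.card V * (V.map F.subtype).index = Nat.card G := by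
    rw [hVc]
    exact Subgroup.card_mul_index _
  have hVK : ∀ m : ℕ, K < m → 2 * Nat.card {v : V // m ≤ orderOf (v : F)} < Nat.card V := by
    intro m hm
    have h1 := few' y (2 * 2 ^ fg y e) (Nat.mul_pos (by norm_num) (Nat.two_pow_pos _)) hG hp
    have hKK : tl y (2 * 2 ^ fg y e) = K := by rw [hKd, fK]
    rw [hKK] at h1
    have h2 : Nat.card {v : V // m ≤ orderOf (v : F)} ≤ Nat.card {g : G // K < Nat.card (Subgroup.centralizer {g})} := by
      refine Nat.card_le_card_of_injective (fun v => ⟨(((v : V) : F) : G), ?_⟩) ?_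
      · have h3 : orderOf (((v : V) : F) : G) = orderOf ((v : V) : F) := Subgroup.orderOf_coe _
        have h4 := order_le (((v : V) : F) : G)
        have h5 := v.2
        omega
      · intro a b hab
        have h9 := congrArg Subtype.val hab
        exact Subtype.ext (Subtype.ext (Subtype.ext h9))
    have h3 : (Nat.card {v : V // m ≤ orderOf (v : F)} : ℚ) ≤
        Nat.card {g : G // K < Nat.card (Subgroup.centralizer {g})} := by exact_mod_cast h2
    obtain ⟨D, hD⟩ : ∃ D, D = 2 ^ fg y e := ⟨_, rfl⟩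
    have hD0 : 0 < D := by
      rw [hD]
      exact Nat.two_pow_pos _
    rw [← hD] at h1 hVi
    have hDq : (0 : ℚ) < D := by exact_mod_cast hD0
    have h4 : (Nat.card G : ℚ) ≤ Nat.card V * D := by
      rw [← hprod]
      push_cast
      refine mul_le_mul_of_nonneg_left ?_ (by positivity)
      exact_mod_cast hVi
    have h6 : (Nat.card G : ℚ) * (1 / ((2 * D : ℕ) : ℚ)) ≤ Nat.card V / 2 := by
      rw [mul_one_div, div_le_div_iff₀ (by positivity) (by norm_num)]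
      push_cast
      nlinarith
    have h7 : (2 * Nat.card {v : V // m ≤ orderOf (v : F)} : ℚ) < Nat.card V := by linarith
    exact_mod_cast h7
  have hFp : ∀ p : ℕ, p.Prime → p ∣ Nat.card F → p ≤ y := fun p hpp hpd =>
    hp p hpp (hpd.trans (Subgroup.card_subgroup_dvd_card F))
  have h1 := strip hFnil hFp x hx V hV hVK
  rw [← hprod]
  exact Nat.mul_le_mul h1 hVi

end Pool.Agent.Fah
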