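import Pool.Agent.Fah.E3

/-!
# Explicit constants: towers
-/

set_option autoImplicit false

namespace Pool.Agent.Fah

theorem pow10 (t : ℕ) (ht : 100 ≤ t) : t ^ 10 ≤ 2 ^ t := by
  induction t, ht using Nat.le_induction with
  | base => norm_num
  | succ n hn ih =>
      have h1 : (100 * (n + 1)) ^ 10 ≤ (101 * n) ^ 10 := Nat.pow_le_pow_left (by omega) 10
      rw [mul_pow, mul_pow] at h1
      have h2 : (101 : ℕ) ^ 10 * n ^ 10 ≤ (2 * 100 ^ 10) * n ^ 10 := Nat.mul_le_mul_right _ (by norm_num)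
      have h3 : 2 ^ (n + 1) = 2 * 2 ^ n := by ring
      rw [h3]
      have h4 : 100 ^ 10 * (n + 1) ^ 10 ≤ 100 ^ 10 * (2 * n ^ 10) := by
        calc 100 ^ 10 * (n + 1) ^ 10 ≤ 101 ^ 10 * n ^ 10 := h1
          _ ≤ (2 * 100 ^ 10) * n ^ 10 := h2
          _ = 100 ^ 10 * (2 * n ^ 10) := by ring
      have h5 : (n + 1) ^ 10 ≤ 2 * n ^ 10 := Nat.le_of_mul_le_mul_left h4 (by norm_num)
      omega

theorem fac_le (n a c : ℕ) (h1 : n ≤ 2 ^ a) (h2 : n ≤ c) : n.factorial ≤ 2 ^ (a * c) := by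
  calc n.factorial ≤ n ^ n := Nat.factorial_le_pow n
    _ ≤ (2 ^ a) ^ n := Nat.pow_le_pow_left h1 n
    _ ≤ (2 ^ a) ^ c := Nat.pow_le_pow_right (Nat.two_pow_pos _) h2
    _ = 2 ^ (a * c) := by rw [pow_mul]

theorem log_le {n a : ℕ} (h : n ≤ 2 ^ a) : Nat.log 2 n ≤ a := by
  calc Nat.log 2 n ≤ Nat.log 2 (2 ^ a) := Nat.log_mono_right h
    _ = a := Nat.log_pow (by norm_num) _

theorem pow_le {n a k c : ℕ} (h : n ≤ 2 ^ a) (hk : k ≤ c) : n ^ k ≤ 2 ^ (a * c) := by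
  calc n ^ k ≤ (2 ^ a) ^ k := Nat.pow_le_pow_left h k
    _ ≤ (2 ^ a) ^ c := Nat.pow_le_pow_right (Nat.two_pow_pos _) hk
    _ = 2 ^ (a * c) := by rw [pow_mul]

/-- The bound for the index of the radical. -/
@[irreducible] def fB (y : ℕ) : ℕ := ((y.factorial + 1) ^ kc (y.factorial + 1) (kr y) (tl y 2)).factorial

section

variable {T : ℕ → ℕ} (h0 : 100 ≤ T 0) (hs : ∀ k, T (k + 1) = 2 ^ T k)

include h0 hs

theorem T_mono {i j : ℕ} (h : i ≤ j) : T i ≤ T j := by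
  induction j, h using Nat.le_induction with
  | base => exact le_rfl
  | succ n hn ih =>
      rw [hs]
      exact ih.trans Nat.lt_two_pow_self.le

theorem T_ge (k : ℕ) : 100 ≤ T k := h0.trans (T_mono h0 hs (Nat.zero_le k))

theorem T_quart (k : ℕ) : 100 * (T k * T k * T k * T k) ≤ T (k + 1) := by
  rw [hs]
  refine le_trans ?_ (pow10 (T k) (T_ge h0 hs k))
  have h1 := T_ge h0 hs k
  generalize T k = t at h1 ⊢
  calc 100 * (t * t * t * t) ≤ t * (t * t * t * t) := Nat.mul_le_mul_right _ h1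
    _ = t ^ 5 := by ring
    _ ≤ t ^ 10 := Nat.pow_le_pow_right (by omega) (by norm_num)

/-- `x ≤ T (k + 1)` if `x` is at most a polynomial of degree four in `T k`. -/
theorem T_poly (k x : ℕ) (h : x ≤ 100 * (T k * T k * T k * T k)) : x ≤ T (k + 1) := h.trans (T_quart h0 hs k)

theorem T_sq (k : ℕ) : T k * T k ≤ 100 * (T k * T k * T k * T k) := by
  have h1 := T_ge h0 hs k
  generalize T k = t at h1 ⊢
  have h2 : 1 ≤ t * t := Nat.mul_pos (by omega) (by omega)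
  calc t * t = t * t * 1 := by ring
    _ ≤ t * t * (t * t) := Nat.mul_le_mul_left _ h2
    _ = t * t * t * t := by ring
    _ ≤ 100 * (t * t * t * t) := Nat.le_mul_of_pos_left _ (by norm_num)

theorem T_two (k x : ℕ) (h : x ≤ 100 * (T k * T k)) : x ≤ T (k + 1) := by
  refine T_poly h0 hs k x (h.trans ?_)
  refine Nat.mul_le_mul_left _ ?_
  have h1 := T_ge h0 hs k
  generalize T k = t at h1 ⊢
  have h2 : 1 ≤ t * t := Nat.mul_pos (by omega) (by omega)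
  calc t * t = t * t * 1 := by ring
    _ ≤ t * t * (t * t) := Nat.mul_le_mul_left _ h2
    _ = t * t * t * t := by ring

theorem T_lin (k x : ℕ) (h : x ≤ 100 * T k) : x ≤ T (k + 1) := by
  refine T_two h0 hs k x (h.trans ?_)
  have h1 := T_ge h0 hs k
  exact Nat.mul_le_mul_left _ (Nat.le_mul_of_pos_left _ (by omega))

theorem T_pow {k x : ℕ} (h : x ≤ T k) : 2 ^ x ≤ T (k + 1) := by
  rw [hs]
  exact Nat.pow_le_pow_right (by norm_num) h

theorem e_kr : kr (T 2) = 4 * T 3 := by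
  rw [kr, hs 2, pow_add]
  ring

theorem e_ex4 : ex (T 2) * 4 ≤ T 5 := by
  rw [ex, e_kr h0 hs, show (4 : ℕ) = 2 ^ 2 by norm_num, ← pow_add]
  refine T_pow h0 hs (T_lin h0 hs 3 _ ?_)
  have := T_ge h0 hs 3
  omega

theorem e_ex : ex (T 2) ≤ T 5 := by
  have := e_ex4 h0 hs
  omega

theorem e_tl2 : tl (T 2) 2 ≤ T 6 := by
  rw [tl]
  refine T_pow h0 hs ?_
  have h1 : Nat.log 2 2 = 1 := Nat.log_pow (b := 2) (by norm_num) 1
  rw [h1]
  exact e_ex4 h0 hs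

theorem e_b : (T 2).factorial + 1 ≤ T 4 := by
  have h1 := fac_le (T 2) (T 1) (T 2) (by rw [← hs]) le_rfl
  have h2 : T 1 * T 2 + 1 ≤ T 3 := by
    refine T_two h0 hs 2 _ ?_
    have h3 := T_mono h0 hs (show 1 ≤ 2 by norm_num)
    have h4 := T_ge h0 hs 2
    nlinarith
  calc (T 2).factorial + 1 ≤ 2 ^ (T 1 * T 2) + 2 ^ (T 1 * T 2) := Nat.add_le_add h1 Nat.one_le_two_pow
    _ = 2 ^ (T 1 * T 2 + 1) := by ring
    _ ≤ T 4 := T_pow h0 hs h2

theorem e_kc : kc ((T 2).factorial + 1) (kr (T 2)) (tl (T 2) 2) ≤ T 8 := by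
  have hb := e_b h0 hs
  have hY := e_tl2 h0 hs
  have hc := e_kr h0 hs
  generalize (T 2).factorial + 1 = b at hb ⊢
  generalize tl (T 2) 2 = Y at hY ⊢
  generalize kr (T 2) = c at hc ⊢
  rw [kc]
  have h1 : b * Y + 1 ≤ 2 ^ (T 3 + T 5 + 1) := by
    rw [hs 3] at hb
    rw [hs 5] at hY
    calc b * Y + 1 ≤ 2 ^ T 3 * 2 ^ T 5 + 1 := Nat.add_le_add_right (Nat.mul_le_mul hb hY) 1
      _ ≤ 2 ^ T 3 * 2 ^ T 5 + 2 ^ T 3 * 2 ^ T 5 := Nat.add_le_add_left (Nat.mul_pos (Nat.two_pow_pos _) (Nat.two_pow_pos _)) _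
      _ = 2 ^ (T 3 + T 5 + 1) := by ring
  have h2 : 2 * c * (b * Y + 1) ^ c ≤ 2 ^ (1 + c + (T 3 + T 5 + 1) * c) := by
    calc 2 * c * (b * Y + 1) ^ c ≤ 2 * 2 ^ c * 2 ^ ((T 3 + T 5 + 1) * c) :=
          Nat.mul_le_mul (Nat.mul_le_mul_left 2 Nat.lt_two_pow_self.le) (pow_le h1 le_rfl)
      _ = 2 ^ (1 + c + (T 3 + T 5 + 1) * c) := by rw [pow_add, pow_add, pow_one]
  have h3 := log_le h2
  have h4 : Nat.log 2 (2 * c * (b * Y + 1) ^ c) + c + 7 ≤ T 6 := by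
    refine T_two h0 hs 5 _ ?_
    have h5 := T_mono h0 hs (show 3 ≤ 5 by norm_num)
    have h6 := T_ge h0 hs 5
    generalize Nat.log 2 (2 * c * (b * Y + 1) ^ c) = L at h3 ⊢
    subst hc
    generalize T 5 = t at h5 h6 h3 ⊢
    generalize T 3 = s at h5 h3 ⊢
    nlinarith
  calc Y * 2 ^ (Nat.log 2 (2 * c * (b * Y + 1) ^ c) + c + 7) ≤ T 7 * T 7 :=
        Nat.mul_le_mul (hY.trans (T_mono h0 hs (by norm_num))) (T_pow h0 hs h4)
    _ ≤ T 8 := T_two h0 hs 7 _ (Nat.le_mul_of_pos_left _ (by norm_num))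

theorem e_fB : fB (T 2) ≤ T 12 := by
  rw [fB]
  have hb := e_b h0 hs
  have hk := e_kc h0 hs
  generalize kc ((T 2).factorial + 1) (kr (T 2)) (tl (T 2) 2) = k at hk ⊢
  generalize (T 2).factorial + 1 = b at hb ⊢
  rw [hs 3] at hb
  have h1 := pow_le hb hk
  have h2 : T 3 * T 8 ≤ T 9 := by
    refine T_two h0 hs 8 _ ?_
    have h5 := T_mono h0 hs (show 3 ≤ 8 by norm_num)
    calc T 3 * T 8 ≤ T 8 * T 8 := Nat.mul_le_mul_right _ h5
      _ ≤ 100 * (T 8 * T 8) := Nat.le_mul_of_pos_left _ (by norm_num)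
  have h3 : b ^ k ≤ 2 ^ T 9 := h1.trans (Nat.pow_le_pow_right (by norm_num) h2)
  have h4 := fac_le (b ^ k) (T 9) (T 10) h3 (by rw [hs 9]; exact h3)
  refine h4.trans (T_pow h0 hs ?_)
  refine T_two h0 hs 10 _ ?_
  have h5 := T_mono h0 hs (show 9 ≤ 10 by norm_num)
  calc T 9 * T 10 ≤ T 10 * T 10 := Nat.mul_le_mul_right _ h5
    _ ≤ 100 * (T 10 * T 10) := Nat.le_mul_of_pos_left _ (by norm_num)

theorem e_gk : gk (T 2) (tl (T 2) 2) (kr (T 2)) ≤ T 7 := by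
  have hY := e_tl2 h0 hs
  have hc := e_kr h0 hs
  have hc' : kr (T 2) ≤ T 4 := by
    rw [hc]
    exact T_lin h0 hs 3 _ (by omega)
  have hy : T 2 ^ (2 * T 2) ≤ T 4 := by
    have h1 := pow_le (n := T 2) (a := T 1) (k := 2 * T 2) (c := 2 * T 2) (by rw [← hs]) le_rfl
    refine h1.trans (T_pow h0 hs (T_two h0 hs 2 _ ?_))
    have h5 := T_mono h0 hs (show 1 ≤ 2 by norm_num)
    nlinarith
  rw [gk]
  generalize T 2 ^ (2 * T 2) = z at hy ⊢
  generalize tl (T 2) 2 = Y at hY ⊢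
  generalize kr (T 2) = c at hc' ⊢
  refine T_poly h0 hs 6 _ ?_
  have e1 := hc'.trans (T_mono h0 hs (show 4 ≤ 6 by norm_num))
  have e2 := hy.trans (T_mono h0 hs (show 4 ≤ 6 by norm_num))
  have e3 := T_mono h0 hs (show 2 ≤ 6 by norm_num)
  have e4 := T_ge h0 hs 6
  generalize T 6 = t at e1 e2 e3 e4 hY ⊢
  have f1 : (z + 1) * T 2 + 2 ≤ 2 * (t * t) := by
    calc (z + 1) * T 2 + 2 ≤ (t + 1) * t + 2 := Nat.add_le_add_right (Nat.mul_le_mul (Nat.add_le_add_right e2 1) e3) 2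
      _ ≤ 2 * (t * t) := by nlinarith
  have f2 : Y * (c + 2) ≤ 2 * (t * t) := by
    calc Y * (c + 2) ≤ t * (t + 2) := Nat.mul_le_mul hY (Nat.add_le_add_right e1 2)
      _ ≤ 2 * (t * t) := by nlinarith
  calc ((z + 1) * T 2 + 2) * (Y * (c + 2)) ≤ (2 * (t * t)) * (2 * (t * t)) := Nat.mul_le_mul f1 f2
    _ = 4 * (t * t * t * t) := by ring
    _ ≤ 100 * (t * t * t * t) := Nat.mul_le_mul_right _ (by norm_num)

theorem e_gw {e : ℕ} (he : e ≤ T 12) : gw (T 2) (tl (T 2) 2) (2 ^ e) (kr (T 2)) ≤ T 16 := by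
  have h1 := e_gk h0 hs
  have hc : kr (T 2) ≤ T 4 := by
    rw [e_kr h0 hs]
    exact T_lin h0 hs 3 _ (by omega)
  have h2 : 2 ^ e ≤ T 13 := T_pow h0 hs he
  rw [gw]
  refine T_pow h0 hs (T_pow h0 hs (T_two h0 hs 13 _ ?_))
  generalize gk (T 2) (tl (T 2) 2) (kr (T 2)) = a at h1 ⊢
  generalize kr (T 2) = c at hc ⊢
  generalize 2 ^ e = x at h2 ⊢
  have e1 := h1.trans (T_mono h0 hs (show 7 ≤ 13 by norm_num))
  have e2 := hc.trans (T_mono h0 hs (show 4 ≤ 13 by norm_num))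
  have e4 := T_ge h0 hs 13
  generalize T 13 = t at e1 e2 e4 h2 ⊢
  have f1 : a * (1 + a) ≤ t * (1 + t) := Nat.mul_le_mul e1 (Nat.add_le_add_left e1 1)
  nlinarith

theorem e_fl {e : ℕ} (he : e ≤ T 12) : fl (T 2) e ≤ T 18 := by
  have h1 := e_gw h0 hs he
  rw [fl]
  have h2 := fac_le _ (T 15) (T 16) (by rw [← hs 15]; exact h1) h1
  refine h2.trans (T_pow h0 hs (T_two h0 hs 16 _ ?_))
  have h5 := T_mono h0 hs (show 15 ≤ 16 by norm_num)
  calc T 15 * T 16 ≤ T 16 * T 16 := Nat.mul_le_mul_right _ h5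
    _ ≤ 100 * (T 16 * T 16) := Nat.le_mul_of_pos_left _ (by norm_num)

theorem e_it {e l m k : ℕ} (he : e ≤ T 12) (hl : l ≤ 2 * T m) (hm : 12 ≤ m) (hk : k = m + 2) :
    (ex (T 2) + 8) ^ l * (e + 8) ≤ T k := by
  subst hk
  have h1 : ex (T 2) + 8 ≤ 2 ^ T 5 := by
    rw [← hs]
    refine T_lin h0 hs 5 _ ?_
    have := e_ex h0 hs
    have := T_ge h0 hs 5
    omega
  have h2 : e + 8 ≤ 2 ^ T 12 := by
    rw [← hs]
    refine T_lin h0 hs 12 _ ?_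
    have := T_ge h0 hs 12
    omega
  calc (ex (T 2) + 8) ^ l * (e + 8) ≤ 2 ^ (T 5 * (2 * T m)) * 2 ^ T 12 := Nat.mul_le_mul (pow_le h1 hl) h2
    _ = 2 ^ (T 5 * (2 * T m) + T 12) := by rw [pow_add]
    _ ≤ T (m + 2) := by
      refine T_pow h0 hs (T_two h0 hs m _ ?_)
      have h5 := T_mono h0 hs (show 5 ≤ m by omega)
      have h6 := T_mono h0 hs hm
      have h7 := T_ge h0 hs m
      generalize T m = t at h5 h6 h7 ⊢
      calc T 5 * (2 * t) + T 12 ≤ t * (2 * t) + t := Nat.add_le_add (Nat.mul_le_mul_right _ h5) h6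
        _ ≤ 100 * (t * t) := by nlinarith

theorem e_fe {e : ℕ} (he : e ≤ T 12) : fe (T 2) e ≤ T 20 := by
  rw [fe]
  exact e_it h0 hs (m := 18) he (by have := e_fl h0 hs he; omega) (by norm_num) rfl

theorem e_tl {a m k : ℕ} (ha : a ≤ T m) (hm : 5 ≤ m) (hk : k = m + 2) (D : ℕ) (hD : D ≤ 2 ^ (a + 1)) : tl (T 2) D ≤ T k := by
  subst hk
  rw [tl]
  refine T_pow h0 hs (T_two h0 hs m _ ?_)
  have h1 := log_le hD
  have h2 := (e_ex h0 hs).trans (T_mono h0 hs hm)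
  have h7 := T_ge h0 hs m
  calc ex (T 2) * (Nat.log 2 D + 3) ≤ T m * (T m + 4) := Nat.mul_le_mul h2 (by omega)
    _ ≤ 100 * (T m * T m) := by nlinarith

theorem e_fY {e : ℕ} (he : e ≤ T 12) : fY (T 2) e ≤ T 22 := by
  rw [fY]
  exact e_tl h0 hs (m := 20) (e_fe h0 hs he) (by norm_num) rfl _ (Nat.pow_le_pow_right (by norm_num) (Nat.le_succ _))

theorem e_fm {e : ℕ} (he : e ≤ T 12) : fm (T 2) e ≤ T 26 := by
  have h1 := e_fY h0 hs he
  rw [fm]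
  have h2 : fY (T 2) e ^ fY (T 2) e ≤ 2 ^ (T 21 * T 22) := pow_le (by rw [← hs 21]; exact h1) h1
  have h3 : fY (T 2) e ^ fY (T 2) e * fY (T 2) e ^ fY (T 2) e ≤ 2 ^ T 23 := by
    calc fY (T 2) e ^ fY (T 2) e * fY (T 2) e ^ fY (T 2) e ≤ 2 ^ (T 21 * T 22) * 2 ^ (T 21 * T 22) := Nat.mul_le_mul h2 h2
      _ = 2 ^ (T 21 * T 22 + T 21 * T 22) := by rw [pow_add]
      _ ≤ 2 ^ T 23 := by
        refine Nat.pow_le_pow_right (by norm_num) (T_two h0 hs 22 _ ?_)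
        have h5 := T_mono h0 hs (show 21 ≤ 22 by norm_num)
        have h6 : T 21 * T 22 ≤ T 22 * T 22 := Nat.mul_le_mul_right _ h5
        omega
  have h4 := fac_le _ (T 23) (T 24) h3 (by rw [hs 23]; exact h3)
  refine h4.trans (T_pow h0 hs (T_two h0 hs 24 _ ?_))
  have h5 := T_mono h0 hs (show 23 ≤ 24 by norm_num)
  calc T 23 * T 24 ≤ T 24 * T 24 := Nat.mul_le_mul_right _ h5
    _ ≤ 100 * (T 24 * T 24) := Nat.le_mul_of_pos_left _ (by norm_num)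

theorem e_fg {e : ℕ} (he : e ≤ T 12) : fg (T 2) e ≤ T 28 := by
  rw [fg]
  refine e_it h0 hs (m := 26) he ?_ (by norm_num) rfl
  have h1 := e_fl h0 hs he
  have h2 := e_fm h0 hs he
  have h3 := T_mono h0 hs (show 18 ≤ 26 by norm_num)
  omega

theorem e_fK {e : ℕ} (he : e ≤ T 12) : fK (T 2) e ≤ T 30 := by
  rw [fK]
  refine e_tl h0 hs (m := 28) (e_fg h0 hs he) (by norm_num) rfl _ ?_
  rw [pow_succ, mul_comm]

theorem e_fC {e : ℕ} (he : e ≤ T 12) : fC (T 2) e ≤ T 32 := by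
  have h1 := e_fY h0 hs he
  have h2 := e_fK h0 hs he
  have h3 := e_fg h0 hs he
  rw [fC]
  have h4 : fY (T 2) e ^ fY (T 2) e ≤ 2 ^ (T 21 * T 22) := pow_le (by rw [← hs 21]; exact h1) h1
  have h5 := pow_le h4 h2
  have h6 := pow_le h5 (le_refl (T 2))
  calc ((fY (T 2) e ^ fY (T 2) e) ^ fK (T 2) e) ^ T 2 * 2 ^ fg (T 2) e ≤ 2 ^ (T 21 * T 22 * T 30 * T 2) * 2 ^ T 28 :=
        Nat.mul_le_mul h6 (Nat.pow_le_pow_right (by norm_num) h3)
    _ = 2 ^ (T 21 * T 22 * T 30 * T 2 + T 28) := by rw [pow_add]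
    _ ≤ T 32 := by
      refine T_pow h0 hs (T_poly h0 hs 30 _ ?_)
      have e1 := T_mono h0 hs (show 21 ≤ 30 by norm_num)
      have e2 := T_mono h0 hs (show 22 ≤ 30 by norm_num)
      have e3 := T_mono h0 hs (show 2 ≤ 30 by norm_num)
      have e4 := T_mono h0 hs (show 28 ≤ 30 by norm_num)
      have e5 := T_ge h0 hs 30
      have e6 := T_sq h0 hs 30
      have f1 : T 21 * T 22 * T 30 * T 2 ≤ T 30 * T 30 * T 30 * T 30 :=
        Nat.mul_le_mul (Nat.mul_le_mul_right _ (Nat.mul_le_mul e1 e2)) e3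
      generalize T 21 * T 22 * T 30 * T 2 = w at f1 ⊢
      generalize T 30 = t at e4 e5 e6 f1 ⊢
      have f2 : t ≤ t * t * t * t := by
        calc t = 1 * 1 * 1 * t := by ring
          _ ≤ t * t * t * t := by gcongr <;> omega
      omega

theorem est : fC (T 2) (fB (T 2)) ≤ T 32 := e_fC h0 hs (e_fB h0 hs)

end

end Pool.Agent.Fah
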