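import Pool.Agent.Fah.E4

/-!
# Explicit constants: the theorem
-/

set_option autoImplicit false

namespace Pool.Agent.Fah

open Pool.Agent.EgO (Ah AltFactor main_count exists_m_count)

theorem main' (y : ℕ) (hy : 31 ≤ y) {G : Type} [Group G] [Finite G] (hG : Ah G)
    (hi : ∀ p : ℕ, p.Prime → p ∣ Nat.card G → p ≤ y)
    (hii : ∀ (K L S : Subgroup G) [K.Normal] [L.Normal], K ≤ S → S ≤ L → (∀ l ∈ L, ∀ s ∈ S, l * s * l⁻¹ ∈ S) →
      IsSimpleGroup (S ⧸ K.subgroupOf S) → (∃ s t : S ⧸ K.subgroupOf S, s * t ≠ t * s) →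
      Nat.card (S ⧸ K.subgroupOf S) ≤ y ∨ ∃ n, Nonempty (S ⧸ K.subgroupOf S ≃* alternatingGroup (Fin n))) :
    Nat.card G ≤ fC y (fB y) := by
  have hdeg := alt_deg hG (B := y) (fun p hp hd => Or.inl (hi p hp hd))
  rw [max_eq_right hy] at hdeg
  obtain ⟨R, hR, hRs, hRc⟩ := top_bound' y y.factorial hG hi (by
    intro K L S hK hL hKS hSL hS hsim hna
    rcases hii K L S hKS hSL hS hsim hna with h | ⟨n, ⟨e⟩⟩
    · exact h.trans (Nat.self_le_factorial _)
    · have hn := hdeg n ⟨K, L, S, hK, hL, hKS, hSL, hS, ⟨e⟩⟩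
      rw [Nat.card_congr e.toEquiv]
      calc Nat.card (alternatingGroup (Fin n)) ≤ Nat.card (Equiv.Perm (Fin n)) := Subgroup.card_le_card_group _
        _ = n.factorial := by rw [Nat.card_perm, Nat.card_fin]
        _ ≤ y.factorial := Nat.factorial_le hn.le)
  refine final' y (fB y) hG hi R hR hRs (hRc.trans ?_)
  rw [fB]
  exact Nat.lt_two_pow_self.le

theorem cube_le (x : ℕ) (hx : 149 ≤ x) : x ^ 3 ≤ 2 ^ (x - 64) := by
  induction x, hx using Nat.le_induction with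
  | base => norm_num
  | succ n hn ih =>
      have h1 : 2 ^ (n + 1 - 64) = 2 * 2 ^ (n - 64) := by
        rw [show n + 1 - 64 = (n - 64) + 1 by omega]
        ring
      have h2 : (n + 1) ^ 3 ≤ 2 * n ^ 3 := by
        obtain ⟨m, rfl⟩ : ∃ m, n = m + 149 := ⟨n - 149, by omega⟩
        nlinarith [Nat.zero_le (m ^ 2), Nat.zero_le (m ^ 3)]
      omega

theorem double_exp' (m : ℕ) (hm : 2 ^ 91 ≤ m) : (2 ^ 56) ^ m ≤ 2 ^ 2 ^ (Nat.sqrt (m / Nat.log 2 m) / 8) := by
  obtain ⟨t, ht⟩ : ∃ t, t = Nat.log 2 m := ⟨_, rfl⟩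
  have hm0 : m ≠ 0 := by
    have : 0 < 2 ^ 91 := by positivity
    omega
  have ht1 : 91 ≤ t := by
    rw [ht]
    exact Nat.le_log_of_pow_le (by norm_num) hm
  have ht2 : 2 ^ t ≤ m := by
    rw [ht]
    exact Nat.pow_log_le_self 2 hm0
  have ht3 : m < 2 ^ (t + 1) := by
    rw [ht]
    exact Nat.lt_pow_succ_log_self (by norm_num) m
  have h1 := cube_le (t + 58) (by omega)
  have h2 : 64 * (t + 58) ^ 3 ≤ 2 ^ t := by
    calc 64 * (t + 58) ^ 3 ≤ 2 ^ 6 * 2 ^ (t + 58 - 64) := Nat.mul_le_mul (by norm_num) h1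
      _ = 2 ^ t := by rw [← pow_add, show 6 + (t + 58 - 64) = t by omega]
  have hs : t + 58 ≤ Nat.sqrt (m / t) / 8 := by
    rw [Nat.le_div_iff_mul_le (by norm_num), Nat.le_sqrt, Nat.le_div_iff_mul_le (by omega)]
    calc (t + 58) * 8 * ((t + 58) * 8) * t = 64 * ((t + 58) ^ 2 * t) := by ring
      _ ≤ 64 * ((t + 58) ^ 2 * (t + 58)) := by gcongr; omega
      _ = 64 * (t + 58) ^ 3 := by ring
      _ ≤ 2 ^ t := h2
      _ ≤ m := ht2
  rw [← ht, ← pow_mul]
  refine Nat.pow_le_pow_right (by norm_num) ?_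
  calc 56 * m ≤ 2 ^ 57 * 2 ^ (t + 1) := Nat.mul_le_mul (by norm_num) ht3.le
    _ = 2 ^ (t + 58) := by rw [← pow_add, show 57 + (t + 1) = t + 58 by omega]
    _ ≤ _ := Nat.pow_le_pow_right (by norm_num) hs

/-- For every `B` the orders of the groups with distinct class sizes whose nonabelian composition factors are alternating or of order at most `B` are
at most `T 32`, if `T 0 = B + 100` and `T (k + 1) = 2 ^ T k`. -/
theorem explicit (B : ℕ) {T : ℕ → ℕ} (hT0 : T 0 = B + 100) (hs : ∀ k, T (k + 1) = 2 ^ T k) {G : Type} [Group G] [Finite G]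
    (hG : Ah G)
    (hii : ∀ (K L S : Subgroup G) [K.Normal] [L.Normal], K ≤ S → S ≤ L → (∀ l ∈ L, ∀ s ∈ S, l * s * l⁻¹ ∈ S) →
      IsSimpleGroup (S ⧸ K.subgroupOf S) → (∃ s t : S ⧸ K.subgroupOf S, s * t ≠ t * s) →
      Nat.card (S ⧸ K.subgroupOf S) ≤ B ∨ ∃ n, Nonempty (S ⧸ K.subgroupOf S ≃* alternatingGroup (Fin n))) :
    Nat.card G ≤ T 32 := by
  have h0 : 100 ≤ T 0 := by omega
  refine le_trans ?_ (est h0 hs)
  obtain ⟨M, hM⟩ : ∃ M, M = 2 ^ (B + 94) := ⟨_, rfl⟩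
  have hM1 : 2 ^ 91 ≤ M := by
    rw [hM]
    exact Nat.pow_le_pow_right (by norm_num) (by omega)
  have hM2 : 2 ^ 17 ≤ M := le_trans (by norm_num) hM1
  have hM3 : B ≤ M := by
    rw [hM]
    exact (Nat.lt_two_pow_self.le).trans (Nat.pow_le_pow_right (by norm_num) (by omega))
  have hM5 : 5 ≤ M := le_trans (by norm_num) hM2
  have hMT : (2 ^ 56) ^ M ≤ T 2 := by
    rw [← pow_mul, hs 1]
    refine Nat.pow_le_pow_right (by norm_num) ?_
    rw [hs 0, hT0, hM]
    calc 56 * 2 ^ (B + 94) ≤ 2 ^ 6 * 2 ^ (B + 94) := Nat.mul_le_mul_right _ (by norm_num)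
      _ = 2 ^ (B + 100) := by rw [← pow_add, show 6 + (B + 94) = B + 100 by omega]
  have hMy : M ≤ T 2 := by
    refine le_trans ?_ hMT
    rw [← pow_mul]
    exact (Nat.lt_two_pow_self.le).trans (Nat.pow_le_pow_right (by norm_num) (by omega))
  -- the primes are at most 2 ^ (56 m) if all the degrees are at most m
  have hpr : ∀ m, M ≤ m → (∀ n, AltFactor G n → n ≤ m) → ∀ r : ℕ, r.Prime → r ∣ Nat.card G → r ≤ (2 ^ 56) ^ m := by
    intro m hm hmax
    refine pb G m (hM5.trans hm) (rational_of_ah hG) ?_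
    intro K' L S hK' hL hKS hSL hS hsim hna p hp hpd
    rcases hii K' L S hKS hSL hS hsim hna with h | ⟨n, ⟨e⟩⟩
    · exact (Nat.le_of_dvd Nat.card_pos hpd).trans (h.trans (hM3.trans hm))
    · rw [Nat.card_congr e.toEquiv] at hpd
      exact (prime_alt hp hpd).trans (hmax n ⟨K', L, S, hK', hL, hKS, hSL, hS, ⟨e⟩⟩)
  -- the degrees are at most M
  have hdeg : ∀ n, AltFactor G n → n ≤ M := by
    by_contra hcon
    push Not at hcon
    obtain ⟨n₀, h1, h2⟩ := hcon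
    obtain ⟨m, hm, hmax⟩ : ∃ n, (M ≤ n ∧ AltFactor G n) ∧ ∀ m, M ≤ m ∧ AltFactor G m → m ≤ n := by
      have hfin : Set.Finite {m | M ≤ m ∧ AltFactor G m} :=
        (Set.finite_Iic (Nat.card G + 2)).subset fun m hm => deg_le (hM5.trans hm.1) hm.2
      obtain ⟨n, hn, hmax⟩ := Set.exists_max_image _ id hfin ⟨n₀, h2.le, h1⟩
      exact ⟨n, hn, hmax⟩
    have h3 := hpr m hm.1 (fun n hn => by
      rcases Nat.lt_or_ge n M with h | h
      · exact h.le.trans hm.1
      · exact hmax n ⟨h, hn⟩)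
    have h4 := main_count hG (by have := hM2.trans hm.1; norm_num at this; omega) (by positivity) hm.2
      (exists_m_count (hM2.trans hm.1))
    have h5 : (Nat.card G).primeFactors ⊆ Finset.Icc 1 ((2 ^ 56) ^ m) := by
      intro r hr
      have hrp := Nat.prime_of_mem_primeFactors hr
      exact Finset.mem_Icc.2 ⟨hrp.one_le, h3 r hrp (Nat.dvd_of_mem_primeFactors hr)⟩
    have h6 := Finset.card_le_card h5
    rw [Nat.card_Icc, Nat.add_sub_cancel] at h6
    have h7 := double_exp' m (hM1.trans hm.1)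
    omega
  refine main' (T 2) ((show 31 ≤ 100 by norm_num).trans (T_ge h0 hs 2)) hG ?_ ?_
  · intro p hp hpd
    exact (hpr M le_rfl hdeg p hp hpd).trans hMT
  · intro K' L S hK' hL hKS hSL hS hsim hna
    rcases hii K' L S hKS hSL hS hsim hna with h | h
    · exact Or.inl (h.trans (hM3.trans hMy))
    · exact Or.inr h

end Pool.Agent.Fah
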