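import Pool.Agent.Fah.N
import Pool.Agent.Fah.A2
import Pool.Agent.Bdt.Smooth
import Pool.Agent.Bdt.Orb
import Pool.Agent.EgO.Fin

/-!
# Counting with distinct centralizer orders; the index of the solvable radical
-/

set_option autoImplicit false

namespace Pool.Agent.Fah

open Pool.Agent.Bdt (der cj mem_cj cj_one cj_mul tail_eps orb cent_quot exists_rad sec_equiv MinN Fac)
open Pool.Agent.EgO (Ah AltFactor cent main_sec exists_m)

theorem order_le {Q : Type*} [Group Q] [Finite Q] (g : Q) : orderOf g ≤ Nat.card (Subgroup.centralizer {g}) := by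
  rw [← Nat.card_zpowers]
  refine Subgroup.card_le_of_le ?_
  rw [Subgroup.zpowers_le, Subgroup.mem_centralizer_singleton_iff]

theorem alt_deg {G : Type} [Group G] [Finite G] (hG : Ah G) {B : ℕ}
    (hi : ∀ p : ℕ, p.Prime → p ∣ Nat.card G → p ≤ B ∨ ∃ n, p ≤ n ∧ AltFactor G n) :
    ∀ n, AltFactor G n → n < max 31 B := by
  by_contra hcon
  push Not at hcon
  obtain ⟨n₀, h1, h2⟩ := hcon
  -- the set of the degrees is bounded
  have hbd : ∀ n, 5 ≤ n → AltFactor G n → n ≤ Nat.card G + 2 := by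
    rintro n hn ⟨K, L, S, hK, -, -, -, -, ⟨e⟩⟩
    have h3 : Nat.card (alternatingGroup (Fin n)) ≤ Nat.card G := by
      rw [← Nat.card_congr e.toEquiv]
      exact (Nat.le_of_dvd Nat.card_pos (Subgroup.card_quotient_dvd_card _)).trans (Subgroup.card_le_card_group S)
    have h4 : 2 * Nat.card (alternatingGroup (Fin n)) = n.factorial := by
      have : Nontrivial (Fin n) := Fin.nontrivial_iff_two_le.2 (by omega)
      rw [two_mul_nat_card_alternatingGroup, Nat.card_perm, Nat.card_fin]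
    have h6 : n * (n - 1) ≤ n.factorial := by
      obtain ⟨m, rfl⟩ : ∃ m, n = m + 2 := ⟨n - 2, by omega⟩
      rw [Nat.factorial_succ, Nat.factorial_succ]
      have := Nat.factorial_pos m
      calc (m + 2) * (m + 2 - 1) = (m + 1 + 1) * ((m + 1) * 1) := by simp
        _ ≤ (m + 1 + 1) * ((m + 1) * m.factorial) := by gcongr; omega
    obtain ⟨m, rfl⟩ : ∃ m, n = m + 5 := ⟨n - 5, by omega⟩
    simp only [show m + 5 - 1 = m + 4 by omega] at h6
    nlinarith
  -- the largest degree
  obtain ⟨n, hn, hmax⟩ : ∃ n, (max 31 B ≤ n ∧ AltFactor G n) ∧ ∀ m, max 31 B ≤ m ∧ AltFactor G m → m ≤ n := by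
    have hfin : Set.Finite {m | max 31 B ≤ m ∧ AltFactor G m} :=
      (Set.finite_Iic (Nat.card G + 2)).subset fun m hm => hbd m (by have := le_max_left 31 B; have := hm.1; omega) hm.2
    obtain ⟨n, hn, hmax⟩ := Set.exists_max_image _ id hfin ⟨n₀, h2, h1⟩
    exact ⟨n, hn, hmax⟩
  have h31 : 31 ≤ n := (le_max_left _ _).trans hn.1
  obtain ⟨p, hp, hpd, hnp⟩ := main_sec hG (by omega) hn.2 (exists_m (Or.inr (Or.inr (Or.inr h31))))
  rcases hi p hp hpd with h | ⟨m, hpm, hm⟩
  · have := (le_max_right 31 B).trans hn.1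
    omega
  · have := hmax m ⟨by have := hn.1; omega, hm⟩
    omega

theorem csum {G : Type*} [Group G] [Fintype G] (hG : Ah G) (F : ℕ → ℚ) (hF : ∀ d, 0 ≤ F d) :
    ∑ g : G, F (Nat.card (Subgroup.centralizer {g})) ≤ Nat.card G * ∑ d ∈ (Nat.card G).divisors, F d / d := by
  classical
  have hm : ∀ g ∈ (Finset.univ : Finset G), Nat.card (Subgroup.centralizer {g}) ∈ (Nat.card G).divisors := fun g _ =>
    Nat.mem_divisors.2 ⟨Subgroup.card_subgroup_dvd_card _, Nat.card_pos.ne'⟩
  rw [← Finset.sum_fiberwise_of_maps_to hm, Finset.mul_sum]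
  refine Finset.sum_le_sum fun d hd => ?_
  have h1 := cent hG ({d} : Set ℕ)
  have h2 : (Nat.card {g : G // Nat.card (Subgroup.centralizer {g}) ∈ ({d} : Set ℕ)}) =
      (Finset.univ.filter fun g : G => Nat.card (Subgroup.centralizer {g}) = d).card := by
    rw [Nat.card_eq_fintype_card, Fintype.card_subtype]
    simp only [Set.mem_singleton_iff]
  have h3 : (Nat.card G).divisors.filter (· ∈ ({d} : Set ℕ)) = {d} := by
    ext e
    simp only [Finset.mem_filter, Set.mem_singleton_iff, Finset.mem_singleton]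
    constructor
    · exact fun h => h.2
    · rintro rfl
      exact ⟨hd, rfl⟩
  rw [h2, h3, Finset.sum_singleton] at h1
  have h4 : ∑ g ∈ Finset.univ.filter (fun g : G => Nat.card (Subgroup.centralizer {g}) = d),
      F (Nat.card (Subgroup.centralizer {g})) =
      (Finset.univ.filter fun g : G => Nat.card (Subgroup.centralizer {g}) = d).card * F d := by
    rw [Finset.sum_congr rfl fun g hg => by rw [(Finset.mem_filter.1 hg).2], Finset.sum_const, nsmul_eq_mul]
  rw [h4]
  calc ((Finset.univ.filter fun g : G => Nat.card (Subgroup.centralizer {g}) = d).card : ℚ) * F d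
      ≤ (Nat.card G * (1 / d)) * F d := mul_le_mul_of_nonneg_right h1 (hF d)
    _ = Nat.card G * (F d / d) := by ring

theorem step (B c : ℕ) : ∃ f : ℕ, ∀ (G : Type) [Group G] [Finite G], Ah G →
    (∀ p : ℕ, p.Prime → p ∣ Nat.card G → p ≤ B) → ∀ A : Subgroup G, A.Normal → A.index ≤ c →
    (⁅A, A⁆ : Subgroup G).relIndex A ≤ f := by
  classical
  rcases Nat.eq_zero_or_pos c with rfl | hc
  · refine ⟨0, fun G _ _ _ _ A _ hA => ?_⟩
    have := A.index_ne_zero_of_finite
    omega
  have hcq : (0 : ℚ) < c := by exact_mod_cast hc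
  obtain ⟨X, hX⟩ := tail_eps B (ε := 1 / (2 * c)) (by positivity)
  refine ⟨2 * c * X, ?_⟩
  intro G _ _ hG hp A hA hAc
  have : Fintype G := Fintype.ofFinite G
  obtain ⟨w, hw⟩ : ∃ w, w = (⁅A, A⁆ : Subgroup G).relIndex A := ⟨_, rfl⟩
  rw [← hw]
  have h1 := orb A
  rw [← hw] at h1
  have h2 := csum hG (fun d => (min w d : ℕ)) (fun d => by positivity)
  have h3 : ((Nat.card A * w : ℕ) : ℚ) ≤ ((∑ g : G, min w (Nat.card (Subgroup.centralizer {g})) : ℕ) : ℚ) := by
    exact_mod_cast h1
  rw [Nat.cast_sum] at h3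
  have h4 := h3.trans h2
  -- the sum over the divisors
  have h5 : ∑ d ∈ (Nat.card G).divisors, ((min w d : ℕ) : ℚ) / d ≤ X + w * (1 / (2 * c)) := by
    rw [← Finset.sum_filter_add_sum_filter_not _ (fun d => d ≤ X)]
    refine add_le_add ?_ ?_
    · calc ∑ d ∈ (Nat.card G).divisors.filter (fun d => d ≤ X), ((min w d : ℕ) : ℚ) / d
          ≤ ∑ d ∈ (Nat.card G).divisors.filter (fun d => d ≤ X), (1 : ℚ) := by
            refine Finset.sum_le_sum fun d hd => ?_
            have hd0 : 0 < d := Nat.pos_of_mem_divisors (Finset.mem_filter.1 hd).1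
            have hdq : (0 : ℚ) < d := by exact_mod_cast hd0
            rw [div_le_one hdq]
            exact_mod_cast min_le_right w d
        _ ≤ ∑ d ∈ Finset.Icc 1 X, (1 : ℚ) := by
            refine Finset.sum_le_sum_of_subset_of_nonneg ?_ fun _ _ _ => by norm_num
            intro d hd
            have hd0 : 0 < d := Nat.pos_of_mem_divisors (Finset.mem_filter.1 hd).1
            exact Finset.mem_Icc.2 ⟨hd0, (Finset.mem_filter.1 hd).2⟩
        _ = X := by simp
    · calc ∑ d ∈ (Nat.card G).divisors.filter (fun d => ¬ d ≤ X), ((min w d : ℕ) : ℚ) / d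
          ≤ ∑ d ∈ (Nat.card G).divisors.filter (fun d => ¬ d ≤ X), (w : ℚ) * (1 / d) := by
            refine Finset.sum_le_sum fun d hd => ?_
            rw [mul_one_div]
            have : ((min w d : ℕ) : ℚ) ≤ w := by exact_mod_cast min_le_left w d
            exact div_le_div_of_nonneg_right this (by positivity)
        _ = w * ∑ d ∈ (Nat.card G).divisors.filter (fun d => ¬ d ≤ X), (1 : ℚ) / d := by rw [Finset.mul_sum]
        _ ≤ w * (1 / (2 * c)) := by
            refine mul_le_mul_of_nonneg_left (le_of_lt (hX _ ?_)) (by positivity)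
            intro d hd
            rw [Finset.mem_filter] at hd
            exact ⟨not_le.1 hd.2, fun p hpp hpd => hp p hpp (hpd.trans (Nat.dvd_of_mem_divisors hd.1))⟩
  have h6 : Nat.card A * A.index = Nat.card G := Subgroup.card_mul_index A
  have hA0 : (0 : ℚ) < Nat.card A := by exact_mod_cast Nat.card_pos
  have h7 : (Nat.card G : ℚ) ≤ Nat.card A * c := by
    rw [← h6]
    push_cast
    exact mul_le_mul_of_nonneg_left (by exact_mod_cast hAc) hA0.le
  have h8 : ((Nat.card A * w : ℕ) : ℚ) ≤ Nat.card A * (c * (X + w * (1 / (2 * c)))) := by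
    refine h4.trans ((mul_le_mul_of_nonneg_left h5 (by positivity)).trans ?_)
    rw [← mul_assoc]
    exact mul_le_mul_of_nonneg_right h7 (by positivity)
  rw [Nat.cast_mul] at h8
  have h9 : (w : ℚ) ≤ c * (X + w * (1 / (2 * c))) := le_of_mul_le_mul_left h8 hA0
  have h10 : (c : ℚ) * (X + w * (1 / (2 * c))) = c * X + w / 2 := by
    field_simp
  rw [h10] at h9
  have h11 : (w : ℚ) ≤ 2 * c * X := by linarith
  exact_mod_cast h11

theorem iter (B c l : ℕ) : ∃ C : ℕ, ∀ (G : Type) [Group G] [Finite G], Ah G →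
    (∀ p : ℕ, p.Prime → p ∣ Nat.card G → p ≤ B) → ∀ R : Subgroup G, R.Normal → R.index ≤ c → (der R l).index ≤ C := by
  induction l with
  | zero => exact ⟨c, fun G _ _ _ _ R _ h => h⟩
  | succ l ih =>
      obtain ⟨C, hC⟩ := ih
      obtain ⟨f, hf⟩ := step B C
      refine ⟨f * C, fun G _ _ hG hp R hR h => ?_⟩
      have h1 := hC G hG hp R hR h
      have h2 := hf G hG hp (der R l) (der_normal hR l) h1
      have h3 : (der R (l + 1)) ≤ der R l := by
        have := der_normal hR l
        exact Subgroup.commutator_le_left _ _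
      have h4 := Subgroup.relIndex_mul_index h3
      rw [← h4]
      exact Nat.mul_le_mul h2 h1

theorem few (B : ℕ) {ε : ℚ} (hε : 0 < ε) : ∃ X : ℕ, ∀ (G : Type) [Group G] [Finite G], Ah G →
    (∀ p : ℕ, p.Prime → p ∣ Nat.card G → p ≤ B) →
    (Nat.card {g : G // X < Nat.card (Subgroup.centralizer {g})} : ℚ) < Nat.card G * ε := by
  classical
  obtain ⟨X, hX⟩ := tail_eps B hε
  refine ⟨X, fun G _ _ hG hp => ?_⟩
  have h1 := cent hG {d | X < d}
  refine lt_of_le_of_lt h1 ?_
  have h4 : (0 : ℚ) < Nat.card G := by exact_mod_cast Nat.card_pos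
  refine mul_lt_mul_of_pos_left (hX _ ?_) h4
  intro d hd
  rw [Finset.mem_filter] at hd
  exact ⟨hd.2, fun p hpp hpd => hp p hpp (hpd.trans (Nat.dvd_of_mem_divisors hd.1))⟩

/-- At least half of the elements have order at most a constant. -/
theorem half (B : ℕ) : ∃ Y : ℕ, 0 < Y ∧ ∀ (G : Type) [Group G] [Finite G], Ah G →
    (∀ p : ℕ, p.Prime → p ∣ Nat.card G → p ≤ B) → Nat.card G ≤ 2 * Nat.card {g : G // orderOf g ≤ Y} := by
  classical
  obtain ⟨X₀, hX₀⟩ := few B (ε := 1 / 2) (by norm_num)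
  refine ⟨X₀ + 1, Nat.succ_pos _, fun G _ _ hG hp => ?_⟩
  have h1 := hX₀ G hG hp
  have h2 : Nat.card {g : G // X₀ < Nat.card (Subgroup.centralizer {g})} +
      Nat.card {g : G // ¬ X₀ < Nat.card (Subgroup.centralizer {g})} = Nat.card G := by
    rw [← Nat.card_sum]
    exact Nat.card_congr (Equiv.sumCompl _)
  have h3 : Nat.card {g : G // ¬ X₀ < Nat.card (Subgroup.centralizer {g})} ≤ Nat.card {g : G // orderOf g ≤ X₀ + 1} := by
    refine Nat.card_le_card_of_injective (fun g => ⟨g, ?_⟩) ?_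
    · exact (order_le (g : G)).trans ((not_lt.1 g.2).trans (Nat.le_succ _))
    · intro a b hab
      have h9 := congrArg Subtype.val hab
      exact Subtype.ext h9
  have h4 : (Nat.card {g : G // X₀ < Nat.card (Subgroup.centralizer {g})} : ℚ) +
      Nat.card {g : G // ¬ X₀ < Nat.card (Subgroup.centralizer {g})} = Nat.card G := by exact_mod_cast h2
  have h5 : (Nat.card {g : G // ¬ X₀ < Nat.card (Subgroup.centralizer {g})} : ℚ) ≤
      Nat.card {g : G // orderOf g ≤ X₀ + 1} := by exact_mod_cast h3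
  have h6 : (Nat.card G : ℚ) ≤ 2 * Nat.card {g : G // orderOf g ≤ X₀ + 1} := by linarith
  exact_mod_cast h6

/-- The average of `min w |C(g)|` is at most a power of `log w`. -/
theorem sum_min (B : ℕ) : ∃ c : ℕ, ∀ (G : Type) [Group G] [Fintype G], Ah G →
    (∀ p : ℕ, p.Prime → p ∣ Nat.card G → p ≤ B) → ∀ w : ℕ, 0 < w →
      ∑ g : G, min w (Nat.card (Subgroup.centralizer {g})) ≤ Nat.card G * (c * (Nat.log 2 w + 1) ^ c) := by
  obtain ⟨c, hc⟩ := rankin B
  refine ⟨c, fun G _ _ hG hp w hw => ?_⟩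
  have hG0 : (0 : ℚ) < Nat.card G := by exact_mod_cast Nat.card_pos
  have h1 := csum hG (fun d => (min w d : ℕ)) (fun d => by positivity)
  have h2 := hc w hw (Nat.card G).divisors (fun d hd =>
    ⟨Nat.pos_of_mem_divisors hd, fun p hpp hpd => hp p hpp (hpd.trans (Nat.dvd_of_mem_divisors hd))⟩)
  have h3 := h1.trans (mul_le_mul_of_nonneg_left h2 hG0.le)
  have h4 : ((∑ g : G, min w (Nat.card (Subgroup.centralizer {g})) : ℕ) : ℚ) ≤
      ((Nat.card G * (c * (Nat.log 2 w + 1) ^ c) : ℕ) : ℚ) := by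
    push_cast at h3 ⊢
    exact h3
  exact_mod_cast h4

/-- The index of the solvable radical is bounded. -/
theorem top_bound (y b : ℕ) : ∃ C : ℕ, ∀ (G : Type) [Group G] [Finite G], Ah G →
    (∀ p : ℕ, p.Prime → p ∣ Nat.card G → p ≤ y) →
    (∀ (K L S : Subgroup G) [K.Normal] [L.Normal], K ≤ S → S ≤ L → (∀ l ∈ L, ∀ s ∈ S, l * s * l⁻¹ ∈ S) →
      IsSimpleGroup (S ⧸ K.subgroupOf S) → (∃ s t : S ⧸ K.subgroupOf S, s * t ≠ t * s) →
      Nat.card (S ⧸ K.subgroupOf S) ≤ b) →
    ∃ R : Subgroup G, R.Normal ∧ Group.IsSolvable R ∧ R.index ≤ C := by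
  classical
  obtain ⟨Y, hY, hhalf⟩ := half y
  obtain ⟨c, hc⟩ := sum_min y
  obtain ⟨k₀, hk₀⟩ := grow_cmp (b + 1) c Y
  refine ⟨((b + 1) ^ k₀).factorial, ?_⟩
  intro G _ _ hG hp hii
  have : Fintype G := Fintype.ofFinite G
  obtain ⟨R, hR, hRs, hRa⟩ := exists_rad G
  have : Fintype (G ⧸ R) := Fintype.ofFinite _
  refine ⟨R, hR, hRs, ?_⟩
  have hT : ∀ T ∈ Cmp (G ⧸ R), Nat.card T ≤ b + 1 := by
    rintro T ⟨N, hN, hT⟩
    obtain ⟨hsim, hna⟩ := Cmp.simple hRa hN hT
    obtain ⟨e⟩ := sec_equiv R T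
    have hNn := hN.nor
    have hLn : (N.comap (QuotientGroup.mk' R)).Normal := hNn.comap _
    have hsim' : IsSimpleGroup ((T.comap (QuotientGroup.mk' R)) ⧸ R.subgroupOf (T.comap (QuotientGroup.mk' R))) := by
      have : Nontrivial ((T.comap (QuotientGroup.mk' R)) ⧸ R.subgroupOf (T.comap (QuotientGroup.mk' R))) :=
        e.toEquiv.nontrivial
      exact IsSimpleGroup.isSimpleGroup_of_surjective e.symm.toMonoidHom e.symm.surjective
    have h1 := hii R (N.comap (QuotientGroup.mk' R)) (T.comap (QuotientGroup.mk' R)) (by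
        intro x hx
        rw [Subgroup.mem_comap, QuotientGroup.mk'_apply, (QuotientGroup.eq_one_iff x).2 hx]
        exact T.one_mem) (Subgroup.comap_mono hT.le) (by
        intro l hl s hs
        rw [Subgroup.mem_comap] at hl hs ⊢
        rw [map_mul, map_mul, map_inv]
        exact hT.nor _ hl _ hs) hsim' (by
        obtain ⟨a, ha, b, hb, hab⟩ := hna
        refine ⟨e.symm ⟨a, ha⟩, e.symm ⟨b, hb⟩, fun h => hab ?_⟩
        rw [← map_mul, ← map_mul] at h
        exact congrArg Subtype.val (e.symm.injective h))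
    rw [← Nat.card_congr e.toEquiv]
    exact h1.trans (Nat.le_succ _)
  have hcard := Soc.card hT
  obtain ⟨k, hk⟩ : ∃ k, k = Nat.card (Cmp (G ⧸ R)) := ⟨_, rfl⟩
  rw [← hk] at hcard
  have hw : ∑ q : G ⧸ R, Nat.card {m : Soc (G ⧸ R) // q * (m : G ⧸ R) = m * q} ≤
      Nat.card (G ⧸ R) * (c * (Nat.log 2 ((b + 1) ^ k) + 1) ^ c) := by
    have h1 := quot_sum R (fun d => min ((b + 1) ^ k) d) (fun a b hab => min_le_min le_rfl hab)
    have h2 := hc G hG hp ((b + 1) ^ k) (by positivity)
    have h3 : Nat.card R * Nat.card (G ⧸ R) = Nat.card G := by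
      rw [mul_comm]
      exact (Subgroup.card_eq_card_quotient_mul_card_subgroup R).symm
    have h4 : ∑ q : G ⧸ R, Nat.card {m : Soc (G ⧸ R) // q * (m : G ⧸ R) = m * q} ≤
        ∑ q : G ⧸ R, min ((b + 1) ^ k) (Nat.card (Subgroup.centralizer {q})) := by
      refine Finset.sum_le_sum fun q _ => le_min ?_ ?_
      · refine le_trans ?_ hcard
        exact Nat.card_le_card_of_injective Subtype.val Subtype.val_injective
      · refine Nat.card_le_card_of_injective (fun m => ⟨((m : Soc (G ⧸ R)) : G ⧸ R), ?_⟩) ?_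
        · rw [Subgroup.mem_centralizer_singleton_iff]
          exact m.2.symm
        · intro a b hab
          have h9 := congrArg Subtype.val hab
          exact Subtype.ext (Subtype.ext h9)
    refine h4.trans ?_
    have h5 := h1.trans h2
    rw [← h3, mul_assoc] at h5
    exact Nat.le_of_mul_le_mul_left h5 Nat.card_pos
  have h6 := soc_orb hRa hY (half_quot R (hhalf G hG hp)) hw
  rw [← hk] at h6
  have h7 := hk₀ k hY h6
  have h8 := Soc.faithful hRa
  rw [Subgroup.index]
  refine h8.trans (Nat.factorial_le (hcard.trans ?_))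
  exact Nat.pow_le_pow_right (Nat.succ_pos _) h7

end Pool.Agent.Fah
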