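import Pool.Agent.Fah.B
import Pool.Agent.Fah.Top

/-!
# Finitely many groups with classes of distinct sizes
-/

set_option autoImplicit false

namespace Pool.Agent.Fah

open Pool.Agent.Bdt (der cj mem_cj cj_one cj_mul)
open Pool.Agent.EgO (Ah AltFactor)

theorem chief_abs {H E : Type*} [Group H] [Finite H] [AddCommGroup E] [Finite E] [DistribMulAction H E]
    (hE : Nontrivial E) (hirr : Irr H E) (hf : Fth H E) {p y Y : ℕ} (hp : p.Prime) (hpE : ∀ v : E, p • v = 0)
    (hpy : p ≤ y) (hy : ∀ q : ℕ, q.Prime → q ∣ Nat.card H → q ≤ y) (hY : 0 < Y)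
    (hhalf : Nat.card H ≤ 2 * Nat.card {h : H // orderOf h ≤ Y}) (S : Subgroup H) (hS : S.Normal)
    (hsol : Group.IsSolvable S) : ∃ m d : ℕ, 2 ^ (m / Y) ≤ 2 * Nat.card (MulAction.orbitRel.Quotient H E) ∧
      d ≤ ((y ^ (2 * y) * Nat.log 2 (Nat.card E)) ^ y * Nat.log 2 (Nat.card E) ^ 2) ^ m ∧
      Nat.card E ≤ S.index * d ^ (1 + Nat.log 2 d) * Nat.card (MulAction.orbitRel.Quotient H E) := by
  obtain ⟨A, hA⟩ := exists_maxA S
  obtain ⟨D, hD⟩ := exists_clD S hS hsol hA
  refine ⟨Nat.card (Kk E A), Nat.card D, ?_, card_D hp hpE hE hirr hf hA hD hpy hy, ?_⟩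
  · exact pow_orb (sg E A hA.nor) hY hhalf (supp (E := E) A)
      (supp_surj hp hpE A hA.nor hA.ab (cop hp hpE hE hirr hf A hA.nor hA.ab)) (supp_eqv A hA.nor)
  · have h1 := card_orbits (H := H) (E := E)
    have h2 := card_S hD
    have h3 : Nat.card S * S.index = Nat.card H := Subgroup.card_mul_index S
    calc Nat.card E ≤ Nat.card H * Nat.card (MulAction.orbitRel.Quotient H E) := h1
      _ = (S.index * Nat.card S) * Nat.card (MulAction.orbitRel.Quotient H E) := by rw [← h3, mul_comm (Nat.card S)]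
      _ ≤ _ := Nat.mul_le_mul_right _ (Nat.mul_le_mul_left _ h2)

theorem chief_bound (y Y C₀ c : ℕ) (hY : 0 < Y) : ∃ W : ℕ, ∀ (G : Type) [Group G] [Fintype G],
    (∀ q : ℕ, q.Prime → q ∣ Nat.card G → q ≤ y) → Nat.card G ≤ 2 * Nat.card {g : G // orderOf g ≤ Y} →
    (∀ w : ℕ, 0 < w → ∑ g : G, min w (Nat.card (Subgroup.centralizer {g})) ≤ Nat.card G * (c * (Nat.log 2 w + 1) ^ c)) →
    ∀ R : Subgroup G, R.Normal → Group.IsSolvable R → R.index ≤ C₀ →
    ∀ M N : Subgroup G, M.Normal → N.Normal → N < M → (∀ T : Subgroup G, T.Normal → N ≤ T → T ≤ M → T = N ∨ T = M) →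
      (∀ a ∈ M, ∀ b ∈ M, a * b * a⁻¹ * b⁻¹ ∈ N) → N.relIndex M ≤ W := by
  classical
  obtain ⟨W, hW⟩ := grow y Y C₀ c
  refine ⟨W, ?_⟩
  intro G _ _ hy hhalf hsum R hR hRs hRi M N hM hN hlt hch hab
  obtain ⟨E, _, _, θ, π, hS, hc⟩ := exists_sec M N hM hN hlt.le hab
  have hne : N.relIndex M ≠ 1 := fun h => hlt.not_ge (Subgroup.relIndex_eq_one.1 h)
  have hE : Nontrivial E := by
    rw [← Finite.one_lt_card_iff_nontrivial, hc]
    have : N.relIndex M ≠ 0 := by
      rw [← hc]
      exact Nat.card_pos.ne'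
    omega
  have hirr := hS.irr hM hN hlt.le hch
  have hf : Fth θ.range E := by
    intro h hh
    apply Subtype.ext
    apply Units.ext
    apply AddMonoidHom.ext
    intro v
    exact hh v
  obtain ⟨p, hp, hpE, hpd⟩ := irr_exp hE hirr
  have hHd : Nat.card θ.range ∣ Nat.card G := Subgroup.card_range_dvd θ
  have hpy : p ≤ y := hy p hp (hpd.trans (by
    rw [hc]
    exact (Subgroup.relIndex_dvd_card N M).trans (Subgroup.card_subgroup_dvd_card M)))
  -- the image of R
  obtain ⟨S, hSd⟩ : ∃ S, S = R.map θ.rangeRestrict := ⟨_, rfl⟩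
  have hSn : S.Normal := by
    rw [hSd]
    exact hR.map _ θ.rangeRestrict_surjective
  have hSs : Group.IsSolvable S := by
    rw [hSd]
    have hsur : Function.Surjective (θ.rangeRestrict.subgroupMap R) := θ.rangeRestrict.subgroupMap_surjective R
    exact Group.isSolvable_of_surjective hsur
  have hSi : S.index ≤ C₀ := by
    rw [hSd]
    refine le_trans (Nat.le_of_dvd ?_ (Subgroup.index_map_dvd R θ.rangeRestrict_surjective)) hRi
    exact Nat.pos_of_ne_zero R.index_ne_zero_of_finite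
  obtain ⟨m, d, h1, h2, h3⟩ := chief_abs hE hirr hf hp hpE hpy (fun q hq hqd => hy q hq (hqd.trans hHd)) hY
    (half_range θ hhalf) S hSn hSs
  rw [hc] at h2 h3
  -- the number of the orbits
  have h4 := burn θ
  have h5 : Nat.card (MulAction.orbitRel.Quotient θ.range E) * Nat.card G ≤
      Nat.card G * (c * (Nat.log 2 (N.relIndex M) + 1) ^ c) := by
    rw [h4]
    refine le_trans (Finset.sum_le_sum fun g _ => ?_) (hsum (N.relIndex M) (by
      rw [← hc]
      exact Nat.card_pos))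
    refine le_min ?_ (hS.fix_le hM hN hlt.le g)
    rw [← hc]
    exact Nat.card_le_card_of_injective Subtype.val Subtype.val_injective
  have h6 : Nat.card (MulAction.orbitRel.Quotient θ.range E) ≤ c * (Nat.log 2 (N.relIndex M) + 1) ^ c := by
    rw [mul_comm] at h5
    exact Nat.le_of_mul_le_mul_left h5 Nat.card_pos
  exact hW (N.relIndex M) m _ d h6 h1 hY h2 (h3.trans (by gcongr))

theorem exists_small {G : Type} [Group G] [Finite G] {X C : ℕ} (F : Subgroup G) (hF : F.index ≤ C) (hC : 0 < C)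
    (h : (Nat.card {g : G // X < Nat.card (Subgroup.centralizer {g})} : ℚ) < Nat.card G * (1 / C)) :
    ∃ x : F, Nat.card (Subgroup.centralizer {x}) ≤ X := by
  by_contra hcon
  push Not at hcon
  have h1 : Nat.card F ≤ Nat.card {g : G // X < Nat.card (Subgroup.centralizer {g})} := by
    refine Nat.card_le_card_of_injective (fun x : F => (⟨(x : G), (hcon x).trans_le ?_⟩ :
      {g : G // X < Nat.card (Subgroup.centralizer {g})})) ?_
    · refine Nat.card_le_card_of_injective (fun k : Subgroup.centralizer {x} => (⟨((k : F) : G), ?_⟩ :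
        Subgroup.centralizer {(x : G)})) ?_
      · rw [Subgroup.mem_centralizer_singleton_iff]
        have := Subgroup.mem_centralizer_singleton_iff.1 k.2
        exact congrArg Subtype.val this
      · intro a b hab
        have h9 := congrArg Subtype.val hab
        exact Subtype.ext (Subtype.ext h9)
    · intro a b hab
      have h9 := congrArg Subtype.val hab
      exact Subtype.ext h9
  have h2 : Nat.card F * F.index = Nat.card G := Subgroup.card_mul_index F
  have hC' : (0 : ℚ) < C := by exact_mod_cast hC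
  have h3 : (Nat.card G : ℚ) ≤ Nat.card F * C := by
    rw [← h2]
    push_cast
    exact mul_le_mul_of_nonneg_left (by exact_mod_cast hF) (by positivity)
  have h4 : (Nat.card G : ℚ) * (1 / C) ≤ Nat.card F := by
    rw [mul_one_div, div_le_iff₀ hC']
    exact h3
  have h5 : (Nat.card F : ℚ) ≤ (Nat.card {g : G // X < Nat.card (Subgroup.centralizer {g})} : ℚ) := by exact_mod_cast h1
  linarith

theorem strip {F : Type} [Group F] [Finite F] (hF : Group.IsNilpotent F) {y Y K : ℕ}
    (hy : ∀ p : ℕ, p.Prime → p ∣ Nat.card F → p ≤ y) (x : F) (hx : Nat.card (Subgroup.centralizer {x}) ≤ Y)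
    (V : Subgroup F) (hV : V = der (⊤ : Subgroup F) (Y ^ Y * Y ^ Y).factorial)
    (hK : ∀ m : ℕ, K < m → 2 * Nat.card {v : V // m ≤ orderOf (v : F)} < Nat.card V) :
    Nat.card V ≤ ((Y ^ Y) ^ K) ^ y := by
  have hVn : V.Normal := by
    rw [hV]
    exact der_normal inferInstance _
  have hsol : Group.IsSolvable (⊤ : Subgroup F) := inferInstance
  have hcen : ∀ (p : ℕ), p.Prime → ∀ M N : Subgroup F, M.Normal → N.Normal → N ≤ M →
      (∀ a ∈ M, ∀ b ∈ M, a * b * a⁻¹ * b⁻¹ ∈ N) →
      (∀ a ∈ M, a ^ (p ^ 2) ∈ N) → ∀ v ∈ V, ∀ m ∈ M, v * m * v⁻¹ * m⁻¹ ∈ N := by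
    intro p hp M N hM hN hNM hab hex
    rw [hV]
    exact der_cent ⊤ hsol M N hM hN hNM (sec_el2 hF hp x hx M N hM hN hNM hab hex)
  have hY : 0 < Y := Nat.card_pos.trans_le hx
  refine smooth_card Nat.card_pos (by positivity) (fun p hp hd => hy p hp (hd.trans (Subgroup.card_subgroup_dvd_card V))) ?_
  intro p hp _
  have h := pow_cent hF V (hcen p hp)
  refine pfact V hp ?_ ?_
  · intro i _
    refine sec_el hF hp x hx _ _ (pws_normal hVn i) (pws_normal hVn (i + 1)) pw_le_self ?_ ?_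
    · intro a ha b hb
      have h1 := h (pws p V i) (pws_normal hVn i) (pws_le i) a (pws_le i ha) b hb
      refine (pw_le (fun n hn => ?_) : pw (p ^ 2) (pws p V i) ≤ pws p V (i + 1)) h1
      rw [pow_two, pow_mul]
      exact (pw p (pws p V i)).pow_mem (pow_mem_pw hn) p
    · intro a ha
      exact pow_mem_pw ha
  · intro hd
    have h1 : pws p V (K + 1) ≠ pws p V K := pw_ne hF hp (pws p V K) hd
    have h2 := half_big V hVn hp h K h1
    have h3 : K < p ^ (K + 1) := by
      calc K < 2 ^ K := Nat.lt_two_pow_self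
        _ ≤ p ^ K := Nat.pow_le_pow_left hp.two_le K
        _ ≤ p ^ (K + 1) := Nat.pow_le_pow_right hp.pos (Nat.le_succ K)
    have h4 := hK _ h3
    omega

theorem final (y C₀ : ℕ) : ∃ C : ℕ, ∀ (G : Type) [Group G] [Finite G], Ah G →
    (∀ p : ℕ, p.Prime → p ∣ Nat.card G → p ≤ y) → ∀ R : Subgroup G, R.Normal → Group.IsSolvable R → R.index ≤ C₀ →
    Nat.card G ≤ C := by
  classical
  obtain ⟨X₀, hX0, hX₀⟩ := half y
  obtain ⟨c, hc⟩ := sum_min y
  obtain ⟨W, hW⟩ := chief_bound y X₀ C₀ c hX0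
  obtain ⟨C₁, hC₁⟩ := iter y C₀ W.factorial
  obtain ⟨Y, hY⟩ := few y (ε := 1 / (C₁ + 1 : ℕ)) (by positivity)
  obtain ⟨C₂, hC₂⟩ := iter y C₀ (W.factorial + (Y ^ Y * Y ^ Y).factorial)
  obtain ⟨K, hK⟩ := few y (ε := 1 / (2 * (C₂ + 1 : ℕ))) (by positivity)
  refine ⟨((Y ^ Y) ^ K) ^ y * C₂, ?_⟩
  intro G _ _ hG hp R hR hRs hRi
  have : Fintype G := Fintype.ofFinite G
  have hG0 : (0 : ℚ) < Nat.card G := by exact_mod_cast Nat.card_pos
  have hhalf := hX₀ G hG hp
  have hsum := hc G hG hp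
  have hchief := hW G hp hhalf hsum R hR hRs hRi
  -- the nilpotent normal subgroup
  obtain ⟨F, hFd⟩ : ∃ F, F = der R W.factorial := ⟨_, rfl⟩
  have hFn : F.Normal := by
    rw [hFd]
    exact der_normal hR _
  have hFs : Group.IsSolvable F := by
    have hle : F ≤ R := by
      rw [hFd]
      exact der_le _
    exact Group.isSolvable_of_isSolvable_injective (Subgroup.inclusion_injective hle)
  have hFnil : Group.IsNilpotent F := by
    refine nil F hFn hFs ?_
    intro M N hM hN hlt hMF hch hab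
    rw [hFd]
    exact der_cent R hRs M N hM hN hlt.le (hchief M N hM hN hlt hch hab)
  have hFi : F.index ≤ C₁ + 1 := by
    rw [hFd]
    exact (hC₁ G hG hp R hR hRi).trans (Nat.le_succ _)
  obtain ⟨x, hx⟩ := exists_small F hFi (Nat.succ_pos _) (hY G hG hp)
  obtain ⟨V, hV⟩ : ∃ V, V = der (⊤ : Subgroup F) (Y ^ Y * Y ^ Y).factorial := ⟨_, rfl⟩
  have hVm : V.map F.subtype = der R (W.factorial + (Y ^ Y * Y ^ Y).factorial) := by
    rw [hV, der_top_map, hFd, der_add]
  have hVc : Nat.card V = Nat.card (V.map F.subtype) :=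
    Nat.card_congr (V.equivMapOfInjective F.subtype F.subtype_injective).toEquiv
  have hVi : (V.map F.subtype).index ≤ C₂ := by
    rw [hVm]
    exact hC₂ G hG hp R hR hRi
  have hprod : Nat.card V * (V.map F.subtype).index = Nat.card G := by
    rw [hVc]
    exact Subgroup.card_mul_index _
  have hVK : ∀ m : ℕ, K < m → 2 * Nat.card {v : V // m ≤ orderOf (v : F)} < Nat.card V := by
    intro m hm
    have h1 := hK G hG hp
    have h2 : Nat.card {v : V // m ≤ orderOf (v : F)} ≤ Nat.card {g : G // K < Nat.card (Subgroup.centralizer {g})} := by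
      refine Nat.card_le_card_of_injective (fun v => ⟨(((v : V) : F) : G), ?_⟩) ?_
      · have h3 : orderOf (((v : V) : F) : G) = orderOf ((v : V) : F) := Subgroup.orderOf_coe _
        have h4 := order_le (((v : V) : F) : G)
        have h5 := v.2
        omega
      · intro a b hab
        have h9 := congrArg Subtype.val hab
        exact Subtype.ext (Subtype.ext (Subtype.ext h9))
    have h3 : (Nat.card {v : V // m ≤ orderOf (v : F)} : ℚ) ≤
        Nat.card {g : G // K < Nat.card (Subgroup.centralizer {g})} := by exact_mod_cast h2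
    have h4 : (Nat.card G : ℚ) ≤ Nat.card V * (C₂ + 1 : ℕ) := by
      rw [← hprod]
      push_cast
      refine mul_le_mul_of_nonneg_left ?_ (by positivity)
      have : ((V.map F.subtype).index : ℚ) ≤ C₂ := by exact_mod_cast hVi
      linarith
    have h5 : (0 : ℚ) < (C₂ + 1 : ℕ) := by positivity
    have h6 : (Nat.card G : ℚ) * (1 / (2 * (C₂ + 1 : ℕ))) ≤ Nat.card V / 2 := by
      rw [mul_one_div, div_le_div_iff₀ (by positivity) (by norm_num)]
      nlinarith
    have h7 : (2 * Nat.card {v : V // m ≤ orderOf (v : F)} : ℚ) < Nat.card V := by linarith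
    exact_mod_cast h7
  have hFp : ∀ p : ℕ, p.Prime → p ∣ Nat.card F → p ≤ y := fun p hpp hpd =>
    hp p hpp (hpd.trans (Subgroup.card_subgroup_dvd_card F))
  have h1 := strip hFnil hFp x hx V hV hVK
  rw [← hprod]
  exact Nat.mul_le_mul h1 hVi

/-- For every bound `B` the orders of the groups with `(i)` and `(ii)` are bounded. -/
theorem main (B : ℕ) : ∃ C : ℕ, ∀ (G : Type) [Group G] [Finite G], Ah G →
    (∀ p : ℕ, p.Prime → p ∣ Nat.card G → p ≤ B ∨ ∃ n, p ≤ n ∧ AltFactor G n) →
    (∀ (K L S : Subgroup G) [K.Normal] [L.Normal], K ≤ S → S ≤ L → (∀ l ∈ L, ∀ s ∈ S, l * s * l⁻¹ ∈ S) →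
      IsSimpleGroup (S ⧸ K.subgroupOf S) → (∃ s t : S ⧸ K.subgroupOf S, s * t ≠ t * s) →
      Nat.card (S ⧸ K.subgroupOf S) ≤ B ∨ ∃ n, Nonempty (S ⧸ K.subgroupOf S ≃* alternatingGroup (Fin n))) →
    Nat.card G ≤ C := by
  obtain ⟨c, hc⟩ := top_bound (max 31 B) (max 31 B).factorial
  obtain ⟨C, hC⟩ := final (max 31 B) c
  refine ⟨C, fun G _ _ hG hi hii => ?_⟩
  have hdeg := alt_deg hG hi
  have hp : ∀ p : ℕ, p.Prime → p ∣ Nat.card G → p ≤ max 31 B := by
    intro p hp hd
    rcases hi p hp hd with h | ⟨n, hpn, hn⟩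
    · exact h.trans (le_max_right _ _)
    · have := hdeg n hn
      omega
  obtain ⟨R, hR, hRs, hRc⟩ := hc G hG hp (by
    intro K L S hK hL hKS hSL hS hsim hna
    rcases hii K L S hKS hSL hS hsim hna with h | ⟨n, ⟨e⟩⟩
    · exact h.trans ((le_max_right 31 B).trans (Nat.self_le_factorial _))
    · have hn := hdeg n ⟨K, L, S, hK, hL, hKS, hSL, hS, ⟨e⟩⟩
      rw [Nat.card_congr e.toEquiv]
      calc Nat.card (alternatingGroup (Fin n)) ≤ Nat.card (Equiv.Perm (Fin n)) := Subgroup.card_le_card_group _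
        _ = n.factorial := by rw [Nat.card_perm, Nat.card_fin]
        _ ≤ (max 31 B).factorial := Nat.factorial_le hn.le)
  exact hC G hG hp R hR hRs hRc

end Pool.Agent.Fah
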