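import Pool.Agent.Fah.A1
import Pool.Agent.Bdt.Grp

/-!
# The quotient by the solvable radical: the number of the components is bounded
-/

set_option autoImplicit false

namespace Pool.Agent.Fah

open Pool.Agent.Bdt

/-- The minimal normal subgroups of the minimal normal subgroups. -/
def Cmp (Q : Type*) [Group Q] : Set (Subgroup Q) := {T | ∃ N : Subgroup Q, MinN N ∧ Fac N T}

/-- The socle. -/
def Soc (Q : Type*) [Group Q] : Subgroup Q := ⨆ T ∈ Cmp Q, T

/-- No abelian normal subgroup except `⊥`. -/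
def NoAb (Q : Type*) [Group Q] : Prop :=
  ∀ A : Subgroup Q, A.Normal → (∀ x ∈ A, ∀ y ∈ A, x * y = y * x) → A = ⊥

section

variable {Q : Type*} [Group Q] [Finite Q]

-- BEGIN nsi
/-- PROOF. `MinN.ne` and `NoAb` give that `N` is nonabelian; `Fac.simple`. -/
theorem Cmp.simple (hab : NoAb Q) {N T : Subgroup Q} (hN : MinN N) (hT : Fac N T) :
    IsSimpleGroup T ∧ ∃ a ∈ T, ∃ b ∈ T, a * b ≠ b * a := by
  refine hT.simple hN ?_
  by_contra hcon
  push Not at hcon
  exact hN.ne (hab N hN.nor hcon)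
-- END nsi

-- BEGIN ncm
/-- PROOF. `T` is a `Fac` of `N`, `T'` of `N'`. If `N = N'`: `Fac.comm`. Otherwise `N ⊓ N'` is normal, so it is `⊥` (`MinN.min` twice), and the commutators of `N` and `N'` are in it. -/
theorem Cmp.comm {T T' : Subgroup Q} (hT : T ∈ Cmp Q) (hT' : T' ∈ Cmp Q) (hne : T ≠ T') :
    ∀ s ∈ T, ∀ t ∈ T', s * t = t * s := by
  obtain ⟨N, hN, hF⟩ := hT
  obtain ⟨N', hN', hF'⟩ := hT'
  by_cases h : N = N'
  · subst h
    exact Fac.comm hF hF' hne
  have hb : N ⊓ N' = ⊥ := by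
    by_contra h1
    have hn := hN.nor
    have hn' := hN'.nor
    have hnn : (N ⊓ N').Normal := inferInstance
    have h2 := hN.min _ hnn inf_le_left h1
    have h3 := hN'.min _ hnn inf_le_right h1
    exact h (h2.symm.trans h3)
  intro s hs t ht
  have hsN := hF.le hs
  have htN := hF'.le ht
  have h1 : s * t * s⁻¹ * t⁻¹ ∈ N ⊓ N' := by
    refine ⟨?_, ?_⟩
    · have h2 : t * s⁻¹ * t⁻¹ ∈ N := hN.nor.conj_mem _ (N.inv_mem hsN) t
      have h3 : s * t * s⁻¹ * t⁻¹ = s * (t * s⁻¹ * t⁻¹) := by group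
      rw [h3]
      exact N.mul_mem hsN h2
    · have h2 : s * t * s⁻¹ ∈ N' := hN'.nor.conj_mem _ htN s
      exact N'.mul_mem h2 (N'.inv_mem htN)
  rw [hb, Subgroup.mem_bot] at h1
  have h2 := mul_inv_eq_one.1 h1
  exact mul_inv_eq_iff_eq_mul.1 h2
-- END ncm

-- BEGIN ncz
/-- PROOF. `Cmp.simple`: the center of the nonabelian simple group `T` is trivial. -/
theorem Cmp.cen (hab : NoAb Q) {T : Subgroup Q} (hT : T ∈ Cmp Q) {x : Q} (hx : x ∈ T) (h : ∀ y ∈ T, x * y = y * x) :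
    x = 1 := by
  obtain ⟨N, hN, hF⟩ := hT
  obtain ⟨hs, a, ha, b, hb, hne⟩ := Cmp.simple hab hN hF
  rcases hs.eq_bot_or_eq_top_of_normal (Subgroup.center T) inferInstance with hc | hc
  · have h1 : (⟨x, hx⟩ : T) ∈ Subgroup.center T := by
      rw [Subgroup.mem_center_iff]
      intro y
      exact Subtype.ext (h y.1 y.2).symm
    rw [hc, Subgroup.mem_bot] at h1
    exact congrArg Subtype.val h1
  · exfalso
    apply hne
    have h1 : (⟨a, ha⟩ : T) ∈ Subgroup.center T := by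
      rw [hc]
      exact Subgroup.mem_top _
    rw [Subgroup.mem_center_iff] at h1
    exact (congrArg Subtype.val (h1 ⟨b, hb⟩)).symm
-- END ncz

-- BEGIN ncj
/-- PROOF. `Fac.conj`. -/
theorem Cmp.conj {T : Subgroup Q} (hT : T ∈ Cmp Q) (q : Q) : cj q T ∈ Cmp Q := by
  obtain ⟨N, hN, hF⟩ := hT
  exact ⟨N, hN, Fac.conj hN.nor hF q⟩

/-- PROOF. Conjugation permutes `Cmp Q`. -/
theorem Soc.normal : (Soc Q).Normal := by
  refine ⟨fun n hn g => ?_⟩
  have h1 : (Soc Q).map (MulAut.conj g).toMonoidHom ≤ Soc Q := by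
    rw [Soc, Subgroup.map_iSup]
    refine iSup_le fun T => ?_
    rw [Subgroup.map_iSup]
    refine iSup_le fun hT => ?_
    exact le_iSup₂_of_le (cj g T) (Cmp.conj hT g) le_rfl
  exact h1 ⟨n, hn, rfl⟩
-- END ncj

-- BEGIN nst
/-- PROOF. For `T ∈ s` choose `m_T ∈ T`, `m_T ≠ 1`, and let `m` be the product (in any order, e.g. over a list without repetitions). For `T ∉ s` all `m_T'` commute with `T` (`Cmp.comm`). For `T ∈ s`: `m = u m_T v` with `u, v` commuting with `T`, and some `t ∈ T`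
does not commute with `m_T` (`Cmp.cen`). -/
theorem Soc.surj (hab : NoAb Q) (s : Set (Cmp Q)) :
    ∃ m ∈ Soc Q, ∀ T : Cmp Q, T ∈ s ↔ ∃ t ∈ (T : Subgroup Q), m * t ≠ t * m := by
  refine Set.Finite.induction_on (motive := fun s _ => ∃ m ∈ Soc Q, ∀ T : Cmp Q, T ∈ s ↔
    ∃ t ∈ (T : Subgroup Q), m * t ≠ t * m) s (Set.toFinite s) ?_ ?_
  · refine ⟨1, (Soc Q).one_mem, fun T => ?_⟩
    constructor
    · intro h
      exact absurd h (Set.notMem_empty T)
    · rintro ⟨t, _, ht⟩
      exact absurd (by rw [one_mul, mul_one]) ht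
  · intro S r hS _ ih
    obtain ⟨m, hm, hr⟩ := ih
    have hne : (S : Subgroup Q) ≠ ⊥ := by
      obtain ⟨N, _, hF⟩ := S.2
      exact hF.ne
    obtain ⟨x, hx, hx1⟩ := (Subgroup.ne_bot_iff_exists_ne_one (H := (S : Subgroup Q))).1 hne |>.elim
      fun a ha => (⟨a, a.2, fun h => ha (Subtype.ext h)⟩ : ∃ x ∈ (S : Subgroup Q), x ≠ 1)
    have hxS : x ∈ Soc Q := by
      have : (S : Subgroup Q) ≤ Soc Q := le_iSup₂_of_le (S : Subgroup Q) S.2 le_rfl
      exact this hx
    have hcm : ∀ T : Cmp Q, T ∉ r → ∀ t ∈ (T : Subgroup Q), m * t = t * m := by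
      intro T hT t ht
      by_contra hcon
      exact hT ((hr T).2 ⟨t, ht, hcon⟩)
    have hcx : ∀ T : Cmp Q, T ≠ S → ∀ t ∈ (T : Subgroup Q), x * t = t * x := by
      intro T hT t ht
      exact Cmp.comm S.2 T.2 (fun h => hT (Subtype.ext h.symm)) x hx t ht
    refine ⟨m * x, (Soc Q).mul_mem hm hxS, fun T => ?_⟩
    by_cases hTS : T = S
    · subst hTS
      refine ⟨fun _ => ?_, fun _ => Set.mem_insert _ _⟩
      by_contra hcon
      apply hx1
      apply Cmp.cen hab T.2 hx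
      intro y hy
      by_contra hne2
      apply hcon
      refine ⟨y, hy, fun h => hne2 ?_⟩
      have h2 := hcm T hS y hy
      have h3 : m * (x * y) = m * (y * x) := by
        rw [← mul_assoc, h, ← mul_assoc, ← mul_assoc, h2]
      exact mul_left_cancel h3
    · rw [Set.mem_insert_iff, or_iff_right hTS, hr T]
      refine exists_congr fun t => ?_
      refine and_congr_right fun ht => ?_
      have h2 := hcx T hTS t ht
      have h3 : m * x * t = m * t * x := by rw [mul_assoc, h2, mul_assoc]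
      rw [h3, ← mul_assoc]
      refine not_congr ⟨fun h => by rw [h], fun h => mul_right_cancel h⟩
-- END nst

-- BEGIN nsc
/-- PROOF. By induction over a finite set of pairwise commuting subgroups (`Cmp.comm`): `|⨆| ≤ ∏ |T|`; compare `Fac.card` (the row `crd` of `Pool/Agent/Bdt`). -/
theorem Soc.card {b : ℕ} (hb : ∀ T ∈ Cmp Q, Nat.card T ≤ b) : Nat.card (Soc Q) ≤ b ^ Nat.card (Cmp Q) := by
  classical
  have hfin : Finite (Cmp Q) := inferInstance
  have := Fintype.ofFinite (Cmp Q)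
  have hcomm : Pairwise fun S T : Cmp Q => ∀ x y : Q, x ∈ (S : Subgroup Q) → y ∈ (T : Subgroup Q) → Commute x y := by
    intro S T hST x y hx hy
    exact Cmp.comm S.2 T.2 (fun h => hST (Subtype.ext h)) x hx y hy
  let F : (∀ T : Cmp Q, (T : Subgroup Q)) →* Q := Subgroup.noncommPiCoprod hcomm
  have hFr : F.range = Soc Q := by
    rw [Soc, iSup_subtype']
    exact Subgroup.noncommPiCoprod_range
  have h1 : Nat.card F.range ≤ Nat.card (∀ T : Cmp Q, (T : Subgroup Q)) :=
    Nat.card_le_card_of_surjective F.rangeRestrict F.rangeRestrict_surjective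
  rw [hFr] at h1
  refine h1.trans ?_
  rw [Nat.card_pi]
  calc ∏ T : Cmp Q, Nat.card (T : Subgroup Q) ≤ ∏ _T : Cmp Q, b := Finset.prod_le_prod' fun T _ => hb T T.2
    _ = b ^ Nat.card (Cmp Q) := by rw [Finset.prod_const, Finset.card_univ, Nat.card_eq_fintype_card]
-- END nsc

-- BEGIN nfa
/-- PROOF. `Q` acts on `Soc Q` (normal) by conjugation; the kernel `C` is normal. If `C ≠ ⊥` it contains a minimal normal subgroup `N` (`exists_minN`), `N` is the join of the conjugates of a `Fac` (`exists_fac`, `Fac.gen`), so `N ≤ Soc Q`, so `N` is abelian,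
contradiction. So `Q` embeds in `Equiv.Perm (Soc Q)`. -/
theorem Soc.faithful (hab : NoAb Q) : Nat.card Q ≤ (Nat.card (Soc Q)).factorial := by
  haveI hn : (Soc Q).Normal := Soc.normal
  let φ : Q →* MulAut (Soc Q) := MulAut.conjNormal
  have hφ : ∀ q ∈ φ.ker, ∀ x ∈ Soc Q, q * x = x * q := by
    intro q hq x hx
    have h1 : φ q = 1 := MonoidHom.mem_ker.1 hq
    have h2 : ((φ q ⟨x, hx⟩ : Soc Q) : Q) = q * x * q⁻¹ := MulAut.conjNormal_apply q ⟨x, hx⟩
    rw [h1] at h2
    have h3 : x = q * x * q⁻¹ := h2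
    calc q * x = (q * x * q⁻¹) * q := by group
      _ = x * q := by rw [← h3]
  have hker : φ.ker = ⊥ := by
    by_contra hne
    obtain ⟨N, hN, hNle⟩ := exists_minN φ.ker (MonoidHom.normal_ker φ) hne
    obtain ⟨T, hT⟩ := exists_fac hN
    have hNS : N ≤ Soc Q := by
      rw [Fac.gen hN hT]
      refine iSup_le (fun q => ?_)
      exact le_iSup₂_of_le (cj q T) ⟨N, hN, Fac.conj hN.nor hT q⟩ le_rfl
    apply hN.ne
    exact hab N hN.nor (fun x hx y hy => hφ x (hNle hx) y (hNS hy))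
  have hinj : Function.Injective φ := (MonoidHom.ker_eq_bot_iff φ).1 hker
  have h4 : Function.Injective (fun q : Q => (φ q).toEquiv) := fun a b h =>
    hinj (MulEquiv.toEquiv_injective h)
  have h5 : Nat.card Q ≤ Nat.card (Equiv.Perm (Soc Q)) := Nat.card_le_card_of_injective _ h4
  rw [Nat.card_perm] at h5
  exact h5
-- END nfa

-- BEGIN nor
/-- PROOF. `pow_orb` with `H = Q` acting by conjugation on `E = Soc Q` (`MulAction Q (Soc Q)`, define it with `letI`), `Δ = Cmp Q`, `σ q T = cj q T`, `φ m = {T | ∃ t ∈ T, m * t ≠ t * m}` (`Soc.surj`); Burnside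
(`MulAction.sum_card_fixedBy_eq_card_orbits_mul_card_group`). -/
theorem soc_orb [Fintype Q] (hab : NoAb Q) {Y w : ℕ} (hY : 0 < Y) (hhalf : Nat.card Q ≤ 2 * Nat.card {q : Q // orderOf q ≤ Y})
    (hw : ∑ q : Q, Nat.card {m : Soc Q // q * (m : Q) = m * q} ≤ Nat.card Q * w) :
    2 ^ (Nat.card (Cmp Q) / Y) ≤ 2 * w := by
  classical
  have := Soc.normal (Q := Q)
  let _ : MulAction Q (Soc Q) := MulAction.compHom _ (MulAut.conjNormal : Q →* MulAut (Soc Q))
  have hsm : ∀ (q : Q) (m : Soc Q), ((q • m : Soc Q) : Q) = q * m * q⁻¹ := fun q m =>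
    MulAut.conjNormal_apply q m
  let _ : MulAction Q (Cmp Q) :=
    { smul := fun q T => ⟨cj q T, Cmp.conj T.2 q⟩
      one_smul := fun T => Subtype.ext (cj_one _)
      mul_smul := fun a b T => Subtype.ext (cj_mul a b _) }
  have hsT : ∀ (q : Q) (T : Cmp Q), ((q • T : Cmp Q) : Subgroup Q) = cj q T := fun q T => rfl
  have h1 := pow_orb (H := Q) (Δ := Cmp Q) (E := Soc Q) (MulAction.toPermHom Q (Cmp Q)) hY hhalf
    (fun m => {T | ∃ t ∈ (T : Subgroup Q), (m : Q) * t ≠ t * m})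
    (by
      intro s
      obtain ⟨m, hm, h⟩ := Soc.surj hab s
      exact ⟨⟨m, hm⟩, Set.ext fun T => (h T).symm⟩)
    (by
      intro q m
      ext T
      constructor
      · rintro ⟨t, ht, hne⟩
        refine ⟨q⁻¹ • T, ⟨q⁻¹ * t * q, ?_, ?_⟩, ?_⟩
        · rw [hsT, mem_cj]
          have : q⁻¹⁻¹ * (q⁻¹ * t * q) * q⁻¹ = t := by group
          rw [this]
          exact ht
        · intro h
          apply hne
          rw [hsm]
          have h2 : q * ((m : Q) * (q⁻¹ * t * q)) * q⁻¹ = q * (q⁻¹ * t * q * (m : Q)) * q⁻¹ := by rw [h]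
          have h3 : q * ((m : Q) * (q⁻¹ * t * q)) * q⁻¹ = q * m * q⁻¹ * t := by group
          have h4 : q * (q⁻¹ * t * q * (m : Q)) * q⁻¹ = t * (q * m * q⁻¹) := by group
          rw [← h3, h2, h4]
        · show q • (q⁻¹ • T) = T
          rw [smul_inv_smul]
      · rintro ⟨T', ⟨t, ht, hne⟩, rfl⟩
        refine ⟨q * t * q⁻¹, ?_, ?_⟩
        · show _ ∈ ((q • T' : Cmp Q) : Subgroup Q)
          rw [hsT]
          exact cj_mem ht
        · intro h
          apply hne
          rw [hsm] at h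
          have h2 : q⁻¹ * (q * m * q⁻¹ * (q * t * q⁻¹)) * q = q⁻¹ * (q * t * q⁻¹ * (q * m * q⁻¹)) * q := by rw [h]
          have h3 : q⁻¹ * (q * m * q⁻¹ * (q * t * q⁻¹)) * q = m * t := by group
          have h4 : q⁻¹ * (q * t * q⁻¹ * (q * m * q⁻¹)) * q = t * m := by group
          rw [← h3, h2, h4])
  refine h1.trans ?_
  apply Nat.mul_le_mul_left
  have hB := MulAction.sum_card_fixedBy_eq_card_orbits_mul_card_group Q (Soc Q)
  have hE : ∀ q : Q, Fintype.card (MulAction.fixedBy (Soc Q) q) = Nat.card {m : Soc Q // q * (m : Q) = m * q} := by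
    intro q
    rw [← Nat.card_eq_fintype_card]
    apply Nat.card_congr
    refine Equiv.subtypeEquivRight fun m => ?_
    rw [MulAction.mem_fixedBy]
    constructor
    · intro h
      have h2 := hsm q m
      rw [h] at h2
      exact (eq_mul_inv_iff_mul_eq.1 h2).symm
    · intro h
      apply Subtype.ext
      rw [hsm]
      exact mul_inv_eq_iff_eq_mul.2 h
  rw [Finset.sum_congr rfl (fun q _ => hE q)] at hB
  rw [hB, Nat.card_eq_fintype_card (α := Q), mul_comm] at hw
  have hpos : 0 < Fintype.card Q := Fintype.card_pos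
  rw [Nat.card_eq_fintype_card]
  exact Nat.le_of_mul_le_mul_left hw hpos
-- END nor

end

-- BEGIN ngr
private theorem ngr_exp (C c : ℕ) : ∃ q₀ : ℕ, ∀ q : ℕ, 2 ^ q ≤ C * (q + 1) ^ c → q < q₀ := by
  have h1 := tendsto_pow_const_div_const_pow_of_one_lt c (r := (2 : ℝ)) (by norm_num)
  have hpos : (0 : ℝ) < 1 / (2 * ((C : ℝ) + 1)) := by positivity
  obtain ⟨q₀, hq₀⟩ := Filter.eventually_atTop.1 (h1.eventually_lt_const hpos)
  refine ⟨q₀, fun q hq => ?_⟩
  by_contra hcon
  push Not at hcon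
  have h2 := hq₀ (q + 1) (by omega)
  have h3 : (2 : ℝ) ^ q ≤ C * ((q : ℝ) + 1) ^ c := by exact_mod_cast hq
  have h4 : (0 : ℝ) < 2 ^ (q + 1) := by positivity
  rw [div_lt_iff₀ h4] at h2
  push_cast at h2
  have h5 : 1 / (2 * ((C : ℝ) + 1)) * 2 ^ (q + 1) = 2 ^ q / ((C : ℝ) + 1) := by
    rw [pow_succ]
    field_simp
  rw [h5, lt_div_iff₀ (by positivity)] at h2
  have h6 : (0 : ℝ) ≤ ((q : ℝ) + 1) ^ c := by positivity
  nlinarith

/-- PROOF. `Nat.log 2 (b ^ k) ≤ k * b` or so; an exponential function of `k` grows faster than a polynomial. -/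
theorem grow_cmp (b c Y : ℕ) : ∃ k₀ : ℕ, ∀ k : ℕ, 0 < Y → 2 ^ (k / Y) ≤ 2 * (c * (Nat.log 2 (b ^ k) + 1) ^ c) → k ≤ k₀ := by
  obtain ⟨q₀, hq₀⟩ := ngr_exp (2 * c * (b * Y + 1) ^ c) c
  refine ⟨Y * q₀, fun k hY hk => ?_⟩
  have h1 : Nat.log 2 (b ^ k) ≤ b * k := by
    have h2 : b ^ k ≤ 2 ^ (b * k) := by
      rw [pow_mul]
      exact Nat.pow_le_pow_left Nat.lt_two_pow_self.le k
    calc Nat.log 2 (b ^ k) ≤ Nat.log 2 (2 ^ (b * k)) := Nat.log_mono_right h2
      _ = b * k := Nat.log_pow (by norm_num) _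
  have h3 : k < Y * (k / Y + 1) := Nat.lt_mul_div_succ k hY
  have h4 : Nat.log 2 (b ^ k) + 1 ≤ (b * Y + 1) * (k / Y + 1) := by
    have h5 : b * k ≤ b * (Y * (k / Y + 1)) := Nat.mul_le_mul_left b h3.le
    have h6 : b * (Y * (k / Y + 1)) = b * Y * (k / Y + 1) := by ring
    have h7 : (b * Y + 1) * (k / Y + 1) = b * Y * (k / Y + 1) + (k / Y + 1) := by ring
    rw [h7, ← h6]
    exact Nat.add_le_add (h1.trans h5) (Nat.le_add_left 1 _)
  have h8 : 2 ^ (k / Y) ≤ 2 * c * (b * Y + 1) ^ c * (k / Y + 1) ^ c := by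
    calc 2 ^ (k / Y) ≤ 2 * (c * (Nat.log 2 (b ^ k) + 1) ^ c) := hk
      _ ≤ 2 * (c * ((b * Y + 1) * (k / Y + 1)) ^ c) :=
          Nat.mul_le_mul_left 2 (Nat.mul_le_mul_left c (Nat.pow_le_pow_left h4 c))
      _ = 2 * c * (b * Y + 1) ^ c * (k / Y + 1) ^ c := by
          rw [mul_pow]
          ring
  have h9 := hq₀ _ h8
  exact h3.le.trans (Nat.mul_le_mul_left Y h9)
-- END ngr

-- BEGIN nqs
private theorem nqs_fiber {G : Type*} [Group G] [Fintype G] (R : Subgroup G) [R.Normal] [DecidableEq (G ⧸ R)]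
    (q : G ⧸ R) : (Finset.univ.filter fun g : G => (g : G ⧸ R) = q).card = Nat.card R := by
  classical
  have h1 : (Finset.univ.filter fun g : G => QuotientGroup.mk' R g = q).card =
      (Finset.univ.filter fun g : G => QuotientGroup.mk' R g = 1).card := by
    apply MonoidHom.card_fiber_eq_of_mem_range
    · exact (QuotientGroup.mk'_surjective R) q
    · exact ⟨1, map_one _⟩
  have h2 : (Finset.univ.filter fun g : G => QuotientGroup.mk' R g = 1).card = Nat.card R := by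
    rw [← Fintype.card_subtype, ← Nat.card_eq_fintype_card]
    refine Nat.card_congr (Equiv.subtypeEquivRight (fun g => ?_))
    rw [← MonoidHom.mem_ker, QuotientGroup.ker_mk']
  rw [← h2, ← h1]
  rfl

/-- PROOF. `cent_quot`, and each class has `|R|` elements. -/
theorem quot_sum {G : Type*} [Group G] [Fintype G] (R : Subgroup G) [R.Normal] [Fintype (G ⧸ R)] (f : ℕ → ℕ) (hf : Monotone f) :
    Nat.card R * ∑ q : G ⧸ R, f (Nat.card (Subgroup.centralizer {q})) ≤ ∑ g : G, f (Nat.card (Subgroup.centralizer {g})) := by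
  classical
  have h1 : ∑ g : G, f (Nat.card (Subgroup.centralizer {(g : G ⧸ R)})) =
      Nat.card R * ∑ q : G ⧸ R, f (Nat.card (Subgroup.centralizer {q})) := by
    rw [← Finset.sum_fiberwise Finset.univ (fun g : G => (g : G ⧸ R)), Finset.mul_sum]
    refine Finset.sum_congr rfl (fun q _ => ?_)
    have h2 : ∀ g ∈ Finset.univ.filter (fun g : G => (g : G ⧸ R) = q),
        f (Nat.card (Subgroup.centralizer {(g : G ⧸ R)})) = f (Nat.card (Subgroup.centralizer {q})) := by
      intro g hg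
      rw [(Finset.mem_filter.1 hg).2]
    rw [Finset.sum_congr rfl h2, Finset.sum_const, nqs_fiber R q, smul_eq_mul]
  rw [← h1]
  exact Finset.sum_le_sum (fun g _ => hf (cent_quot R g))
-- END nqs

-- BEGIN nhq
/-- PROOF. The order of the image divides the order; each class has `|R|` elements. -/
theorem half_quot {G : Type*} [Group G] [Finite G] (R : Subgroup G) [R.Normal] {Y : ℕ}
    (h : Nat.card G ≤ 2 * Nat.card {g : G // orderOf g ≤ Y}) :
    Nat.card (G ⧸ R) ≤ 2 * Nat.card {q : G ⧸ R // orderOf q ≤ Y} := by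
  have h1 : Nat.card {g : G // orderOf g ≤ Y} ≤ Nat.card ({q : G ⧸ R // orderOf q ≤ Y} × R) := by
    have h2 : ∀ g : G, orderOf g ≤ Y → orderOf (g : G ⧸ R) ≤ Y := by
      intro g hg
      have h3 : orderOf (QuotientGroup.mk' R g) ∣ orderOf g := orderOf_map_dvd (QuotientGroup.mk' R) g
      exact (Nat.le_of_dvd (orderOf_pos g) h3).trans hg
    have h4 : ∀ g : G, ((g : G ⧸ R).out)⁻¹ * g ∈ R := by
      intro g
      rw [← QuotientGroup.eq]
      exact QuotientGroup.out_eq' _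
    refine Nat.card_le_card_of_injective
      (fun g : {g : G // orderOf g ≤ Y} =>
        ((⟨((g : G) : G ⧸ R), h2 g g.2⟩ : {q : G ⧸ R // orderOf q ≤ Y}),
          (⟨(((g : G) : G ⧸ R).out)⁻¹ * (g : G), h4 g⟩ : R))) ?_
    intro a b hab
    have e1 : ((a : G) : G ⧸ R) = ((b : G) : G ⧸ R) := congrArg (fun x => (x.1 : G ⧸ R)) hab
    have e2 : (((a : G) : G ⧸ R).out)⁻¹ * (a : G) = (((b : G) : G ⧸ R).out)⁻¹ * (b : G) :=
      congrArg (fun x => (x.2 : G)) hab
    rw [e1] at e2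
    exact Subtype.ext (mul_left_cancel e2)
  rw [Nat.card_prod] at h1
  have h5 : Nat.card G = Nat.card (G ⧸ R) * Nat.card R := Subgroup.card_eq_card_quotient_mul_card_subgroup R
  have h6 : 0 < Nat.card R := Nat.card_pos
  have h7 : Nat.card (G ⧸ R) * Nat.card R ≤ 2 * Nat.card {q : G ⧸ R // orderOf q ≤ Y} * Nat.card R := by
    rw [← h5]
    calc Nat.card G ≤ 2 * Nat.card {g : G // orderOf g ≤ Y} := h
      _ ≤ 2 * (Nat.card {q : G ⧸ R // orderOf q ≤ Y} * Nat.card R) := Nat.mul_le_mul_left 2 h1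
      _ = 2 * Nat.card {q : G ⧸ R // orderOf q ≤ Y} * Nat.card R := by ring
  exact Nat.le_of_mul_le_mul_right h7 h6
-- END nhq

end Pool.Agent.Fah
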